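import Mathlib

/-!
# Counting the linear maps `g ∘ s`

MODULE ACnt (Mathlib only).

`exists_equiv_of_indep`. Let `U = span (range u)`, `W = span (range w)`. The bases
`Basis.span hu`, `Basis.span hw` (both indexed by `ι`) give an isomorphism `f : U ≃ₗ W`
(`Basis.equiv`) with `f (u i) = w i`. `U` and `W` have complements `U'`, `W'`
(`Submodule.exists_isCompl`) of the same dimension (`Submodule.finrank_add_eq_of_isCompl`), so there
is `f' : U' ≃ₗ W'` (`LinearEquiv.ofFinrankEq`). Glue with `Submodule.prodEquivOfIsCompl`.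

`pow_le_card_indep`. By `card_linearIndependent` (Mathlib, with `K = ZMod p`, `q = p`,
`n = finrank`) the number is `∏ i : Fin r, (p ^ m - p ^ i)`, `m = finrank X`; each factor is at least
`p ^ (m - 1)` because `i < r ≤ m`, so `p ^ i ≤ p ^ (m - 1)` and `p ^ m = p * p ^ (m - 1) ≥
2 * p ^ (m - 1)` (if `r = 0` the claim is `1 ≤ 1`). `Finset.prod_le_prod'`/`Finset.pow_card_le_prod`.

`orbit_card`. Let `r` be the rank of `s`, `r ≤ m` (`Submodule.finrank_le`). Choose a basis of the range
of `s` indexed by `Fin r` (`finBasis`) and `y i` with `s (y i)` its members (as elements of `X`): `u i =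
s (y i)` is linearly independent in `X`. The map `t ↦ (i ↦ t (y i))` sends the set on the right onto a
set which contains all linearly independent `w : Fin r → X`: by `exists_equiv_of_indep` there is `g`
with `g (s (y i)) = w i`. So the number of these `w` (`pow_le_card_indep`) is at most the cardinality
of the set (`Set.ncard_le_ncard`, `Set.ncard_image_le`; everything is finite).
-/

set_option autoImplicit false

namespace Pool.Agent.H81.GL

open Module

theorem exists_equiv_of_indep {K X ι : Type} [Field K] [AddCommGroup X] [Module K X]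
    [FiniteDimensional K X] {u w : ι → X} (hu : LinearIndependent K u)
    (hw : LinearIndependent K w) : ∃ g : X ≃ₗ[K] X, ∀ i, g (u i) = w i := by
  obtain ⟨U', hU'⟩ := (Submodule.span K (Set.range u)).exists_isCompl
  obtain ⟨W', hW'⟩ := (Submodule.span K (Set.range w)).exists_isCompl
  let f : Submodule.span K (Set.range u) ≃ₗ[K] Submodule.span K (Set.range w) :=
    (Basis.span hu).equiv (Basis.span hw) (Equiv.refl ι)
  have h1 := Submodule.finrank_add_eq_of_isCompl hU'
  have h2 := Submodule.finrank_add_eq_of_isCompl hW'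
  have h3 := f.finrank_eq
  let f' : U' ≃ₗ[K] W' := LinearEquiv.ofFinrankEq U' W' (by omega)
  refine ⟨(Submodule.prodEquivOfIsCompl _ _ hU').symm ≪≫ₗ (f.prodCongr f') ≪≫ₗ
    (Submodule.prodEquivOfIsCompl _ _ hW'), fun i => ?_⟩
  have hui : u i = ((Basis.span hu i : Submodule.span K (Set.range u)) : X) := by
    rw [Basis.span_apply]
  have hwi : w i = ((Basis.span hw i : Submodule.span K (Set.range w)) : X) := by
    rw [Basis.span_apply]
  rw [LinearEquiv.trans_apply, LinearEquiv.trans_apply, hui,
    Submodule.prodEquivOfIsCompl_symm_apply_left, LinearEquiv.prodCongr_apply,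
    Submodule.coe_prodEquivOfIsCompl']
  have h4 : f (Basis.span hu i) = Basis.span hw i := by
    show (Basis.span hu).equiv (Basis.span hw) (Equiv.refl ι) (Basis.span hu i) = _
    rw [Basis.equiv_apply]
    rfl
  show ((f (Basis.span hu i) : Submodule.span K (Set.range w)) : X) + ((f' 0 : W') : X) = w i
  rw [h4, map_zero, hwi]
  simp

theorem pow_le_card_indep {p : ℕ} [Fact p.Prime] {X : Type} [AddCommGroup X]
    [Module (ZMod p) X] [Finite X] {r : ℕ} (hr : r ≤ finrank (ZMod p) X) :
    p ^ ((finrank (ZMod p) X - 1) * r) ≤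
      Nat.card {w : Fin r → X // LinearIndependent (ZMod p) w} := by
  rw [card_linearIndependent hr, ZMod.card, pow_mul]
  have hp := (Fact.out : p.Prime).two_le
  calc (p ^ (finrank (ZMod p) X - 1)) ^ r = ∏ _i : Fin r, p ^ (finrank (ZMod p) X - 1) := by
        rw [Finset.prod_const, Finset.card_univ, Fintype.card_fin]
    _ ≤ ∏ i : Fin r, (p ^ finrank (ZMod p) X - p ^ (i : ℕ)) := by
        apply Finset.prod_le_prod' 
        intro i _
        have hi := i.2
        obtain ⟨m, hm⟩ : ∃ m, finrank (ZMod p) X = m + 1 := ⟨finrank (ZMod p) X - 1, by omega⟩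
        rw [hm, Nat.add_sub_cancel, pow_succ]
        have h1 : p ^ (i : ℕ) ≤ p ^ m := Nat.pow_le_pow_right (by omega) (by omega)
        have h2 : p ^ m * 2 ≤ p ^ m * p := Nat.mul_le_mul_left _ hp
        omega

theorem orbit_card {p : ℕ} [Fact p.Prime] {X Y : Type} [AddCommGroup X] [Module (ZMod p) X]
    [Finite X] [AddCommGroup Y] [Module (ZMod p) Y] [Finite Y] (s : Y →ₗ[ZMod p] X) :
    p ^ ((finrank (ZMod p) X - 1) * finrank (ZMod p) (LinearMap.range s)) ≤
      {t : Y →ₗ[ZMod p] X | ∃ g : X ≃ₗ[ZMod p] X, t = g.toLinearMap ∘ₗ s}.ncard := by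
  have hr : finrank (ZMod p) (LinearMap.range s) ≤ finrank (ZMod p) X := Submodule.finrank_le _
  obtain ⟨r, hrr⟩ : ∃ r, r = finrank (ZMod p) (LinearMap.range s) := ⟨_, rfl⟩
  have b : Basis (Fin r) (ZMod p) (LinearMap.range s) := by
    rw [hrr]
    exact finBasis _ _
  have hy : ∀ i, ∃ y : Y, s y = (b i : X) := fun i => (b i).2
  choose y hy using hy
  have hu : LinearIndependent (ZMod p) (fun i => (b i : X)) :=
    b.linearIndependent.map' (LinearMap.range s).subtype (Submodule.ker_subtype _)
  rw [← hrr] at hr ⊢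
  refine (pow_le_card_indep hr).trans ?_
  haveI : Finite (Y →ₗ[ZMod p] X) := DFunLike.finite _
  have hsub : {w : Fin r → X | LinearIndependent (ZMod p) w} ⊆
      (fun (t : Y →ₗ[ZMod p] X) (i : Fin r) => t (y i)) ''
        {t : Y →ₗ[ZMod p] X | ∃ g : X ≃ₗ[ZMod p] X, t = g.toLinearMap ∘ₗ s} := by
    intro w hw
    obtain ⟨g, hg⟩ := exists_equiv_of_indep hu hw
    refine ⟨g.toLinearMap ∘ₗ s, ⟨g, rfl⟩, ?_⟩
    ext i
    show g (s (y i)) = w i
    rw [hy, hg]
  calc Nat.card {w : Fin r → X // LinearIndependent (ZMod p) w} =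
        {w : Fin r → X | LinearIndependent (ZMod p) w}.ncard := rfl
    _ ≤ _ := Set.ncard_le_ncard hsub (Set.toFinite _)
    _ ≤ _ := Set.ncard_image_le (Set.toFinite _)

end Pool.Agent.H81.GL
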