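import Mathlib

/-!
# Subgroups which contain all transvections of two boxes

MODULE AComb (Mathlib only).

Notation `t v f : x ↦ x + f x • v` for `f v = 0` (`LinearEquiv.transvection`,
`LinearEquiv.transvection.apply`). In the group `E ≃ₗ E` (`*` is composition, `LinearEquiv.mul_apply`)
one has `t v f * t w f = t (v + w) f` (if `f v = f w = 0`), `t v f * t v g = t v (f + g)` (if `f v = g v
= 0`), `(t v f)⁻¹ = t (-v) f` (`LinearEquiv.transvection.inv_eq`).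

`comm_tr`. Let `γ v = 0`, `φ w = 0`, `γ w = 1`, `φ v = 0`. Then
`t v γ * t w φ * (t v γ)⁻¹ * (t w φ)⁻¹ = t v φ`. Proof: apply to `x`. `(t w φ)⁻¹ x = x - φ x • w`;
`(t v γ)⁻¹` of this is `x - φ x • w - (γ x - φ x) • v` (`γ w = 1`); applying `t w φ` (`φ` of the last
vector is `φ x`, since `φ w = φ v = 0`) gives `x - (γ x - φ x) • v`; applying `t v γ` (`γ` of it is
`γ x`, `γ v = 0`) gives `x - (γ x - φ x) • v + γ x • v = x + φ x • v`.

`comb`. Let `H` contain all `t v f` with `v ∈ B1`, `f ∈ F1` and all with `v ∈ B2`, `f ∈ F2` (`f v = 0`).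
(1) `v ∈ B1`, `φ ∈ F2`, `φ v = 0`: by `h12` with `v1 = v`, `v2 = 0`, `f1 = 0`, `f2 = φ` there are
`γ ∈ F1`, `w ∈ B2` with `γ v = 0`, `φ w = 0`, `γ w = 1`, so `t v φ ∈ H` by `comm_tr`.
(2) `v ∈ B2`, `φ ∈ F1`, `φ v = 0`: the same with `h21` (the roles of 1 and 2 exchanged).
(3) `v = v1 + v2`, `f = f1 + f2` (`Submodule.mem_sup`), `f v = 0`. Take `γ ∈ F1`, `w ∈ B2` from `h12` for
`v1 v2 f1 f2`. `t v γ = t v1 γ * t v2 γ ∈ H` (`t v1 γ` by `H1`, `t v2 γ` by (2)), `t w f = t w f1 *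
t w f2 ∈ H` (`t w f1` by (2), `t w f2` by `H2`), and `γ v = 0`, `f w = 0`, `γ w = 1`, `f v = 0`, so
`t v f ∈ H` by `comm_tr`.
-/

set_option autoImplicit false

namespace Pool.Agent.H81.GL

open Module

/-- `H` contains all transvections `x ↦ x + f x • v` with `v ∈ B`, `f ∈ F`, `f v = 0`. -/
def Rect {K E : Type} [Field K] [AddCommGroup E] [Module K E] (H : Subgroup (E ≃ₗ[K] E))
    (B : Submodule K E) (F : Submodule K (Dual K E)) : Prop :=
  ∀ v ∈ B, ∀ f ∈ F, ∀ h : f v = 0, LinearEquiv.transvection h ∈ H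

theorem comm_tr {K E : Type} [Field K] [AddCommGroup E] [Module K E] {v w : E}
    {γ φ : Dual K E} (h1 : γ v = 0) (h2 : φ w = 0) (h3 : φ v = 0) (h4 : γ w = 1) :
    LinearEquiv.transvection h1 * LinearEquiv.transvection h2 *
      (LinearEquiv.transvection h1)⁻¹ * (LinearEquiv.transvection h2)⁻¹ =
      LinearEquiv.transvection h3 := by
  rw [mul_inv_eq_iff_eq_mul, mul_inv_eq_iff_eq_mul]
  refine LinearEquiv.ext fun x => ?_
  simp only [LinearEquiv.mul_apply, LinearEquiv.transvection.apply, map_add, map_smul, h2, h3, h4]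
  module

private theorem tr_addv {K E : Type} [Field K] [AddCommGroup E] [Module K E] {v w : E}
    {f : Dual K E} (h1 : f v = 0) (h2 : f w = 0) (h3 : f (v + w) = 0) :
    LinearEquiv.transvection h1 * LinearEquiv.transvection h2 = LinearEquiv.transvection h3 := by
  refine LinearEquiv.ext fun x => ?_
  simp only [LinearEquiv.mul_apply, LinearEquiv.transvection.apply, map_add, map_smul, h2]
  module

private theorem tr_addf {K E : Type} [Field K] [AddCommGroup E] [Module K E] {v : E}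
    {f g : Dual K E} (h1 : f v = 0) (h2 : g v = 0) (h3 : (f + g) v = 0) :
    LinearEquiv.transvection h1 * LinearEquiv.transvection h2 = LinearEquiv.transvection h3 := by
  refine LinearEquiv.ext fun x => ?_
  simp only [LinearEquiv.mul_apply, LinearEquiv.transvection.apply, map_add, map_smul, h1,
    LinearMap.add_apply]
  module

/-- In this form the condition for the pairs only has to be checked on the boxes. -/
theorem comb {K E : Type} [Field K] [AddCommGroup E] [Module K E] {H : Subgroup (E ≃ₗ[K] E)}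
    {B1 B2 : Submodule K E} {F1 F2 : Submodule K (Dual K E)} (H1 : Rect H B1 F1)
    (H2 : Rect H B2 F2)
    (h12 : ∀ v1 ∈ B1, ∀ v2 ∈ B2, ∀ f1 ∈ F1, ∀ f2 ∈ F2, ∃ γ ∈ F1, ∃ w ∈ B2,
      γ v1 = 0 ∧ γ v2 = 0 ∧ f1 w = 0 ∧ f2 w = 0 ∧ γ w = 1)
    (h21 : ∀ v1 ∈ B1, ∀ v2 ∈ B2, ∀ f1 ∈ F1, ∀ f2 ∈ F2, ∃ γ ∈ F2, ∃ w ∈ B1,
      γ v1 = 0 ∧ γ v2 = 0 ∧ f1 w = 0 ∧ f2 w = 0 ∧ γ w = 1) :
    Rect H (B1 ⊔ B2) (F1 ⊔ F2) := by
  have hcomm : ∀ {v w : E} {γ φ : Dual K E} (h1 : γ v = 0) (h2 : φ w = 0) (h3 : φ v = 0)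
      (_ : γ w = 1), LinearEquiv.transvection h1 ∈ H → LinearEquiv.transvection h2 ∈ H →
      LinearEquiv.transvection h3 ∈ H := by
    intro v w γ φ h1 h2 h3 h4 m1 m2
    rw [← comm_tr h1 h2 h3 h4]
    exact H.mul_mem (H.mul_mem (H.mul_mem m1 m2) (H.inv_mem m1)) (H.inv_mem m2)
  have A1 : ∀ v ∈ B1, ∀ φ ∈ F2, ∀ h : φ v = 0, LinearEquiv.transvection h ∈ H := by
    intro v hv φ hφ h
    obtain ⟨γ, hγ, w, hw, e1, -, -, e4, e5⟩ := h12 v hv 0 B2.zero_mem 0 F1.zero_mem φ hφ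
    exact hcomm e1 e4 h e5 (H1 v hv γ hγ e1) (H2 w hw φ hφ e4)
  have A2 : ∀ v ∈ B2, ∀ φ ∈ F1, ∀ h : φ v = 0, LinearEquiv.transvection h ∈ H := by
    intro v hv φ hφ h
    obtain ⟨γ, hγ, w, hw, -, e2, e3, -, e5⟩ := h21 0 B1.zero_mem v hv φ hφ 0 F2.zero_mem
    exact hcomm e2 e3 h e5 (H2 v hv γ hγ e2) (H1 w hw φ hφ e3)
  intro v hv f hf h
  obtain ⟨v1, hv1, v2, hv2, rfl⟩ := Submodule.mem_sup.1 hv
  obtain ⟨f1, hf1, f2, hf2, rfl⟩ := Submodule.mem_sup.1 hf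
  obtain ⟨γ, hγ, w, hw, e1, e2, e3, e4, e5⟩ := h12 v1 hv1 v2 hv2 f1 hf1 f2 hf2
  have e6 : γ (v1 + v2) = 0 := by rw [map_add, e1, e2, add_zero]
  have e7 : (f1 + f2) w = 0 := by rw [LinearMap.add_apply, e3, e4, add_zero]
  refine hcomm e6 e7 h e5 ?_ ?_
  · rw [← tr_addv e1 e2 e6]
    exact H.mul_mem (H1 v1 hv1 γ hγ e1) (A2 v2 hv2 γ hγ e2)
  · rw [← tr_addf e3 e4 e7]
    exact H.mul_mem (A2 w hw f1 hf1 e3) (H2 w hw f2 hf2 e4)

end Pool.Agent.H81.GL
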