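import Mathlib

/-!
# Spaces of linear maps of small rank (a weak form of a theorem of Flanders)

MODULE AFl (Mathlib only).

`rank_step`. Write `r = rank S0`, `N = ker S0`, `D` for the map `N → B / range S0` induced by `S`,
`δ = rank D`. Let `U = S(N)` (`N.map S`). `S` and `T = S + S0` agree on `N`, so `U ≤ range S` and
`U ≤ range T`, that is `U ≤ range S ⊓ range T`; and `range S0 ⊔ U ≤ range S ⊔ range T` because
`S0 a = T a - S a`. The range of `D` is the image of `U` under `mkQ`, so `δ ≤ finrank U`
(`Submodule.finrank_map_le`) and `finrank (range S0 ⊔ U) = r + δ` (for example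
`finrank (map mkQ (range S0 ⊔ U)) + finrank (range S0) = finrank (range S0 ⊔ U)`; only `≥` is needed:
use `LinearMap.finrank_range_add_finrank_ker` for `mkQ` restricted to `range S0 ⊔ U`, its range is the
range of `D`, its kernel has the dimension `r`). Finally
`finrank (range S ⊔ range T) + finrank (range S ⊓ range T) = finrank (range S) + finrank (range T)`
(`Submodule.finrank_sup_add_finrank_inf_eq`), so the right-hand side is at least `(r + δ) + δ`.

`flanders`. Strong induction on `ρ` (for all spaces). Choose `S0 ∈ P` of maximal rank `r ≤ ρ`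
(`0 ∈ P`; the ranks are bounded by `ρ`: `Nat.findGreatest` or `Set.exists_max_image`-like argument on
the set of the ranks, for example `Nat.sSup_mem`). If `r = 0` every `S ∈ P` has rank `0`, so `S = 0`:
take `A1 = ⊤`, `B1 = ⊥`. If `0 < r` let `N = ker S0`, `Q = B / range S0` and let `P'` be the image of
`P` under the linear map `S ↦ mkQ ∘ S ∘ N.subtype` from `A →ₗ B` to `N →ₗ Q`
(`Submodule.map` of `(LinearMap.lcomp ..) ..`, or write the linear map by hand). By `rank_step` and the
maximality of `r` (`S + S0 ∈ P`), the members of `P'` have rank at most `r / 2 < r ≤ ρ`. The induction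
hypothesis for `r / 2` gives `A1' ≤ N` and `B1' ≤ Q` with `finrank N ≤ finrank A1' + 2 (r / 2)`,
`finrank B1' ≤ 2 (r / 2) ≤ r`. Take `A1 = A1'.map N.subtype` and `B1 = B1'.comap mkQ`:
`finrank A = r + finrank N ≤ finrank A1 + 2 r` and `finrank B1 ≤ finrank B1' + r ≤ 2 r`
(rank-nullity for `mkQ` restricted to `B1`). For `S ∈ P`, `a ∈ A1`: `mkQ (S a) ∈ B1'`.
-/

set_option autoImplicit false

namespace Pool.Agent.H81.GL

open Module

/-- rank-nullity for the quotient map on a submodule -/
private theorem fr_quot {K B : Type} [Field K] [AddCommGroup B] [Module K B] [FiniteDimensional K B]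
    (R M : Submodule K B) :
    finrank K (M.map R.mkQ) + finrank K ((R.comap M.subtype : Submodule K M)) = finrank K M := by
  have h := LinearMap.finrank_range_add_finrank_ker (R.mkQ.domRestrict M)
  rw [LinearMap.range_domRestrict, LinearMap.ker_domRestrict, Submodule.ker_mkQ] at h
  exact h

private theorem fr_comap_le {K B : Type} [Field K] [AddCommGroup B] [Module K B] [FiniteDimensional K B]
    (R M : Submodule K B) : finrank K ((R.comap M.subtype : Submodule K M)) ≤ finrank K R := by
  rw [← Submodule.finrank_map_subtype_eq M (R.comap M.subtype)]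
  exact Submodule.finrank_mono (Submodule.map_comap_le _ _)

theorem rank_step {K A B : Type} [Field K] [AddCommGroup A] [Module K A] [AddCommGroup B]
    [Module K B] [FiniteDimensional K A] [FiniteDimensional K B] (S S0 : A →ₗ[K] B) :
    finrank K (LinearMap.range S0) + 2 * finrank K (LinearMap.range
      ((LinearMap.range S0).mkQ ∘ₗ S ∘ₗ (LinearMap.ker S0).subtype)) ≤
    finrank K (LinearMap.range S) + finrank K (LinearMap.range (S + S0)) := by
  obtain ⟨U, hU⟩ : ∃ U : Submodule K B, U = (LinearMap.ker S0).map S := ⟨_, rfl⟩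
  have hD : LinearMap.range ((LinearMap.range S0).mkQ ∘ₗ S ∘ₗ (LinearMap.ker S0).subtype) = U.map (LinearMap.range S0).mkQ := by
    rw [LinearMap.range_comp, LinearMap.range_comp, Submodule.range_subtype, hU]
  have h1 : U ≤ LinearMap.range S ⊓ LinearMap.range (S + S0) := by
    rw [hU]
    rintro _ ⟨a, ha, rfl⟩
    refine ⟨⟨a, rfl⟩, ⟨a, ?_⟩⟩
    have ha' : S0 a = 0 := ha
    rw [LinearMap.add_apply, ha', add_zero]
  have h2 : LinearMap.range S0 ⊔ U ≤ LinearMap.range S ⊔ LinearMap.range (S + S0) := by
    refine sup_le ?_ (h1.trans (inf_le_left.trans le_sup_left))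
    rintro _ ⟨a, rfl⟩
    have h3 : S0 a = (S + S0) a - S a := by
      rw [LinearMap.add_apply]
      abel
    rw [h3]
    exact sub_mem (Submodule.mem_sup_right ⟨a, rfl⟩) (Submodule.mem_sup_left ⟨a, rfl⟩)
  have h3 : finrank K (U.map (LinearMap.range S0).mkQ) ≤ finrank K U := Submodule.finrank_map_le _ _
  have h4 : finrank K (LinearMap.range S0) + finrank K (U.map (LinearMap.range S0).mkQ) ≤ finrank K ((LinearMap.range S0 ⊔ U : Submodule K B)) := by
    have h5 := fr_quot (LinearMap.range S0) (LinearMap.range S0 ⊔ U)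
    have h6 : (LinearMap.range S0 ⊔ U).map (LinearMap.range S0).mkQ = U.map (LinearMap.range S0).mkQ := by
      rw [Submodule.map_sup, Submodule.mkQ_map_self, bot_sup_eq]
    have h7 : finrank K (((LinearMap.range S0).comap (LinearMap.range S0 ⊔ U).subtype : Submodule K ((LinearMap.range S0 ⊔ U : Submodule K B)))) = finrank K (LinearMap.range S0) :=
      (Submodule.comapSubtypeEquivOfLe (le_sup_left : LinearMap.range S0 ≤ LinearMap.range S0 ⊔ U)).finrank_eq
    rw [h6, h7] at h5
    omega
  have h5 := Submodule.finrank_sup_add_finrank_inf_eq (LinearMap.range S) (LinearMap.range (S + S0))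
  have h6 := Submodule.finrank_mono h1
  have h7 := Submodule.finrank_mono h2
  rw [hD]
  omega

theorem flanders {K : Type} [Field K] (ρ : ℕ) : ∀ (A B : Type) [AddCommGroup A] [Module K A]
    [AddCommGroup B] [Module K B] [FiniteDimensional K A] [FiniteDimensional K B]
    (P : Submodule K (A →ₗ[K] B)), (∀ S ∈ P, finrank K (LinearMap.range S) ≤ ρ) →
    ∃ (A1 : Submodule K A) (B1 : Submodule K B), finrank K A ≤ finrank K A1 + 2 * ρ ∧
      finrank K B1 ≤ 2 * ρ ∧ ∀ S ∈ P, ∀ a ∈ A1, S a ∈ B1 := by
  classical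
  induction ρ using Nat.strong_induction_on with
  | _ ρ ih =>
  intro A B _ _ _ _ _ _ P hP
  obtain ⟨r, hr⟩ : ∃ r, r = Nat.findGreatest
      (fun n => ∃ S ∈ P, finrank K (LinearMap.range S) = n) ρ := ⟨_, rfl⟩
  have hrρ : r ≤ ρ := by
    rw [hr]
    exact Nat.findGreatest_le ρ
  obtain ⟨S0, hS0, hS0r⟩ : ∃ S ∈ P, finrank K (LinearMap.range S) = r := by
    rw [hr]
    refine Nat.findGreatest_spec (P := fun n => ∃ S ∈ P, finrank K (LinearMap.range S) = n)
      (Nat.zero_le ρ) ⟨0, P.zero_mem, ?_⟩
    rw [LinearMap.range_zero, finrank_bot]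
  have hmax : ∀ S ∈ P, finrank K (LinearMap.range S) ≤ r := by
    intro S hS
    rw [hr]
    exact Nat.le_findGreatest (P := fun n => ∃ S ∈ P, finrank K (LinearMap.range S) = n)
      (hP S hS) ⟨S, hS, rfl⟩
  rcases Nat.eq_zero_or_pos r with h0 | hpos
  · refine ⟨⊤, ⊥, ?_, ?_, ?_⟩
    · rw [finrank_top]
      omega
    · rw [finrank_bot]
      omega
    · intro S hS a _
      have h1 : finrank K (LinearMap.range S) = 0 := by
        have := hmax S hS
        omega
      have h2 : LinearMap.range S = ⊥ := Submodule.finrank_eq_zero.1 h1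
      rw [← h2]
      exact ⟨a, rfl⟩
  · let N : Submodule K A := LinearMap.ker S0
    let Φ : (A →ₗ[K] B) →ₗ[K] (N →ₗ[K] (B ⧸ LinearMap.range S0)) :=
      { toFun := fun S => (LinearMap.range S0).mkQ ∘ₗ S ∘ₗ N.subtype
        map_add' := fun S T => by
          rw [LinearMap.add_comp, LinearMap.comp_add]
        map_smul' := fun c S => by
          rw [LinearMap.smul_comp, LinearMap.comp_smul, RingHom.id_apply] }
    have hΦ : ∀ S, Φ S = (LinearMap.range S0).mkQ ∘ₗ S ∘ₗ N.subtype := fun S => rfl
    obtain ⟨A1, B1, h1, h2, h3⟩ := ih (r / 2) (by omega) N (B ⧸ LinearMap.range S0) (P.map Φ) (by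
      rintro _ ⟨S, hS, rfl⟩
      have h1 := rank_step S S0
      have h2 := hmax S hS
      have h3 := hmax (S + S0) (P.add_mem hS hS0)
      rw [hS0r] at h1
      rw [hΦ]
      have h4 : finrank K (LinearMap.range ((LinearMap.range S0).mkQ ∘ₗ S ∘ₗ N.subtype)) =
        finrank K (LinearMap.range ((LinearMap.range S0).mkQ ∘ₗ S ∘ₗ (LinearMap.ker S0).subtype)) := rfl
      omega)
    refine ⟨A1.map N.subtype, B1.comap (LinearMap.range S0).mkQ, ?_, ?_, ?_⟩
    · have h4 := LinearMap.finrank_range_add_finrank_ker S0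
      rw [Submodule.finrank_map_subtype_eq]
      have h5 : finrank K N = finrank K (LinearMap.ker S0) := rfl
      omega
    · have h4 := fr_quot (LinearMap.range S0) (B1.comap (LinearMap.range S0).mkQ)
      have h5 := fr_comap_le (LinearMap.range S0) (B1.comap (LinearMap.range S0).mkQ)
      have h6 : finrank K ((B1.comap (LinearMap.range S0).mkQ).map (LinearMap.range S0).mkQ) ≤ finrank K B1 :=
        Submodule.finrank_mono (Submodule.map_comap_le _ _)
      omega
    · rintro S hS _ ⟨a, ha, rfl⟩
      rw [Submodule.mem_comap]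
      exact h3 (Φ S) ⟨S, hS, rfl⟩ a ha

end Pool.Agent.H81.GL
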