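import Mathlib

/-!
# Two counting lemmas for groups

MODULE AGrp (Mathlib only).

`ncard_range_le`. Choose representatives `q.out` of the cosets `q : G ⧸ H`. Every `g : G` is
`q.out * h` with `q = (g : G ⧸ H)` and `h ∈ H`. So the range of `F` is the union over `q : G ⧸ H` of
the sets `E q = (fun h => F (q.out * h)) '' H`, and `(E q).ncard ≤ (F '' H).ncard` because
`F (q.out * h)` depends only on `F h` (`hF`): `E q` is the image of `F '' H` under any map `φ` with
`φ (F h) = F (q.out * h)` for `h ∈ H` (choose with `Function.invFunOn`, or `Set.ncard_le_ncard_of...`;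
for example `φ a = F (q.out * (Classical.epsilon fun h => F h = a))`). Then
`Set.ncard_iUnion_le`/`Finset.card_biUnion_le` or: the map `G ⧸ H × (F '' H) → range F`,
`(q, a) ↦ φ_q a` is surjective (`Nat.card_le_card_of_surjective`, `Nat.card_prod`;
`Subgroup.index H = Nat.card (G ⧸ H)`).

`index_comap_le`. `Subgroup.index_comap`: the index of `H.comap f` is the relative index of `H` in
`f.range`, which is at most the index of `H` (`Subgroup.relIndex_le_index`-like; `H.index ≠ 0` because
`G'` is finite). Or: the map `G ⧸ H.comap f → G' ⧸ H`, `g ↦ f g`, is injective.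

`index_ne_zero_of_finite'`: in Mathlib.

`card_gl_le`. `V ≃ₗ V` injects into `V →ₗ V`, which injects into functions from a basis to `V`, so the
cardinality is at most `(p ^ n) ^ n`, `n = finrank V` (`LinearMap.toMatrix`, or the injection
`f ↦ (i ↦ f (b i))`, `b` a basis indexed by `Fin n`; `Nat.card (Fin n → X) = (Nat.card X) ^ n`,
`Nat.card X = p ^ n`: `Module.natCard_eq_pow_finrank`/`Module.card_eq_pow_finrank`). And
`H.index ≤ Nat.card (V ≃ₗ V)` (`Subgroup.index_le_card`-like: `Subgroup.index_dvd_card`,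
`Nat.le_of_dvd`, `Nat.card_pos`).
-/

set_option autoImplicit false

namespace Pool.Agent.H81.GL

open Module

theorem ncard_range_le {G α : Type} [Group G] [Finite G] (F : G → α)
    (hF : ∀ g h h', F h = F h' → F (g * h) = F (g * h')) (H : Subgroup G) :
    (Set.range F).ncard ≤ H.index * (F '' (H : Set G)).ncard := by
  classical
  have hch : ∀ a : (F '' (H : Set G)), ∃ h : G, h ∈ H ∧ F h = a := fun a => a.2
  choose k hk1 hk2 using hch
  obtain ⟨φ, hφ⟩ : ∃ φ : (G ⧸ H) × (F '' (H : Set G)) → α, φ = fun qa => F (qa.1.out * k qa.2) := ⟨_, rfl⟩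
  have hsub : Set.range F ⊆ Set.range φ := by
    rintro _ ⟨g, rfl⟩
    have hq : ((QuotientGroup.mk g : G ⧸ H).out)⁻¹ * g ∈ H :=
      QuotientGroup.eq.1 (QuotientGroup.out_eq' _)
    refine ⟨(QuotientGroup.mk g, ⟨F (((QuotientGroup.mk g : G ⧸ H).out)⁻¹ * g), _, hq, rfl⟩), ?_⟩
    rw [hφ]
    show F ((QuotientGroup.mk g : G ⧸ H).out * k _) = F g
    rw [hF _ _ _ (hk2 _)]
    simp
  have h1 : (Set.range F).ncard ≤ (Set.range φ).ncard := Set.ncard_le_ncard hsub (Set.toFinite _)
  have h2 : (Set.range φ).ncard ≤ Nat.card ((G ⧸ H) × (F '' (H : Set G))) := by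
    rw [← Nat.card_coe_set_eq]
    exact Finite.card_range_le φ
  have h3 : Nat.card ((G ⧸ H) × (F '' (H : Set G))) = H.index * (F '' (H : Set G)).ncard := by
    rw [Nat.card_prod, Nat.card_coe_set_eq]
    rfl
  exact h1.trans (h2.trans h3.le)

theorem index_comap_le {G G' : Type} [Group G] [Group G'] [Finite G'] (f : G →* G')
    (H : Subgroup G') : (H.comap f).index ≤ H.index := by
  rw [Subgroup.index_comap, ← Subgroup.relIndex_top_right]
  refine Subgroup.relIndex_le_of_le_right le_top ?_
  rw [Subgroup.relIndex_top_right]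
  exact Subgroup.index_ne_zero_of_finite

theorem card_gl_le {p : ℕ} [Fact p.Prime] {X : Type} [AddCommGroup X] [Module (ZMod p) X]
    [Finite X] (H : Subgroup (X ≃ₗ[ZMod p] X)) :
    H.index ≤ p ^ (finrank (ZMod p) X * finrank (ZMod p) X) := by
  haveI : Module.Finite (ZMod p) X := Module.Finite.of_finite
  obtain ⟨b, -⟩ : ∃ b : Basis (Fin (finrank (ZMod p) X)) (ZMod p) X, True := ⟨finBasis (ZMod p) X, trivial⟩
  have hinj : Function.Injective fun (f : X ≃ₗ[ZMod p] X) => fun i => f (b i) := by
    intro f g h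
    have h1 : (f : X →ₗ[ZMod p] X) = g := b.ext fun i => congrFun h i
    ext x
    exact LinearMap.congr_fun h1 x
  haveI : Finite (X ≃ₗ[ZMod p] X) := Finite.of_injective _ hinj
  have h1 : H.index ≤ Nat.card (X ≃ₗ[ZMod p] X) :=
    Nat.le_of_dvd Nat.card_pos H.index_dvd_card
  have h2 := Nat.card_le_card_of_injective _ hinj
  have h3 : Nat.card (Fin (finrank (ZMod p) X) → X) = p ^ (finrank (ZMod p) X * finrank (ZMod p) X) := by
    rw [Nat.card_fun, Module.natCard_eq_pow_finrank (K := ZMod p) (V := X), Nat.card_zmod, Nat.card_fin, pow_mul]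
  rw [← h3]
  exact h1.trans h2

end Pool.Agent.H81.GL
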