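import Pool.Agent.H81.GL.AFl
import Pool.Agent.H81.GL.ACnt
import Pool.Agent.H81.GL.AGrp
import Pool.Agent.H81.GL.AComb

/-!
# A subgroup of small index contains the transvections of a large box

MODULE ARect.

`rect_exists`. Write `Hom = X →ₗ Y`, and for `T : Hom` let `t T : E ≃ₗ E` be
`v ↦ v + iY (T (pX v))` (inverse `t (-T)`, because `pX ∘ iY = 0`); `t (T + T') = t T * t T'`.
(1) `L = {T | t T ∈ H}` is an additive subgroup of `Hom`, hence a subspace
(`AddSubgroup.toZModSubmodule p`). `Multiplicative Hom → E ≃ₗ E` is a homomorphism, so by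
`index_comap_le` (or directly: `T + L ↦ t T * H` is injective from `Hom ⧸ L` to the cosets of `H`)
`Nat.card (Hom ⧸ L) ≤ H.index`. Let `N = L.dualAnnihilator`; `Nat.card N = Nat.card (Hom ⧸ L)`
(`Submodule.dualQuotEquivDualAnnihilator`, and a finite space and its dual have the same dimension,
`Subspace.dual_finrank_eq`, so the same cardinality), so `Nat.card N ≤ H.index`.
(2) Let `P` be the set of the `S : Y →ₗ X` for which there is `σ ∈ N` with
`φ (S y) = σ (φ.smulRight y)` for all `φ y` (`φ.smulRight y : X →ₗ Y`, `x ↦ φ x • y`). It is a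
subspace, and for every `σ : Dual Hom` exactly one such `S` exists (`X` is reflexive:
`Module.evalEquiv`; `S` is determined by its values under all `φ`:
`Module.forall_dual_apply_eq_zero_iff`), so `Nat.card P ≤ Nat.card N ≤ H.index`.
(3) Let `H' = H.comap ρ`; `H'.index ≤ H.index` (`index_comap_le`). If `g ∈ H'` and `S ∈ P` then
`g ∘ S ∈ P`: `φ (g (S y)) = σ ((φ ∘ g).smulRight y) = σ' (φ.smulRight y)` with `σ' T = σ (T ∘ g)`, and
`σ' ∈ N` because for `T ∈ L` one has `t (T ∘ g) = (ρ g)⁻¹ * t T * ρ g ∈ H` (`hρ1`, `hρ2`; `(ρ g)⁻¹`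
fixes `iY y` too).
(4) For `S ∈ P` put `F g = g.toLinearMap ∘ₗ S`, `G = X ≃ₗ X`. `ncard_range_le` (with `H'`) gives
`(range F).ncard ≤ H'.index * (F '' H').ncard ≤ H.index * H.index` (`F '' H' ⊆ P`). By `orbit_card`
`p ^ ((m - 1) * rank S) ≤ (range F).ncard ≤ H.index ^ 2 < p ^ ((m - 1) * (k + 1))`, `m = finrank X`,
so `rank S ≤ k`.
(5) `flanders k Y X P` gives `Y1 ≤ Y`, `X1 ≤ X` with `finrank Y ≤ finrank Y1 + 2 k`,
`finrank X1 ≤ 2 k` and `S y ∈ X1` for `S ∈ P`, `y ∈ Y1`. Let `Φ1 = X1.dualAnnihilator`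
(`Subspace.finrank_add_finrank_dualAnnihilator_eq`). For `y ∈ Y1`, `φ ∈ Φ1` and all `σ ∈ N`:
`σ (φ.smulRight y) = φ (S y) = 0`, so `φ.smulRight y ∈ L`
(`Subspace.forall_mem_dualAnnihilator_apply_eq_zero_iff`), that is `t (φ.smulRight y) ∈ H`, and this is
the transvection `x ↦ x + φ (pX x) • iY y`.
-/

set_option autoImplicit false

namespace Pool.Agent.H81.GL

open Module

section

variable {p : ℕ} [Fact p.Prime] {E X Y : Type} [AddCommGroup E] [Module (ZMod p) E]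
  [AddCommGroup X] [Module (ZMod p) X] [AddCommGroup Y] [Module (ZMod p) Y]

/-- the map `v ↦ v + iY (T (pX v))` -/
private def tE (iY : Y →ₗ[ZMod p] E) (pX : E →ₗ[ZMod p] X) (h0 : ∀ y, pX (iY y) = 0) (T : X →ₗ[ZMod p] Y) :
    E ≃ₗ[ZMod p] E :=
  LinearEquiv.ofLinear (LinearMap.id + iY ∘ₗ T ∘ₗ pX) (LinearMap.id - iY ∘ₗ T ∘ₗ pX)
    (by
      ext v
      show (v - iY (T (pX v))) + iY (T (pX (v - iY (T (pX v))))) = v
      rw [map_sub, h0, sub_zero, sub_add_cancel])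
    (by
      ext v
      show (v + iY (T (pX v))) - iY (T (pX (v + iY (T (pX v))))) = v
      rw [map_add, h0, add_zero, add_sub_cancel_right])

private lemma tE_apply (iY : Y →ₗ[ZMod p] E) (pX : E →ₗ[ZMod p] X) (h0 : ∀ y, pX (iY y) = 0) (T : X →ₗ[ZMod p] Y)
    (v : E) : tE iY pX h0 T v = v + iY (T (pX v)) := rfl

private lemma tE_mul (iY : Y →ₗ[ZMod p] E) (pX : E →ₗ[ZMod p] X) (h0 : ∀ y, pX (iY y) = 0) (T T' : X →ₗ[ZMod p] Y) :
    tE iY pX h0 T * tE iY pX h0 T' = tE iY pX h0 (T + T') := by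
  refine LinearEquiv.ext fun v => ?_
  rw [LinearEquiv.mul_apply, tE_apply, tE_apply, tE_apply, map_add pX, h0, add_zero, LinearMap.add_apply, map_add iY]
  abel

private lemma tE_zero (iY : Y →ₗ[ZMod p] E) (pX : E →ₗ[ZMod p] X) (h0 : ∀ y, pX (iY y) = 0) :
    tE iY pX h0 0 = 1 := by
  refine LinearEquiv.ext fun v => ?_
  rw [tE_apply, LinearMap.zero_apply, map_zero, add_zero]
  rfl

private lemma tE_inv (iY : Y →ₗ[ZMod p] E) (pX : E →ₗ[ZMod p] X) (h0 : ∀ y, pX (iY y) = 0) (T : X →ₗ[ZMod p] Y) :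
    (tE iY pX h0 T)⁻¹ = tE iY pX h0 (-T) := by
  rw [inv_eq_iff_mul_eq_one, tE_mul, add_neg_cancel, tE_zero]

/-- the maps which belong to `H` -/
private def LA (iY : Y →ₗ[ZMod p] E) (pX : E →ₗ[ZMod p] X) (h0 : ∀ y, pX (iY y) = 0)
    (H : Subgroup (E ≃ₗ[ZMod p] E)) : AddSubgroup (X →ₗ[ZMod p] Y) where
  carrier := {T | tE iY pX h0 T ∈ H}
  add_mem' := fun {a b} ha hb => by
    show tE iY pX h0 (a + b) ∈ H
    rw [← tE_mul]
    exact H.mul_mem ha hb
  zero_mem' := by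
    show tE iY pX h0 0 ∈ H
    rw [tE_zero]
    exact H.one_mem
  neg_mem' := fun {a} ha => by
    show tE iY pX h0 (-a) ∈ H
    rw [← tE_inv]
    exact H.inv_mem ha

private lemma mem_LA {iY : Y →ₗ[ZMod p] E} {pX : E →ₗ[ZMod p] X} {h0 : ∀ y, pX (iY y) = 0}
    {H : Subgroup (E ≃ₗ[ZMod p] E)} {T : X →ₗ[ZMod p] Y} : T ∈ LA iY pX h0 H ↔ tE iY pX h0 T ∈ H := Iff.rfl

private lemma fin_hom (A B : Type) [AddCommGroup A] [Module (ZMod p) A] [AddCommGroup B] [Module (ZMod p) B]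
    [Finite A] [Finite B] : Finite (A →ₗ[ZMod p] B) := DFunLike.finite _

private lemma fin_eq (A : Type) [AddCommGroup A] [Module (ZMod p) A] [Finite A] : Finite (A ≃ₗ[ZMod p] A) :=
  DFunLike.finite _

private lemma card_quot [Finite E] [Finite X] [Finite Y] (iY : Y →ₗ[ZMod p] E) (pX : E →ₗ[ZMod p] X)
    (h0 : ∀ y, pX (iY y) = 0) (H : Subgroup (E ≃ₗ[ZMod p] E)) :
    Nat.card ((X →ₗ[ZMod p] Y) ⧸ LA iY pX h0 H) ≤ H.index := by
  haveI := fin_eq (p := p) E
  let Q : (X →ₗ[ZMod p] Y) ⧸ LA iY pX h0 H → (E ≃ₗ[ZMod p] E) ⧸ H :=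
    Quotient.lift (fun T => (QuotientGroup.mk (tE iY pX h0 T) : (E ≃ₗ[ZMod p] E) ⧸ H)) (by
      intro a b hab
      have h1 : -a + b ∈ LA iY pX h0 H := QuotientAddGroup.leftRel_apply.1 hab
      refine QuotientGroup.eq.2 ?_
      rw [tE_inv, tE_mul]
      exact h1)
  have hQ : Function.Injective Q := by
    intro a b hab
    induction a using QuotientAddGroup.induction_on with
    | H a =>
    induction b using QuotientAddGroup.induction_on with
    | H b =>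
    have h1 : (QuotientGroup.mk (tE iY pX h0 a) : (E ≃ₗ[ZMod p] E) ⧸ H) = QuotientGroup.mk (tE iY pX h0 b) := hab
    have h2 := QuotientGroup.eq.1 h1
    rw [tE_inv, tE_mul] at h2
    exact QuotientAddGroup.eq.2 h2
  haveI : Finite ((E ≃ₗ[ZMod p] E) ⧸ H) := Quotient.finite _
  exact Nat.card_le_card_of_injective Q hQ

end

theorem rect_exists {p : ℕ} [Fact p.Prime] {E X Y : Type} [AddCommGroup E] [Module (ZMod p) E]
    [Finite E] [AddCommGroup X] [Module (ZMod p) X] [Finite X] [AddCommGroup Y]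
    [Module (ZMod p) Y] [Finite Y] (iY : Y →ₗ[ZMod p] E) (pX : E →ₗ[ZMod p] X)
    (h0 : ∀ y, pX (iY y) = 0) (ρ : (X ≃ₗ[ZMod p] X) →* (E ≃ₗ[ZMod p] E))
    (hρ1 : ∀ g y, ρ g (iY y) = iY y) (hρ2 : ∀ g v, pX (ρ g v) = g (pX v))
    (H : Subgroup (E ≃ₗ[ZMod p] E)) (k : ℕ)
    (hH : H.index ^ 2 < p ^ ((finrank (ZMod p) X - 1) * (k + 1))) :
    ∃ (Y1 : Submodule (ZMod p) Y) (Φ1 : Submodule (ZMod p) (Dual (ZMod p) X)),
      finrank (ZMod p) Y ≤ finrank (ZMod p) Y1 + 2 * k ∧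
      finrank (ZMod p) X ≤ finrank (ZMod p) Φ1 + 2 * k ∧
      Rect H (Y1.map iY) (Φ1.map pX.dualMap) := by
  classical
  haveI : Finite (X →ₗ[ZMod p] Y) := fin_hom X Y
  haveI : Finite (Y →ₗ[ZMod p] X) := fin_hom Y X
  haveI : Finite (X ≃ₗ[ZMod p] X) := fin_eq X
  haveI : Finite (E ≃ₗ[ZMod p] E) := fin_eq E
  haveI : FiniteDimensional (ZMod p) X := inferInstance
  haveI : FiniteDimensional (ZMod p) Y := inferInstance
  haveI : FiniteDimensional (ZMod p) (X →ₗ[ZMod p] Y) := inferInstance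
  set L : Submodule (ZMod p) (X →ₗ[ZMod p] Y) := AddSubgroup.toZModSubmodule p (LA iY pX h0 H) with hL
  have mem_L : ∀ T, T ∈ L ↔ tE iY pX h0 T ∈ H := fun T => Iff.rfl
  have cardL : Nat.card ((X →ₗ[ZMod p] Y) ⧸ L) ≤ H.index := card_quot iY pX h0 H
  set N := L.dualAnnihilator with hN
  have cardN : Nat.card N ≤ H.index := by
    refine le_trans (le_of_eq ?_) cardL
    have e1 : Nat.card N = Nat.card (Module.Dual (ZMod p) ((X →ₗ[ZMod p] Y) ⧸ L)) :=
      (Nat.card_congr (L.dualQuotEquivDualAnnihilator).toEquiv).symm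
    rw [e1, Module.natCard_eq_pow_finrank (K := ZMod p), Module.natCard_eq_pow_finrank (K := ZMod p)
      (V := (X →ₗ[ZMod p] Y) ⧸ L), Subspace.dual_finrank_eq]
  let P : Submodule (ZMod p) (Y →ₗ[ZMod p] X) :=
    { carrier := {S | ∃ σ ∈ N, ∀ (φ : Dual (ZMod p) X) (y : Y), φ (S y) = σ (φ.smulRight y)}
      add_mem' := by
        rintro a b ⟨σ, hσ, h1⟩ ⟨σ', hσ', h2⟩
        refine ⟨σ + σ', N.add_mem hσ hσ', fun φ y => ?_⟩
        rw [LinearMap.add_apply, LinearMap.add_apply, map_add, h1, h2]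
      zero_mem' := ⟨0, N.zero_mem, fun φ y => by rw [LinearMap.zero_apply, LinearMap.zero_apply, map_zero]⟩
      smul_mem' := by
        rintro c a ⟨σ, hσ, h1⟩
        refine ⟨c • σ, N.smul_mem c hσ, fun φ y => ?_⟩
        rw [LinearMap.smul_apply, LinearMap.smul_apply, map_smul, h1] }
  have mem_P : ∀ S, S ∈ P ↔ ∃ σ ∈ N, ∀ (φ : Dual (ZMod p) X) (y : Y), φ (S y) = σ (φ.smulRight y) :=
    fun S => Iff.rfl
  have cardP : Nat.card P ≤ H.index := by
    refine le_trans ?_ cardN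
    have hch : ∀ S : P, ∃ σ : N, ∀ (φ : Dual (ZMod p) X) (y : Y), φ (S.1 y) = σ.1 (φ.smulRight y) := by
      rintro ⟨S, σ, hσ, h1⟩
      exact ⟨⟨σ, hσ⟩, h1⟩
    choose s hs using hch
    haveI : Finite N := Finite.of_injective (fun σ : N => (σ.1 : (X →ₗ[ZMod p] Y) → ZMod p)) (by
      intro a b hab
      exact Subtype.ext (LinearMap.ext fun x => congrFun hab x))
    refine Nat.card_le_card_of_injective s ?_
    intro S S' hSS
    refine Subtype.ext (LinearMap.ext fun y => ?_)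
    rw [← sub_eq_zero, ← Module.forall_dual_apply_eq_zero_iff (ZMod p)]
    intro φ
    rw [map_sub, hs, hs, hSS, sub_self]
  -- (3)
  have hgP : ∀ g ∈ H.comap ρ, ∀ S ∈ P, g.toLinearMap ∘ₗ S ∈ P := by
    rintro g hg S ⟨σ, hσ, h1⟩
    let c : (X →ₗ[ZMod p] Y) →ₗ[ZMod p] (X →ₗ[ZMod p] Y) := LinearMap.lcomp (ZMod p) Y g.toLinearMap
    refine ⟨σ ∘ₗ c, ?_, fun φ y => ?_⟩
    · rw [hN, Submodule.mem_dualAnnihilator]
      intro T hT
      show σ (T ∘ₗ g.toLinearMap) = 0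
      rw [hN, Submodule.mem_dualAnnihilator] at hσ
      apply hσ
      rw [mem_L] at hT ⊢
      have h2 : tE iY pX h0 (T ∘ₗ g.toLinearMap) = (ρ g)⁻¹ * tE iY pX h0 T * ρ g := by
        rw [mul_assoc, eq_inv_mul_iff_mul_eq]
        refine LinearEquiv.ext fun v => ?_
        rw [LinearEquiv.mul_apply, LinearEquiv.mul_apply, tE_apply, tE_apply, map_add, hρ1, hρ2]
        rfl
      rw [h2]
      exact H.mul_mem (H.mul_mem (H.inv_mem hg) hT) hg
    · have h2 := h1 (φ ∘ₗ g.toLinearMap) y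
      show φ (g (S y)) = σ ((φ.smulRight y) ∘ₗ g.toLinearMap)
      exact h2
  -- (4)
  have hrank : ∀ S ∈ P, finrank (ZMod p) (LinearMap.range S) ≤ k := by
    intro S hS
    let F : (X ≃ₗ[ZMod p] X) → (Y →ₗ[ZMod p] X) := fun g => g.toLinearMap ∘ₗ S
    have hF : ∀ g h h', F h = F h' → F (g * h) = F (g * h') := by
      intro g h h' hh
      have e1 : ∀ x, F (g * x) = g.toLinearMap ∘ₗ F x := fun x => rfl
      rw [e1, e1, hh]
    have h1 := ncard_range_le F hF (H.comap ρ)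
    have h2 := orbit_card S
    have h3 : {t : Y →ₗ[ZMod p] X | ∃ g : X ≃ₗ[ZMod p] X, t = g.toLinearMap ∘ₗ S} = Set.range F := by
      ext t
      constructor
      · rintro ⟨g, rfl⟩
        exact ⟨g, rfl⟩
      · rintro ⟨g, rfl⟩
        exact ⟨g, rfl⟩
    rw [h3] at h2
    have h4 : (F '' ((H.comap ρ : Subgroup (X ≃ₗ[ZMod p] X)) : Set (X ≃ₗ[ZMod p] X))).ncard ≤ H.index := by
      refine le_trans (Set.ncard_le_ncard ?_ (Set.toFinite (P : Set (Y →ₗ[ZMod p] X)))) cardP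
      rintro _ ⟨g, hg, rfl⟩
      exact hgP g hg S hS
    have h5 := index_comap_le ρ H
    have h6 : p ^ ((finrank (ZMod p) X - 1) * finrank (ZMod p) (LinearMap.range S)) ≤ H.index ^ 2 := by
      refine (h2.trans h1).trans ?_
      rw [sq]
      exact Nat.mul_le_mul h5 h4
    have h7 := lt_of_le_of_lt h6 hH
    have hp1 : 1 < p := (Fact.out : p.Prime).one_lt
    have h8 := (Nat.pow_lt_pow_iff_right hp1).1 h7
    have h9 := Nat.lt_of_mul_lt_mul_left h8
    omega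
  -- (5)
  obtain ⟨Y1, X1, hY1, hX1, hS⟩ := flanders k Y X P hrank
  refine ⟨Y1, X1.dualAnnihilator, hY1, ?_, ?_⟩
  · have h1 := Subspace.finrank_add_finrank_dualAnnihilator_eq X1
    omega
  · rintro _ ⟨y, hy, rfl⟩ _ ⟨φ, hφ, rfl⟩ hv
    have h1 : φ.smulRight y ∈ L := by
      rw [← Subspace.forall_mem_dualAnnihilator_apply_eq_zero_iff]
      intro σ hσ
      let B : Y →ₗ[ZMod p] Dual (ZMod p) X →ₗ[ZMod p] (X →ₗ[ZMod p] Y) :=
        (LinearMap.smulRightₗ (R := ZMod p) (M := Y) (M₂ := X)).flip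
      let S : Y →ₗ[ZMod p] X := (Module.evalEquiv (ZMod p) X).symm.toLinearMap ∘ₗ (B.compr₂ σ)
      have hSφ : ∀ (ψ : Dual (ZMod p) X) (z : Y), ψ (S z) = σ (ψ.smulRight z) := by
        intro ψ z
        have h2 : Module.evalEquiv (ZMod p) X (S z) = B.compr₂ σ z :=
          LinearEquiv.apply_symm_apply _ _
        have h3 := congrArg (fun w : Dual (ZMod p) (Dual (ZMod p) X) => w ψ) h2
        exact h3
      have hSP : S ∈ P := ⟨σ, hσ, hSφ⟩
      rw [← hSφ]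
      have h4 := hS S hSP y hy
      exact (Submodule.mem_dualAnnihilator φ).1 hφ _ h4
    rw [mem_L] at h1
    have h2 : LinearEquiv.transvection hv = tE iY pX h0 (φ.smulRight y) := by
      refine LinearEquiv.ext fun x => ?_
      rw [tE_apply, LinearEquiv.transvection.apply, LinearMap.smulRight_apply, map_smul]
      rfl
    rw [h2]
    exact h1

end Pool.Agent.H81.GL
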