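import Pool.Agent.H81.GL.ARect

/-!
# Subgroups of small index of the general linear group have a small support

MODULE ASup.

`support_exists`. Let `m = n / 2` and `X = Y = Fin m → ZMod p`, `Z = Fin (n - 2 * m) → ZMod p`,
`e : E ≃ₗ X × Y × Z` (`LinearEquiv.ofFinrankEq`), with the obvious injections `iX iY` and projections
`pX pY` (`pX iX = id`, `pX iY = 0`, `pY iX = 0`, `pY iY = id`) and
`ρX g = e.trans ((g.prodCongr (refl)).trans e.symm)`, `ρY` similarly (monoid homomorphisms).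
`H.index ^ 2 < p ^ ((m - 1) * (k + 1))`: `H.index ^ 2 < p ^ (2 * (k * n / 4)) ≤ p ^ (k * n / 2)` and
`k * n ≤ 2 * ((m - 1) * (k + 1))` since `2 m ≥ n - 1` and `n ≥ 3 k + 3` (then
`2 (m - 1) (k + 1) ≥ (n - 3) (k + 1) = n k + n - 3 k - 3`).
`rect_exists` for `iY pX ρX` gives `Y1 Φ1`, and for `iX pY ρY` it gives `X1 Ψ1`, all of codimension at
most `2 k`. Put `B1 = iY Y1`, `F1 = Φ1 ∘ pX`, `B2 = iX X1`, `F2 = Ψ1 ∘ pY`.
The condition `h12` of `comb`: `v1 = iY y1`, `v2 = iX x2`, `f1 = φ1 ∘ pX`, `f2 = ψ2 ∘ pY`: one needs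
`φ ∈ Φ1` and `x ∈ X1` with `φ x2 = 0`, `φ1 x = 0`, `φ x = 1` and takes `γ = φ ∘ pX`, `w = iX x`
(`γ v1 = φ (pX (iY y1)) = 0`, `f2 w = ψ2 (pY (iX x)) = 0`). This is `exists_pair` below with
`Φ' = Φ1 ⊓ {φ | φ x2 = 0}` and `X' = X1 ⊓ ker φ1` (codimensions at most `2 k + 1`): if `φ x = 0` for all
`φ ∈ Φ'`, `x ∈ X'` then `Φ' ≤ X'.dualAnnihilator`, so `m - 2 k - 1 ≤ finrank Φ' ≤ m - finrank X' ≤
2 k + 1`, but `m ≥ 8 k + 8 - 1 > 4 k + 2`; scale to get `φ x = 1`. `h21` in the same way.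
So `Rect H (B1 ⊔ B2) (F1 ⊔ F2)`. `finrank (B1 ⊔ B2) ≥ 2 m - 4 k` (`B1`, `B2` are disjoint because
`pX` kills `B1` and is injective on `B2`; the maps `iX`, `iY` are injective), the same for
`F1 ⊔ F2` (`pX.dualMap`, `pY.dualMap` are injective; restrict to `iX X`).
Let `C = (B1 ⊔ B2).dualAnnihilator`, `A = (F1 ⊔ F2).dualCoannihilator`: dimensions
`≤ n - (2 m - 4 k) ≤ 4 k + 1` (`Subspace.finrank_add_finrank_dualAnnihilator_eq`,
`Subspace.finrank_add_finrank_dualCoannihilator_eq`), and `C.dualCoannihilator = B1 ⊔ B2`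
(`Subspace.dualAnnihilator_dualCoannihilator_eq`), `A.dualAnnihilator = F1 ⊔ F2`
(`Subspace.dualCoannihilator_dualAnnihilator_eq`).

`exists_pair`. Otherwise `Φ ≤ X'.dualAnnihilator`; dimensions as above.
-/

set_option autoImplicit false

namespace Pool.Agent.H81.GL

open Module

theorem exists_pair {K X : Type} [Field K] [AddCommGroup X] [Module K X] [FiniteDimensional K X]
    (Φ : Submodule K (Dual K X)) (X' : Submodule K X)
    (h : finrank K X < finrank K Φ + finrank K X') : ∃ φ ∈ Φ, ∃ x ∈ X', φ x = 1 := by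
  by_contra hcon
  push Not at hcon
  have h1 : Φ ≤ X'.dualAnnihilator := by
    intro φ hφ
    rw [Submodule.mem_dualAnnihilator]
    intro x hx
    by_contra h0
    refine hcon φ hφ ((φ x)⁻¹ • x) (X'.smul_mem _ hx) ?_
    rw [map_smul, smul_eq_mul, inv_mul_cancel₀ h0]
  have h2 := Submodule.finrank_mono h1
  have h3 := Subspace.finrank_add_finrank_dualAnnihilator_eq X'
  omega

section aux

variable {K E X : Type} [Field K] [AddCommGroup E] [Module K E] [AddCommGroup X] [Module K X]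

/-- the extension of an automorphism of a direct summand -/
private noncomputable def rho (i : X →ₗ[K] E) (q : E →ₗ[K] X) (h : ∀ x, q (i x) = x) :
    (X ≃ₗ[K] X) →* (E ≃ₗ[K] E) where
  toFun g := LinearEquiv.ofLinearMap (LinearMap.id + i ∘ₗ (g.toLinearMap ∘ₗ q - q))
    (LinearMap.id + i ∘ₗ (g.symm.toLinearMap ∘ₗ q - q))
    (by
      ext v
      simp only [LinearMap.comp_apply, LinearMap.add_apply, LinearMap.sub_apply, LinearMap.id_apply,
        LinearEquiv.coe_coe, map_add, map_sub, h]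
      simp
      abel)
    (by
      ext v
      simp only [LinearMap.comp_apply, LinearMap.add_apply, LinearMap.sub_apply, LinearMap.id_apply,
        LinearEquiv.coe_coe, map_add, map_sub, h]
      simp
      abel)
  map_one' := by
    ext v
    simp
  map_mul' g g' := by
    ext v
    simp [h]
    abel

private theorem rho_apply (i : X →ₗ[K] E) (q : E →ₗ[K] X) (h : ∀ x, q (i x) = x) (g : X ≃ₗ[K] X)
    (v : E) : rho i q h g v = v + i (g (q v) - q v) := rfl

private theorem codim1 [FiniteDimensional K X] (W : Submodule K X) (f : X →ₗ[K] K) :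
    finrank K W ≤ finrank K (W ⊓ LinearMap.ker f : Submodule K X) + 1 := by
  have h1 := Submodule.finrank_sup_add_finrank_inf_eq W (LinearMap.ker f)
  have h2 := LinearMap.finrank_range_add_finrank_ker f
  have h3 : finrank K (LinearMap.range f) ≤ 1 := by
    refine (Submodule.finrank_le _).trans ?_
    rw [finrank_self]
  have h4 := Submodule.finrank_le (W ⊔ LinearMap.ker f)
  omega

private theorem fr_map [FiniteDimensional K X] (f : X →ₗ[K] E) (hf : Function.Injective f)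
    (W : Submodule K X) : finrank K (W.map f) = finrank K W :=
  (Submodule.equivMapOfInjective f hf W).finrank_eq.symm

/-- the condition of `comb` in one direction -/
private theorem pair_aux {i j : X →ₗ[K] E} {q r : E →ₗ[K] X} [FiniteDimensional K X]
    (hq : ∀ x, q (i x) = x) (hqj : ∀ x, q (j x) = 0) (hri : ∀ x, r (i x) = 0)
    (Φ : Submodule K (Dual K X)) (W : Submodule K X)
    (h : finrank K X + 2 < finrank K Φ + finrank K W) (y x : X) (φ ψ : Dual K X) :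
    ∃ γ ∈ Φ.map q.dualMap, ∃ w ∈ W.map i,
      γ (j y) = 0 ∧ γ (i x) = 0 ∧ (φ ∘ₗ q) w = 0 ∧ (ψ ∘ₗ r) w = 0 ∧ γ w = 1 := by
  have h1 := codim1 Φ (Dual.eval K X x)
  have h2 := codim1 W φ
  obtain ⟨γ, ⟨hγ1, hγ2⟩, w, ⟨hw1, hw2⟩, h3⟩ := exists_pair
    (Φ ⊓ LinearMap.ker (Dual.eval K X x)) (W ⊓ LinearMap.ker φ) (by omega)
  refine ⟨q.dualMap γ, ⟨γ, hγ1, rfl⟩, i w, ⟨w, hw1, rfl⟩, ?_, ?_, ?_, ?_, ?_⟩
  · rw [LinearMap.dualMap_apply, hqj, map_zero]
  · rw [LinearMap.dualMap_apply, hq]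
    exact hγ2
  · rw [LinearMap.comp_apply, hq]
    exact hw2
  · rw [LinearMap.comp_apply, hri, map_zero]
  · rw [LinearMap.dualMap_apply, hq]
    exact h3

private theorem sup_aux [FiniteDimensional K X] [FiniteDimensional K E] {i j : X →ₗ[K] E}
    {q r : E →ₗ[K] X} (hq : ∀ x, q (i x) = x) (hr : ∀ x, r (j x) = x)
    (hri : ∀ x, r (i x) = 0) (Y1 X1 : Submodule K X) :
    finrank K (Y1.map j ⊔ X1.map i : Submodule K E) = finrank K Y1 + finrank K X1 := by
  have h1 := Submodule.finrank_sup_add_finrank_inf_eq (Y1.map j) (X1.map i)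
  have h2 : Y1.map j ⊓ X1.map i = ⊥ := by
    rw [eq_bot_iff]
    rintro v ⟨⟨y, hy, rfl⟩, ⟨x, hx, hxy⟩⟩
    have h3 := congrArg r hxy
    rw [hri, hr] at h3
    rw [Submodule.mem_bot, ← h3, map_zero]
  rw [h2, finrank_bot, fr_map j (Function.LeftInverse.injective hr),
    fr_map i (Function.LeftInverse.injective hq)] at h1
  exact h1

end aux

/-- the two boxes -/
private theorem two_box {p : ℕ} [Fact p.Prime] {E X : Type} [AddCommGroup E] [Module (ZMod p) E]
    [Finite E] [AddCommGroup X] [Module (ZMod p) X] [Finite X] {i j : X →ₗ[ZMod p] E}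
    {q r : E →ₗ[ZMod p] X} (hq : ∀ x, q (i x) = x) (hqj : ∀ x, q (j x) = 0)
    (hr : ∀ x, r (j x) = x) (hri : ∀ x, r (i x) = 0) (H : Subgroup (E ≃ₗ[ZMod p] E)) (k : ℕ)
    (hk : 4 * k + 2 < finrank (ZMod p) X)
    (hH : H.index ^ 2 < p ^ ((finrank (ZMod p) X - 1) * (k + 1))) :
    ∃ (B : Submodule (ZMod p) E) (F : Submodule (ZMod p) (Dual (ZMod p) E)),
      2 * finrank (ZMod p) X ≤ finrank (ZMod p) B + 4 * k ∧
      2 * finrank (ZMod p) X ≤ finrank (ZMod p) F + 4 * k ∧ Rect H B F := by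
  obtain ⟨Y1, Φ1, h1, h2, h3⟩ := rect_exists j q hqj (rho i q hq)
    (fun g y => by rw [rho_apply, hqj, map_zero, sub_zero, map_zero, add_zero])
    (fun g v => by rw [rho_apply, map_add, hq]; abel) H k hH
  obtain ⟨X1, Ψ1, h4, h5, h6⟩ := rect_exists i r hri (rho j r hr)
    (fun g y => by rw [rho_apply, hri, map_zero, sub_zero, map_zero, add_zero])
    (fun g v => by rw [rho_apply, map_add, hr]; abel) H k hH
  have hcomb := comb h3 h6
    (by
      rintro _ ⟨y1, _, rfl⟩ _ ⟨x2, _, rfl⟩ _ ⟨φ1, _, rfl⟩ _ ⟨ψ2, _, rfl⟩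
      exact pair_aux hq hqj hri Φ1 X1 (by omega) y1 x2 φ1 ψ2)
    (by
      rintro _ ⟨y1, _, rfl⟩ _ ⟨x2, _, rfl⟩ _ ⟨φ1, _, rfl⟩ _ ⟨ψ2, _, rfl⟩
      obtain ⟨γ, hγ, w, hw, g1, g2, g3, g4, g5⟩ :=
        pair_aux hr hri hqj Ψ1 Y1 (by omega) x2 y1 ψ2 φ1
      exact ⟨γ, hγ, w, hw, g2, g1, g4, g3, g5⟩)
  refine ⟨_, _, ?_, ?_, hcomb⟩
  · rw [sup_aux hq hr hri]
    omega
  · rw [sup_aux (i := r.dualMap) (j := q.dualMap) (q := j.dualMap) (r := i.dualMap)]
    · have h7 : finrank (ZMod p) (Dual (ZMod p) X) = finrank (ZMod p) X :=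
        Subspace.dual_finrank_eq
      omega
    · intro φ
      ext x
      simp [hr]
    · intro φ
      ext x
      simp [hq]
    · intro φ
      ext x
      simp [hri]

theorem support_exists {p : ℕ} [Fact p.Prime] {E : Type} [AddCommGroup E] [Module (ZMod p) E]
    [Finite E] {n k : ℕ} (hn : finrank (ZMod p) E = n) (hk : 16 * k + 16 ≤ n)
    (H : Subgroup (E ≃ₗ[ZMod p] E)) (hH : H.index < p ^ (k * n / 4)) :
    ∃ (A : Submodule (ZMod p) E) (C : Submodule (ZMod p) (Dual (ZMod p) E)),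
      finrank (ZMod p) A ≤ 4 * k + 1 ∧ finrank (ZMod p) C ≤ 4 * k + 1 ∧
      Rect H C.dualCoannihilator A.dualAnnihilator := by
  obtain ⟨m, hm⟩ : ∃ m, m = n / 2 := ⟨_, rfl⟩
  obtain ⟨e⟩ : Nonempty (E ≃ₗ[ZMod p] (Fin m → ZMod p) × (Fin m → ZMod p) ×
      (Fin (n - 2 * m) → ZMod p)) := by
    refine ⟨LinearEquiv.ofFinrankEq _ _ ?_⟩
    rw [finrank_prod, finrank_prod, finrank_fin_fun, finrank_fin_fun, hn]
    omega
  have hX : finrank (ZMod p) (Fin m → ZMod p) = m := finrank_fin_fun _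
  have hp : 1 < p := (Fact.out : p.Prime).one_lt
  have hidx : H.index ^ 2 < p ^ ((finrank (ZMod p) (Fin m → ZMod p) - 1) * (k + 1)) := by
    have h1 : H.index ^ 2 < (p ^ (k * n / 4)) ^ 2 := Nat.pow_lt_pow_left hH two_ne_zero
    refine h1.trans_le ?_
    rw [← pow_mul, hX]
    apply Nat.pow_le_pow_right (by omega)
    have h2 : k * n / 4 * 4 ≤ k * n := Nat.div_mul_le_self _ _
    obtain ⟨m', rfl⟩ : ∃ m', m = m' + 1 := ⟨m - 1, by omega⟩
    rw [Nat.add_sub_cancel]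
    have h3 : n ≤ 2 * m' + 3 := by omega
    have h4 : 3 * k + 3 ≤ n := by omega
    have h5 : k * n ≤ 2 * (m' * (k + 1)) := by nlinarith
    omega
  obtain ⟨B, F, h1, h2, h3⟩ := two_box
    (i := e.symm.toLinearMap ∘ₗ LinearMap.inl (ZMod p) _ _)
    (j := e.symm.toLinearMap ∘ₗ LinearMap.inr (ZMod p) _ _ ∘ₗ LinearMap.inl (ZMod p) _ _)
    (q := LinearMap.fst (ZMod p) _ _ ∘ₗ e.toLinearMap)
    (r := LinearMap.fst (ZMod p) _ _ ∘ₗ LinearMap.snd (ZMod p) _ _ ∘ₗ e.toLinearMap)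
    (fun x => by simp) (fun x => by simp) (fun x => by simp) (fun x => by simp) H k
    (by rw [hX]; omega) hidx
  rw [hX] at h1 h2
  refine ⟨F.dualCoannihilator, B.dualAnnihilator, ?_, ?_, ?_⟩
  · have h4 := Subspace.finrank_add_finrank_dualCoannihilator_eq F
    omega
  · have h4 := Subspace.finrank_add_finrank_dualAnnihilator_eq B
    omega
  · rw [Subspace.dualAnnihilator_dualCoannihilator_eq, Subspace.dualCoannihilator_dualAnnihilator_eq]
    exact h3

end Pool.Agent.H81.GL
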