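import Pool.Agent.H81.GL.Defs

/-!
# Symmetry in terms of `MulAction`
-/

set_option autoImplicit false

namespace Pool.Agent.H81.GL

/-- The refutation is symmetric under the subgroup `Γ` of the general linear group. -/
def Refutation.SymmM {Rel : ℕ → Type} {p : ℕ} {ψ : Fml p Rel 0} {n : ℕ} (R : Refutation ψ n)
    (Γ : Subgroup (G p n)) : Prop :=
  ∃ _ : MulAction Γ R.C.N,
    (∀ (σ : Γ) (a : R.C.N), R.C.gate (σ • a) = (R.C.gate a).map (σ : G p n) (σ • ·)) ∧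
    ∀ (σ : Γ), ∀ Λ ∈ R.lines, Lit.map (σ • ·) '' Λ ∈ R.lines

theorem symmM_of_symm {Rel : ℕ → Type} {p : ℕ} {ψ : Fml p Rel 0} {n : ℕ}
    {R : Refutation ψ n} {Γ : Subgroup (G p n)} (h : R.Symm Γ) : R.SymmM Γ := by
  obtain ⟨act, ⟨h1, h2⟩, h3⟩ := h
  refine ⟨{ smul := fun σ a => act σ a
            one_smul := fun a => h1 a
            mul_smul := fun σ τ a => h2 σ σ.2 τ τ.2 a }, fun σ a => (h3 σ σ.2).1 a,
    fun σ Λ hΛ => (h3 σ σ.2).2 Λ hΛ⟩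

theorem symm_of_symmM {Rel : ℕ → Type} {p : ℕ} {ψ : Fml p Rel 0} {n : ℕ}
    {R : Refutation ψ n} {Γ : Subgroup (G p n)} (h : R.SymmM Γ) : R.Symm Γ := by
  classical
  obtain ⟨inst, h1, h2⟩ := h
  have key : ∀ σ : G p n, ∀ hσ : σ ∈ Γ, (fun a : R.C.N => if h : σ ∈ Γ then
      (⟨σ, h⟩ : Γ) • a else a) = fun a => (⟨σ, hσ⟩ : Γ) • a := by
    intro σ hσ
    funext a
    rw [dif_pos hσ]
  refine ⟨fun σ a => if h : σ ∈ Γ then (⟨σ, h⟩ : Γ) • a else a, ⟨fun a => ?_, ?_⟩, ?_⟩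
  · show (if h : (1 : G p n) ∈ Γ then (⟨1, h⟩ : Γ) • a else a) = a
    rw [dif_pos Γ.one_mem]
    exact one_smul Γ a
  · intro σ hσ τ hτ a
    show (if h : σ * τ ∈ Γ then (⟨σ * τ, h⟩ : Γ) • a else a) =
      if h : σ ∈ Γ then (⟨σ, h⟩ : Γ) • (if h : τ ∈ Γ then (⟨τ, h⟩ : Γ) • a else a)
        else (if h : τ ∈ Γ then (⟨τ, h⟩ : Γ) • a else a)
    rw [dif_pos (Γ.mul_mem hσ hτ), dif_pos hσ, dif_pos hτ, ← mul_smul]
    rfl
  · intro σ hσ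
    constructor
    · intro a
      show R.C.gate (if h : σ ∈ Γ then (⟨σ, h⟩ : Γ) • a else a) =
        (R.C.gate a).map σ (fun a => if h : σ ∈ Γ then (⟨σ, h⟩ : Γ) • a else a)
      rw [key σ hσ, dif_pos hσ]
      exact h1 ⟨σ, hσ⟩ a
    · intro Λ hΛ
      show Lit.map (fun a => if h : σ ∈ Γ then (⟨σ, h⟩ : Γ) • a else a) '' Λ ∈ R.lines
      rw [key σ hσ]
      exact h2 ⟨σ, hσ⟩ Λ hΛ

end Pool.Agent.H81.GL
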