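import Pool.Agent.H81.GL.BKey

/-!
# Extension of partial isometries

MODULE BExt.

`add_vec`. If `b ∈ S.1` take `e' = e` (`S ⊔ vc b = S`). Otherwise choose `y0 : F` with
`e.2 c y0 = c b` for all `c ∈ S.2`: `exists_val` for `W = S.2.map e.2` and the functional
`e.2 c ↦ c b` on `W` (`e.2` is injective on `S.2`, `Good`; use `LinearEquiv.ofInjective`
of `e.2.domRestrict S.2`, or `Submodule.equivMapOfInjective`-like). By `rich_key` for
`U = S.1.map e.1` and `W` there is `x ∈ W.dualCoannihilator`, `x ∉ U`. One of `y0`, `y0 + x` is not in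
`U`; call it `y`: `y ∉ S.1.map e.1` and `e.2 c y = c b` for `c ∈ S.2`. Choose `l : Dual K E` with `l = 0`
on `S.1` and `l b = 1` (`Submodule.exists_dual_map_eq_bot_of_notMem`-like, scale). Put
`e'.1 = e.1 + l.smulRight (y - e.1 b)`, `e'.2 = e.2`. Then `e'.1 = e.1` on `S.1` and `e'.1 b = y`. The
elements of `(S ⊔ vc b).1` are `s + a • b` (`Submodule.mem_sup`, `Submodule.mem_span_singleton`); if
`e'.1 (s + a • b) = e.1 s + a • y = 0` then `a = 0` (otherwise `y ∈ S.1.map e.1`) and `s = 0`.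
`(S ⊔ vc b).2 = S.2 ⊔ ⊥ = S.2`. The pairing: `e.2 c (e.1 s + a • y) = c s + a • c b`.

`add_cov`. If `c ∈ S.2` take `e' = e`. Otherwise choose `ψ0 : Dual K F` with `ψ0 (e.1 v) = c v` for
`v ∈ S.1` (define it on `S.1.map e.1` and extend, `LinearMap.exists_extend`). There is
`χ ∈ (S.1.map e.1).dualAnnihilator`, `χ ∉ S.2.map e.2`: otherwise
`(S.1.map e.1).dualAnnihilator ≤ W`, `W = S.2.map e.2`, so `W.dualCoannihilator ≤
(S.1.map e.1).dualAnnihilator.dualCoannihilator = S.1.map e.1`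
(`Subspace.dualAnnihilator_dualCoannihilator_eq`), against `rich_key`. One of `ψ0`, `ψ0 + χ` is not in
`W`; call it `ψ`. Choose `l : Dual K (Dual K E)` with `l = 0` on `S.2`, `l c = 1`; `e'.1 = e.1`,
`e'.2 = e.2 + l.smulRight (ψ - e.2 c)`. As before.

`extend`. `sp_induct` with `P D = ∃ e', Agr S e' e ∧ Good D e'`, `add_vec`, `add_cov` (`Fd.mono`,
`dm_mono`, `Rm.mono`, `Agr.mono`, `Agr.trans`).

`back`. If `y = e.1 v` with `v ∈ S.1`: `b = v`, `e' = e`, `S ⊔ vc b = S`. Otherwise choose `b0 : E` with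
`c b0 = e.2 c y` for all `c ∈ S.2` (`exists_val` for `W = S.2`) and, by `rich_key` for `U = S.1`, `W = S.2`,
some `b ∉ S.1` with the same property (`b0` or `b0 + x`). `e'.1 = e.1 + l.smulRight (y - e.1 b)`,
`e'.2 = e.2` as in `add_vec`.

`inverse`. `g.1`: the map `S.1 → F`, `v ↦ e.1 v` is injective, so it has a left inverse `F → S.1`
(`LinearMap.exists_leftInverse_of_injective`), compose with the inclusion; the same for `g.2`.
`Good (im e S) g`: the elements of `(im e S).1` are `e.1 v`, `v ∈ S.1`, and `g.1 (e.1 v) = v`; if `v = 0`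
then `e.1 v = 0`; the pairing: `g.2 (e.2 c) (g.1 (e.1 v)) = c v = e.2 c (e.1 v)`.
-/

set_option autoImplicit false

namespace Pool.Agent.H81.GL

open Module

variable {K E F : Type} [Field K] [AddCommGroup E] [Module K E] [AddCommGroup F] [Module K F]

private theorem left_inv {X Y : Type} [AddCommGroup X] [Module K X] [AddCommGroup Y] [Module K Y]
    (e : X →ₗ[K] Y) (U : Submodule K X) (h : ∀ v ∈ U, e v = 0 → v = 0) :
    ∃ g : Y →ₗ[K] X, ∀ v ∈ U, g (e v) = v := by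
  have hker : LinearMap.ker (e.domRestrict U) = ⊥ := by
    rw [LinearMap.ker_eq_bot']
    intro v hv
    exact Subtype.ext (h v v.2 hv)
  obtain ⟨g, hg⟩ := (e.domRestrict U).exists_leftInverse_of_injective hker
  refine ⟨U.subtype ∘ₗ g, fun v hv => ?_⟩
  have h1 := LinearMap.congr_fun hg ⟨v, hv⟩
  exact congrArg Subtype.val h1

private theorem sep {X : Type} [AddCommGroup X] [Module K X] (U : Submodule K X) {b : X}
    (hb : b ∉ U) : ∃ l : X →ₗ[K] K, (∀ u ∈ U, l u = 0) ∧ l b = 1 := by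
  obtain ⟨f, hf, hU⟩ := Submodule.exists_dual_map_eq_bot_of_notMem hb inferInstance
  refine ⟨(f b)⁻¹ • f, fun u hu => ?_, ?_⟩
  · have h1 : f u = 0 := by
      rw [← Submodule.mem_bot K, ← hU]
      exact Submodule.mem_map_of_mem hu
    rw [LinearMap.smul_apply, h1, smul_zero]
  · rw [LinearMap.smul_apply, smul_eq_mul, inv_mul_cancel₀ hf]

private theorem shift {X : Type} [AddCommGroup X] [Module K X] (U : Submodule K X) (y0 : X)
    {x : X} (hx : x ∉ U) : y0 ∉ U ∨ y0 + x ∉ U := by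
  by_cases h : y0 ∈ U
  · exact Or.inr fun h' => hx ((U.add_mem_iff_right h).1 h')
  · exact Or.inl h

private theorem solve {X : Type} [AddCommGroup X] [Module K X] {s y : X} {a : K} (ha : a ≠ 0)
    (h : s + a • y = 0) : -(a⁻¹ • s) = y := by
  rw [← smul_neg, eq_comm, eq_inv_smul_iff₀ ha]
  rw [add_comm] at h
  exact eq_neg_of_add_eq_zero_left h

private theorem good_vec {S : Sp K E} {e : Emb K E F} (he : Good S e) {b : E} (hb : b ∉ S.1)
    {y : F} (hy : y ∉ S.1.map e.1) (hc : ∀ c ∈ S.2, e.2 c y = c b) :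
    ∃ e' : Emb K E F, Agr S e' e ∧ e'.1 b = y ∧ Good (S ⊔ vc b) e' := by
  obtain ⟨l, hl, hlb⟩ := sep S.1 hb
  have h1 : ∀ v ∈ S.1, (e.1 + l.smulRight (y - e.1 b)) v = e.1 v := by
    intro v hv
    rw [LinearMap.add_apply, LinearMap.smulRight_apply, hl v hv, zero_smul, add_zero]
  have h2 : (e.1 + l.smulRight (y - e.1 b)) b = y := by
    rw [LinearMap.add_apply, LinearMap.smulRight_apply, hlb, one_smul, add_sub_cancel]
  have hS2 : ∀ c ∈ (S ⊔ vc b).2, c ∈ S.2 := by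
    intro c hc
    have h3 : (S ⊔ vc b).2 = S.2 := sup_bot_eq S.2
    rwa [h3] at hc
  refine ⟨(e.1 + l.smulRight (y - e.1 b), e.2), ⟨h1, fun _ _ => rfl⟩, h2, ?_, ?_, ?_⟩
  · intro v hv hv0
    obtain ⟨s, hs, t, ht, rfl⟩ := Submodule.mem_sup.1 hv
    obtain ⟨a, rfl⟩ := Submodule.mem_span_singleton.1 ht
    have h3 : e.1 s + a • y = 0 := by
      rw [← hv0]
      show _ = (e.1 + l.smulRight (y - e.1 b)) (s + a • b)
      rw [map_add, map_smul, h1 s hs, h2]
    by_cases ha : a = 0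
    · rw [ha, zero_smul, add_zero] at h3
      rw [ha, zero_smul, add_zero]
      exact he.1 s hs h3
    · exfalso
      apply hy
      refine ⟨-(a⁻¹ • s), S.1.neg_mem (S.1.smul_mem _ hs), ?_⟩
      rw [map_neg, map_smul]
      exact solve ha h3
  · intro c hc' h0
    exact he.2.1 c (hS2 c hc') h0
  · intro c hc' v hv
    obtain ⟨s, hs, t, ht, rfl⟩ := Submodule.mem_sup.1 hv
    obtain ⟨a, rfl⟩ := Submodule.mem_span_singleton.1 ht
    show e.2 c ((e.1 + l.smulRight (y - e.1 b)) (s + a • b)) = c (s + a • b)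
    rw [map_add (e.1 + l.smulRight (y - e.1 b)), map_smul (e.1 + l.smulRight (y - e.1 b)),
      h1 s hs, h2, map_add (e.2 c), map_smul (e.2 c), map_add c, map_smul c,
      he.2.2 c (hS2 c hc') s hs, hc c (hS2 c hc')]

private theorem good_cov {S : Sp K E} {e : Emb K E F} (he : Good S e) {c : Dual K E}
    (hc : c ∉ S.2) {ψ : Dual K F} (hψ : ψ ∉ S.2.map e.2) (hv : ∀ v ∈ S.1, ψ (e.1 v) = c v) :
    ∃ e' : Emb K E F, Agr S e' e ∧ Good (S ⊔ cv c) e' := by
  obtain ⟨l, hl, hlc⟩ := sep S.2 hc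
  have h1 : ∀ d ∈ S.2, (e.2 + l.smulRight (ψ - e.2 c)) d = e.2 d := by
    intro d hd
    rw [LinearMap.add_apply, LinearMap.smulRight_apply, hl d hd, zero_smul, add_zero]
  have h2 : (e.2 + l.smulRight (ψ - e.2 c)) c = ψ := by
    rw [LinearMap.add_apply, LinearMap.smulRight_apply, hlc, one_smul, add_sub_cancel]
  have hS1 : ∀ v ∈ (S ⊔ cv c).1, v ∈ S.1 := by
    intro v hv
    have h3 : (S ⊔ cv c).1 = S.1 := sup_bot_eq S.1
    rwa [h3] at hv
  refine ⟨(e.1, e.2 + l.smulRight (ψ - e.2 c)), ⟨fun _ _ => rfl, h1⟩, ?_, ?_, ?_⟩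
  · intro v hv' h0
    exact he.1 v (hS1 v hv') h0
  · intro d hd hd0
    obtain ⟨s, hs, t, ht, rfl⟩ := Submodule.mem_sup.1 hd
    obtain ⟨a, rfl⟩ := Submodule.mem_span_singleton.1 ht
    have h3 : e.2 s + a • ψ = 0 := by
      rw [← hd0]
      show _ = (e.2 + l.smulRight (ψ - e.2 c)) (s + a • c)
      rw [map_add, map_smul, h1 s hs, h2]
    by_cases ha : a = 0
    · rw [ha, zero_smul, add_zero] at h3
      rw [ha, zero_smul, add_zero]
      exact he.2.1 s hs h3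
    · exfalso
      apply hψ
      refine ⟨-(a⁻¹ • s), S.2.neg_mem (S.2.smul_mem _ hs), ?_⟩
      rw [map_neg, map_smul]
      exact solve ha h3
  · intro d hd v hv'
    obtain ⟨s, hs, t, ht, rfl⟩ := Submodule.mem_sup.1 hd
    obtain ⟨a, rfl⟩ := Submodule.mem_span_singleton.1 ht
    show (e.2 + l.smulRight (ψ - e.2 c)) (s + a • c) (e.1 v) = (s + a • c) v
    rw [map_add (e.2 + l.smulRight (ψ - e.2 c)), map_smul (e.2 + l.smulRight (ψ - e.2 c)),
      h1 s hs, h2, LinearMap.add_apply, LinearMap.smul_apply, LinearMap.add_apply,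
      LinearMap.smul_apply, he.2.2 s hs v (hS1 v hv'), hv v (hS1 v hv')]

private theorem rm_map {S : Sp K E} (hS : Fd S) (e : Emb K E F) (hF : Rm K F (dm S + 1)) :
    Rm K F (finrank K (S.1.map e.1) + finrank K (S.2.map e.2) + 1) :=
  hF.mono (Nat.add_le_add_right (dm_im_le hS e) 1)

theorem add_vec {S : Sp K E} (hS : Fd S) {e : Emb K E F} (he : Good S e)
    (hF : Rm K F (dm S + 1)) (b : E) : ∃ e' : Emb K E F, Agr S e' e ∧ Good (S ⊔ vc b) e' := by
  by_cases hb : b ∈ S.1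
  · refine ⟨e, Agr.refl S e, ?_⟩
    rw [sup_eq_left.2 (vc_le.2 hb)]
    exact he
  have := (hS.im e).1
  have := (hS.im e).2
  have i1 : FiniteDimensional K (S.1.map e.1) := (hS.im e).1
  have i2 : FiniteDimensional K (S.2.map e.2) := (hS.im e).2
  obtain ⟨g, hg⟩ := left_inv e.2 S.2 he.2.1
  obtain ⟨y0, hy0⟩ := exists_val (W := S.2.map e.2)
    ((LinearMap.applyₗ b ∘ₗ g).domRestrict (S.2.map e.2))
  have hy0' : ∀ c ∈ S.2, e.2 c y0 = c b := by
    intro c hc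
    have h1 := hy0 ⟨e.2 c, Submodule.mem_map_of_mem hc⟩
    have h2 : (e.2 c) y0 = g (e.2 c) b := h1
    rw [h2, hg c hc]
  obtain ⟨x, hx, hxU⟩ := rich_key (rm_map hS e hF)
  have hx0 : ∀ c ∈ S.2, e.2 c x = 0 := fun c hc =>
    (Submodule.mem_dualCoannihilator x).1 hx _ (Submodule.mem_map_of_mem hc)
  rcases shift (S.1.map e.1) y0 hxU with h | h
  · obtain ⟨e', h1, -, h2⟩ := good_vec he hb h hy0'
    exact ⟨e', h1, h2⟩
  · obtain ⟨e', h1, -, h2⟩ := good_vec he hb h fun c hc => by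
      rw [map_add, hy0' c hc, hx0 c hc, add_zero]
    exact ⟨e', h1, h2⟩

theorem add_cov {S : Sp K E} (hS : Fd S) {e : Emb K E F} (he : Good S e)
    (hF : Rm K F (dm S + 1)) (c : Dual K E) :
    ∃ e' : Emb K E F, Agr S e' e ∧ Good (S ⊔ cv c) e' := by
  by_cases hc : c ∈ S.2
  · refine ⟨e, Agr.refl S e, ?_⟩
    rw [sup_eq_left.2 (cv_le.2 hc)]
    exact he
  have i1 : FiniteDimensional K (S.1.map e.1) := (hS.im e).1
  have i2 : FiniteDimensional K (S.2.map e.2) := (hS.im e).2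
  obtain ⟨g, hg⟩ := left_inv e.1 S.1 he.1
  obtain ⟨ψ0, hψ⟩ : ∃ ψ0 : Dual K F, ψ0 = c ∘ₗ g := ⟨_, rfl⟩
  have hψ0 : ∀ v ∈ S.1, ψ0 (e.1 v) = c v := by
    intro v hv
    rw [hψ, LinearMap.comp_apply, hg v hv]
  obtain ⟨χ, hχ, hχW⟩ : ∃ χ ∈ (S.1.map e.1).dualAnnihilator, χ ∉ S.2.map e.2 := by
    by_contra hcon
    push Not at hcon
    obtain ⟨x, hx, hxU⟩ := rich_key (rm_map hS e hF)
    apply hxU
    have h1 : (S.2.map e.2).dualCoannihilator ≤
        (S.1.map e.1).dualAnnihilator.dualCoannihilator :=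
      Submodule.dualCoannihilator_anti hcon
    rw [Subspace.dualAnnihilator_dualCoannihilator_eq] at h1
    exact h1 hx
  have hχ0 : ∀ v ∈ S.1, χ (e.1 v) = 0 := fun v hv =>
    (Submodule.mem_dualAnnihilator χ).1 hχ _ (Submodule.mem_map_of_mem hv)
  rcases shift (S.2.map e.2) ψ0 hχW with h | h
  · exact good_cov he hc h hψ0
  · exact good_cov he hc h fun v hv => by
      rw [LinearMap.add_apply, hψ0 v hv, hχ0 v hv, add_zero]

theorem extend {S S' : Sp K E} (hS : S ≤ S') (hS' : Fd S') {e : Emb K E F} (he : Good S e)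
    (hF : Rm K F (dm S' + 1)) : ∃ e' : Emb K E F, Agr S e' e ∧ Good S' e' := by
  refine sp_induct hS hS' (P := fun D => ∃ e' : Emb K E F, Agr S e' e ∧ Good D e')
    ⟨e, Agr.refl S e, he⟩ ?_ ?_
  · rintro D' h1 h2 ⟨e', h3, h4⟩ b - -
    obtain ⟨e'', h5, h6⟩ := add_vec (hS'.mono h2) h4
      (hF.mono (Nat.add_le_add_right (dm_mono hS' h2) 1)) b
    exact ⟨e'', (h5.mono h1).trans h3, h6⟩
  · rintro D' h1 h2 ⟨e', h3, h4⟩ c - -
    obtain ⟨e'', h5, h6⟩ := add_cov (hS'.mono h2) h4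
      (hF.mono (Nat.add_le_add_right (dm_mono hS' h2) 1)) c
    exact ⟨e'', (h5.mono h1).trans h3, h6⟩

theorem back {S : Sp K E} (hS : Fd S) {e : Emb K E F} (he : Good S e)
    (hE : Rm K E (dm S + 1)) (y : F) :
    ∃ (b : E) (e' : Emb K E F), Agr S e' e ∧ e'.1 b = y ∧ Good (S ⊔ vc b) e' := by
  by_cases hy : y ∈ S.1.map e.1
  · obtain ⟨v, hv, rfl⟩ := hy
    refine ⟨v, e, Agr.refl S e, rfl, ?_⟩
    rw [sup_eq_left.2 (vc_le.2 hv)]
    exact he
  have i1 : FiniteDimensional K S.1 := hS.1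
  have i2 : FiniteDimensional K S.2 := hS.2
  obtain ⟨b0, hb0⟩ := exists_val (W := S.2) ((LinearMap.applyₗ y ∘ₗ e.2).domRestrict S.2)
  have hb0' : ∀ c ∈ S.2, e.2 c y = c b0 := fun c hc => (hb0 ⟨c, hc⟩).symm
  obtain ⟨x, hx, hxU⟩ := rich_key (U := S.1) (W := S.2) hE
  have hx0 : ∀ c ∈ S.2, c x = 0 := fun c hc => (Submodule.mem_dualCoannihilator x).1 hx c hc
  rcases shift S.1 b0 hxU with h | h
  · obtain ⟨e', h1, h2, h3⟩ := good_vec he h hy hb0'
    exact ⟨b0, e', h1, h2, h3⟩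
  · obtain ⟨e', h1, h2, h3⟩ := good_vec he h hy fun c hc => by
      rw [map_add, hx0 c hc, add_zero, hb0' c hc]
    exact ⟨b0 + x, e', h1, h2, h3⟩

theorem inverse {S : Sp K E} {e : Emb K E F} (he : Good S e) :
    ∃ g : Emb K F E, (∀ v ∈ S.1, g.1 (e.1 v) = v) ∧ (∀ c ∈ S.2, g.2 (e.2 c) = c) ∧
      Good (im e S) g := by
  obtain ⟨g1, hg1⟩ := left_inv e.1 S.1 he.1
  obtain ⟨g2, hg2⟩ := left_inv e.2 S.2 he.2.1
  refine ⟨(g1, g2), hg1, hg2, ?_, ?_, ?_⟩
  · rintro _ ⟨v, hv, rfl⟩ h0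
    have h1 : g1 (e.1 v) = 0 := h0
    rw [hg1 v hv] at h1
    rw [h1, map_zero]
  · rintro _ ⟨c, hc, rfl⟩ h0
    have h1 : g2 (e.2 c) = 0 := h0
    rw [hg2 c hc] at h1
    rw [h1, map_zero]
  · rintro _ ⟨c, hc, rfl⟩ _ ⟨v, hv, rfl⟩
    show g2 (e.2 c) (g1 (e.1 v)) = e.2 c (e.1 v)
    rw [hg1 v hv, hg2 c hc, he.2.2 c hc v hv]

end Pool.Agent.H81.GL
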