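import Pool.Agent.H81.GL.Sp

/-!
# Finite-dimensional spaces of functionals; induction over pairs

MODULE BKey.

`exists_val`. `Subspace.quotDualCoannihilatorToDual_bijective` (Mathlib) and
`Submodule.quotDualCoannihilatorToDual_apply`.

`rich_key`. Suppose `W.dualCoannihilator ≤ U`. Then `W.dualCoannihilator` is finite-dimensional and
`E ⧸ W.dualCoannihilator` is finite-dimensional too (it is isomorphic to `Dual W`:
`Subspace.quotDualCoannihilatorToDual_bijective`; see also
`Submodule.finiteDimensional_quot_dualCoannihilator_iff`), so `E` is finite-dimensional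
(`Module.Finite.of_submodule_quotient` or `Submodule.finite...`), hence the second case of `Rm` holds,
and `Subspace.finrank_add_finrank_dualCoannihilator_eq` gives `finrank E = finrank W + finrank
W.dualCoannihilator ≤ finrank W + finrank U`, a contradiction.

`sp_induct`. Induction on `dm D - dm D'` for pairs `A ≤ D' ≤ D`, with `P D'` known: if `D'.1 ≠ D.1` there
is `b ∈ D.1`, `b ∉ D'.1` (`SetLike.exists_of_lt`), and `dm D' < dm (D' ⊔ vc b)`, `D' ⊔ vc b ≤ D`
(`Submodule.span_singleton_le_iff_mem`, `Submodule.finrank_lt_finrank_of_lt`, `Fd.mono`, `dm_mono`);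
the same for the second components; if both are equal, `D' = D`.
-/

set_option autoImplicit false

namespace Pool.Agent.H81.GL

open Module

variable {K E : Type} [Field K] [AddCommGroup E] [Module K E]

theorem exists_val {W : Submodule K (Dual K E)} [FiniteDimensional K W] (g : W →ₗ[K] K) :
    ∃ y : E, ∀ c : W, (c : Dual K E) y = g c := by
  obtain ⟨q, hq⟩ := (Subspace.quotDualCoannihilatorToDual_bijective W).2 g
  obtain ⟨y, rfl⟩ := Submodule.Quotient.mk_surjective _ q
  refine ⟨y, fun c => ?_⟩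
  rw [← hq]
  rfl

theorem rich_key {U : Submodule K E} {W : Submodule K (Dual K E)} [FiniteDimensional K U]
    [FiniteDimensional K W] (h : Rm K E (finrank K U + finrank K W + 1)) :
    ∃ x ∈ W.dualCoannihilator, x ∉ U := by
  by_contra hcon
  have hle : W.dualCoannihilator ≤ U := by
    intro x hx
    by_contra hxU
    exact hcon ⟨x, hx, hxU⟩
  have h1 : FiniteDimensional K W.dualCoannihilator := Submodule.finiteDimensional_of_le hle
  have h2 : FiniteDimensional K (E ⧸ W.dualCoannihilator) :=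
    Subspace.finiteDimensional_quot_dualCoannihilator_iff.2 inferInstance
  have h3 : Module.Finite K E := Module.Finite.of_submodule_quotient W.dualCoannihilator
  have h4 := Subspace.finrank_add_finrank_dualCoannihilator_eq W
  have h5 : finrank K W.dualCoannihilator ≤ finrank K U := Submodule.finrank_mono hle
  rcases h with h | h
  · exact h h3
  · omega

theorem vc_le {S : Sp K E} {b : E} : vc b ≤ S ↔ b ∈ S.1 := by
  constructor
  · intro h
    exact h.1 (Submodule.mem_span_singleton_self b)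
  · intro h
    exact ⟨(Submodule.span_singleton_le_iff_mem b S.1).2 h, bot_le⟩

theorem cv_le {S : Sp K E} {c : Dual K E} : cv c ≤ S ↔ c ∈ S.2 := by
  constructor
  · intro h
    exact h.2 (Submodule.mem_span_singleton_self c)
  · intro h
    exact ⟨bot_le, (Submodule.span_singleton_le_iff_mem c S.2).2 h⟩

private theorem bk_vc {D' D : Sp K E} (hD : Fd D) (hle : D' ≤ D) {b : E} (hb : b ∈ D.1)
    (hb' : b ∉ D'.1) : D' ⊔ vc b ≤ D ∧ dm D' < dm (D' ⊔ vc b) := by
  have h1 : D' ⊔ vc b ≤ D := sup_le hle (vc_le.2 hb)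
  refine ⟨h1, ?_⟩
  have h2 := hD.mono h1
  have h3 := h2.1
  have h4 := h2.2
  have h5 : finrank K D'.1 < finrank K (D' ⊔ vc b).1 := by
    apply Submodule.finrank_lt_finrank_of_lt
    refine lt_of_le_of_ne (le_sup_left : D' ≤ D' ⊔ vc b).1 ?_
    intro h
    apply hb'
    rw [h]
    exact le_sup_vc_fst D' b
  have h6 : finrank K D'.2 ≤ finrank K (D' ⊔ vc b).2 :=
    Submodule.finrank_mono (le_sup_left : D' ≤ D' ⊔ vc b).2
  unfold dm
  omega

private theorem bk_cv {D' D : Sp K E} (hD : Fd D) (hle : D' ≤ D) {c : Dual K E} (hc : c ∈ D.2)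
    (hc' : c ∉ D'.2) : D' ⊔ cv c ≤ D ∧ dm D' < dm (D' ⊔ cv c) := by
  have h1 : D' ⊔ cv c ≤ D := sup_le hle (cv_le.2 hc)
  refine ⟨h1, ?_⟩
  have h2 := hD.mono h1
  have h3 := h2.1
  have h4 := h2.2
  have h5 : finrank K D'.2 < finrank K (D' ⊔ cv c).2 := by
    apply Submodule.finrank_lt_finrank_of_lt
    refine lt_of_le_of_ne (le_sup_left : D' ≤ D' ⊔ cv c).2 ?_
    intro h
    apply hc'
    rw [h]
    exact le_sup_cv_snd D' c
  have h6 : finrank K D'.1 ≤ finrank K (D' ⊔ cv c).1 :=
    Submodule.finrank_mono (le_sup_left : D' ≤ D' ⊔ cv c).1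
  unfold dm
  omega

theorem sp_induct {A D : Sp K E} (hAD : A ≤ D) (hD : Fd D) {P : Sp K E → Prop} (h0 : P A)
    (h1 : ∀ D', A ≤ D' → D' ≤ D → P D' → ∀ b ∈ D.1, b ∉ D'.1 → P (D' ⊔ vc b))
    (h2 : ∀ D', A ≤ D' → D' ≤ D → P D' → ∀ c ∈ D.2, c ∉ D'.2 → P (D' ⊔ cv c)) : P D := by
  have key : ∀ (n : ℕ) (D' : Sp K E), A ≤ D' → D' ≤ D → P D' → dm D - dm D' ≤ n → P D := by
    intro n
    induction n with
    | zero =>
      intro D' hA hle hP hn
      by_cases hv : ∀ b ∈ D.1, b ∈ D'.1
      · by_cases hc : ∀ c ∈ D.2, c ∈ D'.2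
        · have h3 : D' = D := le_antisymm hle ⟨hv, hc⟩
          rw [← h3]
          exact hP
        · push Not at hc
          obtain ⟨c, hc1, hc2⟩ := hc
          obtain ⟨h3, h4⟩ := bk_cv hD hle hc1 hc2
          have h5 := dm_mono hD h3
          omega
      · push Not at hv
        obtain ⟨b, hb1, hb2⟩ := hv
        obtain ⟨h3, h4⟩ := bk_vc hD hle hb1 hb2
        have h5 := dm_mono hD h3
        omega
    | succ n ih =>
      intro D' hA hle hP hn
      by_cases hv : ∀ b ∈ D.1, b ∈ D'.1
      · by_cases hc : ∀ c ∈ D.2, c ∈ D'.2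
        · have h3 : D' = D := le_antisymm hle ⟨hv, hc⟩
          rw [← h3]
          exact hP
        · push Not at hc
          obtain ⟨c, hc1, hc2⟩ := hc
          obtain ⟨h3, h4⟩ := bk_cv hD hle hc1 hc2
          exact ih (D' ⊔ cv c) (hA.trans le_sup_left) h3 (h2 D' hA hle hP c hc1 hc2) (by omega)
      · push Not at hv
        obtain ⟨b, hb1, hb2⟩ := hv
        obtain ⟨h3, h4⟩ := bk_vc hD hle hb1 hb2
        exact ih (D' ⊔ vc b) (hA.trans le_sup_left) h3 (h1 D' hA hle hP b hb1 hb2) (by omega)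
  exact key _ A le_rfl hAD h0 le_rfl

end Pool.Agent.H81.GL
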