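import Pool.Agent.H81.GL.BKey

/-!
# A partial isometry is induced by a product of transvections (Witt)

MODULE BWitt. Here `E` is finite-dimensional.

`tr_vec`. If `b'' ∉ A.1 ⊔ span {b}` and `c b = c b''` for all `c ∈ A.2` then some `σ ∈ T A` has
`σ b = b''`, provided `b ∉ A.1`. Proof: let `w = b'' - b`. There is `f ∈ A.1.dualAnnihilator` with
`f b = 1`, `f b'' = 1`: the vectors `b`, `b''` are linearly independent modulo `A.1`
(if `α b + β b'' ∈ A.1` then `β = 0` by `b'' ∉ A.1 ⊔ span {b}` and `α = 0` by `b ∉ A.1`). For example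
choose `f1` with `f1 = 0` on `A.1`, `f1 b = 1` and `f2` with `f2 = 0` on `A.1 ⊔ span {b}`, `f2 b'' = 1`
(`Submodule.exists_dual_map_eq_bot_of_notMem`), `f = f1 + (1 - f1 b'') • f2`. Then `f w = 0`,
`w ∈ A.2.dualCoannihilator`, and `σ = transvection` maps `b` to `b + f b • w = b''`.

`witt_vec`. Let `U = A.1 ⊔ span {b} ⊔ span {b'}`, of dimension at most `finrank A.1 + 2`. By `rich_key`
(for `U` and `W = A.2`; `finrank U + finrank A.2 + 1 ≤ dm A + 3 ≤ finrank E`) there is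
`x ∈ A.2.dualCoannihilator`, `x ∉ U`. Put `b'' = b + x`: `b'' ∉ U` (`b ∈ U`), `c b'' = c b = c b'` for
`c ∈ A.2`. By `tr_vec` there is `σ1 ∈ T A` with `σ1 b = b''` and `σ2 ∈ T A` with `σ2 b' = b''`. Take
`σ2⁻¹ * σ1`.

`tr_cov`, `witt_cov`. The same for covectors: `dl (transvection h) c = c - c v • f` for
`h : f v = 0`. `tr_cov`: let `c''  ∉ A.2 ⊔ span {c}`, `c ∉ A.2`, `c v = c'' v` for all `v ∈ A.1`. Let
`f = c'' - c ∈ A.1.dualAnnihilator`. There is `w ∈ A.2.dualCoannihilator` with `c w = -1`,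
`c'' w = -1` (`exists_val` for `W = A.2 ⊔ span {c} ⊔ span {c''}` and a functional on `W` which
vanishes on `A.2` and has the value `-1` at `c` and `c''`; or first functionals on the space `Dual K E`
as in `tr_vec`, which are evaluations because `E` is finite-dimensional: `Module.evalEquiv`). Then
`f w = 0` and `dl (transvection) c = c - c w • f = c''`. `witt_cov`: one needs
`χ ∈ A.1.dualAnnihilator`, `χ ∉ A.2 ⊔ span {c} ⊔ span {c'}`: the dimension of `A.1.dualAnnihilator` is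
`finrank E - finrank A.1` (`Subspace.finrank_add_finrank_dualAnnihilator_eq`), that of the other space
is at most `finrank A.2 + 2`. `c'' = c + χ`.

`witt`. `sp_induct` with `P D' = ∃ σ ∈ T A, Agr D' (act σ) τ`. Start: `σ = 1`. Vector step: `D' ≤ D`,
`σ ∈ T A` with `act σ = τ` on `D'`, `b ∈ D.1`, `b ∉ D'.1`. Let `b' = σ⁻¹ (τ.1 b)`. `b' ∉ D'.1`: otherwise
`τ.1 b = σ b' = τ.1 b'` and `b = b'` (`Good.inj`). For `c ∈ D'.2`: `c b' = dl σ c (τ.1 b) =
τ.2 c (τ.1 b) = c b` (`dl_apply_apply`, `ai`). By `witt_vec` for `D'` (`dm D' ≤ dm D`, `dm_mono`) there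
is `ρ ∈ T D'` with `ρ b = b'`; `ρ ∈ T A` by `T_anti`. Take `σ * ρ`: on `D'` it is `σ` (`T_fix`), and
`σ (ρ b) = τ.1 b`; `Agr.sup`, and agreement on `vc b` (the elements of `(vc b).1` are the `a • b`,
`Submodule.mem_span_singleton`). Covector step: `c ∈ D.2`, `c ∉ D'.2`, `c' = dl σ⁻¹ (τ.2 c)`; the same
with `witt_cov` (`dl_mul`, `dl_dl_inv`, `Good.inj'`; for `v ∈ D'.1`: `c' v = τ.2 c (σ v) = τ.2 c (τ.1 v)
= c v`).
-/

set_option autoImplicit false

namespace Pool.Agent.H81.GL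

open Module

variable {K E : Type} [Field K] [AddCommGroup E] [Module K E] [FiniteDimensional K E]

private theorem sep {M : Type} [AddCommGroup M] [Module K M] {p : Submodule K M} {x : M}
    (hx : x ∉ p) : ∃ f : Dual K M, (∀ v ∈ p, f v = 0) ∧ f x = 1 := by
  obtain ⟨f, hf, hp⟩ := Submodule.exists_dual_map_eq_bot_of_notMem hx inferInstance
  refine ⟨(f x)⁻¹ • f, fun v hv => ?_, ?_⟩
  · have : f v ∈ p.map f := ⟨v, hv, rfl⟩
    rw [hp, Submodule.mem_bot] at this
    rw [LinearMap.smul_apply, this, smul_zero]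
  · rw [LinearMap.smul_apply, smul_eq_mul, inv_mul_cancel₀ hf]

private theorem sep2 {M : Type} [AddCommGroup M] [Module K M] {p : Submodule K M} {b b' : M}
    (hb : b ∉ p) (hb' : b' ∉ p ⊔ Submodule.span K {b}) :
    ∃ f : Dual K M, (∀ v ∈ p, f v = 0) ∧ f b = 1 ∧ f b' = 1 := by
  obtain ⟨f, hf, hfb⟩ := sep hb
  obtain ⟨g, hg, hgb⟩ := sep hb'
  refine ⟨f + (1 - f b') • g, fun v hv => ?_, ?_, ?_⟩
  · rw [LinearMap.add_apply, LinearMap.smul_apply, hf v hv, hg v (Submodule.mem_sup_left hv),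
      smul_zero, add_zero]
  · rw [LinearMap.add_apply, LinearMap.smul_apply, hfb,
      hg b (Submodule.mem_sup_right (Submodule.mem_span_singleton_self b)), smul_zero, add_zero]
  · rw [LinearMap.add_apply, LinearMap.smul_apply, hgb, smul_eq_mul]
    ring

private theorem dl_eq {σ : E ≃ₗ[K] E} {c c' : Dual K E} (h : ∀ x, c' (σ x) = c x) :
    dl σ c = c' := by
  ext y
  rw [dl_apply, ← h, ai]

theorem tr_vec {A : Sp K E} {b b'' : E} (hb : b ∉ A.1) (hb'' : b'' ∉ A.1 ⊔ Submodule.span K {b})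
    (h : ∀ c ∈ A.2, c b = c b'') : ∃ σ ∈ T A, σ b = b'' := by
  obtain ⟨f, hf, hfb, hfb''⟩ := sep2 hb hb''
  have h0 : f (b'' - b) = 0 := by rw [map_sub, hfb, hfb'', sub_self]
  refine ⟨LinearEquiv.transvection h0, mem_T ?_ ?_ h0, ?_⟩
  · rw [Submodule.mem_dualCoannihilator]
    intro c hc
    rw [map_sub, h c hc, sub_self]
  · rw [Submodule.mem_dualAnnihilator]
    exact hf
  · rw [LinearEquiv.transvection.apply, hfb, one_smul, add_sub_cancel]

theorem tr_cov {A : Sp K E} {c c'' : Dual K E} (hc : c ∉ A.2)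
    (hc'' : c'' ∉ A.2 ⊔ Submodule.span K {c}) (h : ∀ v ∈ A.1, c v = c'' v) :
    ∃ σ ∈ T A, dl σ c = c'' := by
  obtain ⟨f, hf, hfc, hfc''⟩ := sep2 hc hc''
  obtain ⟨w, rfl⟩ := (Module.evalEquiv K E).surjective f
  have hw : ∀ φ : Dual K E, (Module.evalEquiv K E w) φ = φ w := fun φ => rfl
  simp only [hw] at hf hfc hfc''
  have h0 : (c'' - c) (-w) = 0 := by
    rw [map_neg, LinearMap.sub_apply, hfc, hfc'', sub_self, neg_zero]
  refine ⟨LinearEquiv.transvection h0, mem_T ?_ ?_ h0, dl_eq fun x => ?_⟩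
  · rw [Submodule.mem_dualCoannihilator]
    intro φ hφ
    rw [map_neg, hf φ hφ, neg_zero]
  · rw [Submodule.mem_dualAnnihilator]
    intro v hv
    rw [LinearMap.sub_apply, h v hv, sub_self]
  · rw [LinearEquiv.transvection.apply, map_add, map_smul, map_neg, hfc'', LinearMap.sub_apply,
      smul_eq_mul]
    ring

private theorem finrank_sup2 {M : Type} [AddCommGroup M] [Module K M] [FiniteDimensional K M]
    (p : Submodule K M) (b b' : M) :
    finrank K (p ⊔ Submodule.span K {b} ⊔ Submodule.span K {b'} : Submodule K M) ≤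
      finrank K p + 2 := by
  have h1 := Submodule.finrank_add_le_finrank_add_finrank (p ⊔ Submodule.span K {b})
    (Submodule.span K {b'})
  have h2 := Submodule.finrank_add_le_finrank_add_finrank p (Submodule.span K {b})
  have h3 : ∀ x : M, finrank K (Submodule.span K {x}) ≤ 1 := fun x => by
    have := finrank_span_le_card (R := K) ({x} : Set M)
    simpa using this
  have h4 := h3 b
  have h5 := h3 b'
  omega

private theorem notMem_aux {M : Type} [AddCommGroup M] [Module K M] {p : Submodule K M}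
    {b b' x : M} (hx : x ∉ p ⊔ Submodule.span K {b} ⊔ Submodule.span K {b'}) :
    b + x ∉ p ⊔ Submodule.span K {b} ∧ b + x ∉ p ⊔ Submodule.span K {b'} := by
  have hb : b ∈ p ⊔ Submodule.span K {b} ⊔ Submodule.span K {b'} :=
    Submodule.mem_sup_left (Submodule.mem_sup_right (Submodule.mem_span_singleton_self b))
  have h1 : p ⊔ Submodule.span K {b} ≤ p ⊔ Submodule.span K {b} ⊔ Submodule.span K {b'} :=
    le_sup_left
  have h2 : p ⊔ Submodule.span K {b'} ≤ p ⊔ Submodule.span K {b} ⊔ Submodule.span K {b'} :=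
    sup_le_sup_right le_sup_left _
  constructor
  · intro h
    exact hx ((Submodule.add_mem_iff_right _ hb).1 (h1 h))
  · intro h
    exact hx ((Submodule.add_mem_iff_right _ hb).1 (h2 h))

theorem witt_vec {A : Sp K E} (hd : dm A + 3 ≤ finrank K E) {b b' : E} (hb : b ∉ A.1)
    (hb' : b' ∉ A.1) (h : ∀ c ∈ A.2, c b = c b') : ∃ σ ∈ T A, σ b = b' := by
  have h1 := finrank_sup2 A.1 b b'
  obtain ⟨x, hx, hxU⟩ := rich_key (K := K) (E := E)
    (U := A.1 ⊔ Submodule.span K {b} ⊔ Submodule.span K {b'}) (W := A.2) (Or.inr (by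
      unfold dm at hd
      omega))
  rw [Submodule.mem_dualCoannihilator] at hx
  obtain ⟨h2, h3⟩ := notMem_aux hxU
  obtain ⟨σ, hσ, hσb⟩ := tr_vec hb h2 (fun c hc => by rw [map_add, hx c hc, add_zero])
  obtain ⟨ρ, hρ, hρb⟩ := tr_vec hb' h3 (fun c hc => by rw [map_add, hx c hc, add_zero, h c hc])
  refine ⟨ρ⁻¹ * σ, (T A).mul_mem ((T A).inv_mem hρ) hσ, ?_⟩
  rw [LinearEquiv.mul_apply, hσb, ← hρb, ia]

theorem witt_cov {A : Sp K E} (hd : dm A + 3 ≤ finrank K E) {c c' : Dual K E} (hc : c ∉ A.2)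
    (hc' : c' ∉ A.2) (h : ∀ v ∈ A.1, c v = c' v) : ∃ σ ∈ T A, dl σ c = c' := by
  have h1 := finrank_sup2 A.2 c c'
  have h5 := Subspace.finrank_add_finrank_dualAnnihilator_eq A.1
  obtain ⟨x, hx, hxU⟩ : ∃ x ∈ A.1.dualAnnihilator,
      x ∉ A.2 ⊔ Submodule.span K {c} ⊔ Submodule.span K {c'} := by
    by_contra hcon
    push Not at hcon
    have h6 := Submodule.finrank_mono (R := K) (s := A.1.dualAnnihilator)
      (t := A.2 ⊔ Submodule.span K {c} ⊔ Submodule.span K {c'}) hcon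
    unfold dm at hd
    omega
  rw [Submodule.mem_dualAnnihilator] at hx
  obtain ⟨h2, h3⟩ := notMem_aux hxU
  obtain ⟨σ, hσ, hσb⟩ := tr_cov hc h2 (fun v hv => by rw [LinearMap.add_apply, hx v hv, add_zero])
  obtain ⟨ρ, hρ, hρb⟩ := tr_cov hc' h3
    (fun v hv => by rw [LinearMap.add_apply, hx v hv, add_zero, h v hv])
  refine ⟨ρ⁻¹ * σ, (T A).mul_mem ((T A).inv_mem hρ) hσ, ?_⟩
  rw [dl_mul, hσb, ← hρb, dl_inv_dl]

theorem witt {A D : Sp K E} (hAD : A ≤ D) {τ : Emb K E E} (hτ : Good D τ)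
    (hA : Agr A τ (act 1)) (hD : dm D + 3 ≤ finrank K E) : ∃ σ ∈ T A, Agr D (act σ) τ := by
  refine sp_induct (P := fun D' => ∃ σ ∈ T A, Agr D' (act σ) τ) hAD (fd_of_fd D)
    ⟨1, (T A).one_mem, hA.symm⟩ ?_ ?_
  · rintro D' hAD' hD'D ⟨σ, hσ, hag⟩ b hb hb'
    have hdm := dm_mono (fd_of_fd D) hD'D
    have h1 : σ⁻¹ (τ.1 b) ∉ D'.1 := by
      intro hmem
      apply hb'
      have h2 := hag.1 _ hmem
      rw [act_fst, ai] at h2
      rw [hτ.inj hb (hD'D.1 hmem) h2]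
      exact hmem
    have h2 : ∀ c ∈ D'.2, c b = c (σ⁻¹ (τ.1 b)) := by
      intro c hc
      have h3 := hag.2 c hc
      rw [act_snd] at h3
      rw [← dl_apply, h3, hτ.2.2 c (hD'D.2 hc) b hb]
    obtain ⟨ρ, hρ, hρb⟩ := witt_vec (by omega) hb' h1 h2
    have hρA := T_anti hAD' hρ
    refine ⟨σ * ρ, (T A).mul_mem hσ hρA, Agr.sup ⟨fun v hv => ?_, fun c hc => ?_⟩
      ⟨fun v hv => ?_, fun c hc => ?_⟩⟩
    · rw [act_fst, LinearEquiv.mul_apply, (T_fix hρ).1 v hv]
      exact hag.1 v hv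
    · rw [act_snd, dl_mul, (T_fix hρ).2 c hc]
      exact hag.2 c hc
    · obtain ⟨a, rfl⟩ := Submodule.mem_span_singleton.1 hv
      rw [map_smul, map_smul, act_fst, LinearEquiv.mul_apply, hρb, ai]
    · rw [(Submodule.mem_bot K).1 hc, map_zero, map_zero]
  · rintro D' hAD' hD'D ⟨σ, hσ, hag⟩ c hc hc'
    have hdm := dm_mono (fd_of_fd D) hD'D
    have h1 : dl σ⁻¹ (τ.2 c) ∉ D'.2 := by
      intro hmem
      apply hc'
      have h2 := hag.2 _ hmem
      rw [act_snd, dl_dl_inv] at h2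
      rw [hτ.inj' hc (hD'D.2 hmem) h2]
      exact hmem
    have h2 : ∀ v ∈ D'.1, c v = dl σ⁻¹ (τ.2 c) v := by
      intro v hv
      have h3 := hag.1 v hv
      rw [act_fst] at h3
      rw [dl_apply, inv_inv, h3, hτ.2.2 c hc v (hD'D.1 hv)]
    obtain ⟨ρ, hρ, hρb⟩ := witt_cov (by omega) hc' h1 h2
    have hρA := T_anti hAD' hρ
    refine ⟨σ * ρ, (T A).mul_mem hσ hρA, Agr.sup ⟨fun v hv => ?_, fun c hc => ?_⟩
      ⟨fun v hv => ?_, fun c hc => ?_⟩⟩
    · rw [act_fst, LinearEquiv.mul_apply, (T_fix hρ).1 v hv]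
      exact hag.1 v hv
    · rw [act_snd, dl_mul, (T_fix hρ).2 c hc]
      exact hag.2 c hc
    · rw [(Submodule.mem_bot K).1 hv, map_zero, map_zero]
    · obtain ⟨a, rfl⟩ := Submodule.mem_span_singleton.1 hc
      rw [map_smul, map_smul, act_snd, dl_mul, hρb, dl_dl_inv]

end Pool.Agent.H81.GL
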