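import Pool.Agent.H81.GL.BExt
import Pool.Agent.H81.GL.BWitt

/-!
# Moving a partial isometry

MODULE BMove.

`move`. `Q = im e A' ⊔ im f (A ⊔ B) : Sp K F`, `dm Q ≤ dm A' + dm (A ⊔ B)` (`dm_sup_le`, `dm_im_le`,
`fd_of_fd`, `Fd.im`, `Fd.sup`). `inverse he` gives `g0 : Emb K F E`, `Good (im e A') g0`, with
`g0 (e a) = a` on `A'`. `extend` (values in `E`, `Rm K E (dm Q + 1)` by `Or.inr`) gives `g`,
`Agr (im e A') g g0`, `Good Q g`. `τ = cmp g f` is good on `A ⊔ B`: if `g.1 (f.1 v) = 0` with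
`v ∈ (A ⊔ B).1` then `f.1 v = 0` (`f.1 v ∈ Q.1`) and `v = 0`; the same for covectors; the pairing:
`g.2 (f.2 c) (g.1 (f.1 v)) = f.2 c (f.1 v) = c v`. `Agr A τ (act 1)`: for `a ∈ A`, `f a = e a`, so
`g (f a) = g0 (e a) = a`. `witt` (`A ≤ A ⊔ B`) gives `σ ∈ T A` with `act σ = τ` on `A ⊔ B`.
`inverse` for `g` on `Q` gives `f' : Emb K E F` with `f' (g x) = x` on `Q`, `Good (im g Q) f'`.
- `Agr A' f' e`: `a ∈ A'`: `a = g0 (e a) = g (e a)` and `f' (g (e a)) = e a`.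
- `A' ⊔ im (act σ) B ≤ im g Q`: `a = g (e a)`; `σ b = τ b = g (f b)`. `Good.mono`.
- `Agr B (pull f' σ⁻¹) f`: `f' (σ b) = f' (g (f b)) = f b` (`pull_fst`, `pull_snd`, `inv_inv`).
-/

set_option autoImplicit false

namespace Pool.Agent.H81.GL

open Module

variable {K E F : Type} [Field K] [AddCommGroup E] [Module K E] [AddCommGroup F] [Module K F]

theorem move [FiniteDimensional K E] {A A' B : Sp K E} (hA : A ≤ A') {e f : Emb K E F}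
    (he : Good A' e) (hf : Good (A ⊔ B) f) (hfe : Agr A f e)
    (hd : dm A' + dm (A ⊔ B) + 3 ≤ finrank K E) :
    ∃ σ ∈ T A, ∃ f' : Emb K E F, Agr A' f' e ∧ Good (A' ⊔ im (act σ) B) f' ∧
      Agr B (pull f' σ⁻¹) f := by
  obtain ⟨g0, hg1, hg2, hg0⟩ := inverse he
  have hfdQ : Fd (im e A' ⊔ im f (A ⊔ B)) := ((fd_of_fd A').im e).sup ((fd_of_fd (A ⊔ B)).im f)
  have hdQ : dm (im e A' ⊔ im f (A ⊔ B)) ≤ dm A' + dm (A ⊔ B) := by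
    refine (dm_sup_le ((fd_of_fd A').im e) ((fd_of_fd (A ⊔ B)).im f)).trans ?_
    exact Nat.add_le_add (dm_im_le (fd_of_fd _) _) (dm_im_le (fd_of_fd _) _)
  obtain ⟨g, hgg, hgQ⟩ := extend (S := im e A') (S' := im e A' ⊔ im f (A ⊔ B)) le_sup_left hfdQ hg0
    (Or.inr (by omega))
  have hQ1 : ∀ v ∈ (A ⊔ B).1, f.1 v ∈ (im e A' ⊔ im f (A ⊔ B)).1 := fun v hv =>
    (le_sup_right : im f (A ⊔ B) ≤ im e A' ⊔ im f (A ⊔ B)).1 ⟨v, hv, rfl⟩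
  have hQ2 : ∀ c ∈ (A ⊔ B).2, f.2 c ∈ (im e A' ⊔ im f (A ⊔ B)).2 := fun v hv =>
    (le_sup_right : im f (A ⊔ B) ≤ im e A' ⊔ im f (A ⊔ B)).2 ⟨v, hv, rfl⟩
  have hP1 : ∀ v ∈ A'.1, e.1 v ∈ (im e A' ⊔ im f (A ⊔ B)).1 := fun v hv =>
    (le_sup_left : im e A' ≤ im e A' ⊔ im f (A ⊔ B)).1 ⟨v, hv, rfl⟩
  have hP2 : ∀ c ∈ A'.2, e.2 c ∈ (im e A' ⊔ im f (A ⊔ B)).2 := fun v hv =>
    (le_sup_left : im e A' ≤ im e A' ⊔ im f (A ⊔ B)).2 ⟨v, hv, rfl⟩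
  have hge1 : ∀ v ∈ A'.1, g.1 (e.1 v) = v := fun v hv => by
    rw [hgg.1 (e.1 v) ⟨v, hv, rfl⟩, hg1 v hv]
  have hge2 : ∀ c ∈ A'.2, g.2 (e.2 c) = c := fun v hv => by
    rw [hgg.2 (e.2 v) ⟨v, hv, rfl⟩, hg2 v hv]
  have hτ : Good (A ⊔ B) (cmp g f) := by
    refine ⟨fun v hv h0 => ?_, fun c hc h0 => ?_, fun c hc v hv => ?_⟩
    · exact hf.1 v hv (hgQ.1 _ (hQ1 v hv) h0)
    · exact hf.2.1 c hc (hgQ.2.1 _ (hQ2 c hc) h0)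
    · rw [cmp_fst, cmp_snd, hgQ.2.2 _ (hQ2 c hc) _ (hQ1 v hv), hf.2.2 c hc v hv]
  have hτA : Agr A (cmp g f) (act 1) := by
    refine ⟨fun a ha => ?_, fun c hc => ?_⟩
    · rw [cmp_fst, hfe.1 a ha, hge1 a (hA.1 ha)]
      rfl
    · rw [cmp_snd, hfe.2 c hc, hge2 c (hA.2 hc)]
      rfl
  obtain ⟨σ, hσ, hστ⟩ := witt (A := A) (D := A ⊔ B) le_sup_left hτ hτA (by omega)
  obtain ⟨f', hf1, hf2, hf'⟩ := inverse hgQ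
  have hBA : B ≤ A ⊔ B := le_sup_right
  have hσ1 : ∀ b ∈ B.1, σ b = g.1 (f.1 b) := fun b hb => hστ.1 b (hBA.1 hb)
  have hσ2 : ∀ c ∈ B.2, dl σ c = g.2 (f.2 c) := fun c hc => hστ.2 c (hBA.2 hc)
  refine ⟨σ, hσ, f', ⟨fun a ha => ?_, fun c hc => ?_⟩, hf'.mono (sup_le ⟨fun a ha => ?_,
    fun c hc => ?_⟩ ⟨?_, ?_⟩), ⟨fun b hb => ?_, fun c hc => ?_⟩⟩
  · have h1 := hf1 _ (hP1 a ha)
    rwa [hge1 a ha] at h1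
  · have h1 := hf2 _ (hP2 c hc)
    rwa [hge2 c hc] at h1
  · exact ⟨e.1 a, hP1 a ha, hge1 a ha⟩
  · exact ⟨e.2 c, hP2 c hc, hge2 c hc⟩
  · rintro _ ⟨b, hb, rfl⟩
    exact ⟨f.1 b, hQ1 b (hBA.1 hb), (hσ1 b hb).symm⟩
  · rintro _ ⟨c, hc, rfl⟩
    exact ⟨f.2 c, hQ2 c (hBA.2 hc), (hσ2 c hc).symm⟩
  · rw [pull_fst, inv_inv, hσ1 b hb, hf1 _ (hQ1 b (hBA.1 hb))]
  · rw [pull_snd, inv_inv, hσ2 c hc, hf2 _ (hQ2 c (hBA.2 hc))]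

end Pool.Agent.H81.GL
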