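import Mathlib

/-!
# Refutations of first-order sentences over the vector space `F_p ^ n`

Propositional formulas are given by the nodes of a finite circuit (subformulas are shared) with
conjunctions of unbounded fan-in; negation is a sign. The propositional variables are the atomic
statements `R (a 1, …, a k)` about vectors of `V p n = Fin n → ZMod p`. A subgroup `Γ` of the
general linear group of `V p n` may act on the circuit and on the lines of a refutation.
-/

set_option autoImplicit false

namespace Pool.Agent.H81.GL

open scoped Pointwise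

/-- The vector space `F_p ^ n`. -/
abbrev V (p n : ℕ) : Type := Fin n → ZMod p

/-- The general linear group of `V p n`. -/
abbrev G (p n : ℕ) : Type := V p n ≃ₗ[ZMod p] V p n

/-! ### First-order formulas over vector spaces with further relations -/

/-- First-order formulas with `k` free variables over vector spaces over `F_p` with further
relations; `Rel r` is the set of the relation symbols with `r` arguments. Terms are linear
combinations of the variables (given by their coefficients); `eq t` says that the term `t` is
zero. -/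
inductive Fml (p : ℕ) (Rel : ℕ → Type) : ℕ → Type
  | falsum {k : ℕ} : Fml p Rel k
  | eq {k : ℕ} (t : Fin k → ZMod p) : Fml p Rel k
  | rel {k r : ℕ} (R : Rel r) (t : Fin r → Fin k → ZMod p) : Fml p Rel k
  | imp {k : ℕ} (φ θ : Fml p Rel k) : Fml p Rel k
  | all {k : ℕ} (φ : Fml p Rel (k + 1)) : Fml p Rel k

/-- The value of a term. -/
def tv {p : ℕ} {E : Type} [AddCommGroup E] [Module (ZMod p) E] {k : ℕ} (v : Fin k → E)
    (t : Fin k → ZMod p) : E := ∑ i, t i • v i

/-- An interpretation of the relation symbols. -/
abbrev Interp (Rel : ℕ → Type) (M : Type) : Type := ∀ r : ℕ, Rel r → (Fin r → M) → Prop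

/-- Truth of a formula in a vector space with relations. -/
def Fml.Real {p : ℕ} {Rel : ℕ → Type} {M : Type} [AddCommGroup M] [Module (ZMod p) M]
    (I : Interp Rel M) : ∀ {k : ℕ}, Fml p Rel k → (Fin k → M) → Prop
  | _, .falsum, _ => False
  | _, .eq t, v => tv v t = 0
  | _, .rel R t, v => I _ R fun i => tv v (t i)
  | _, .imp φ θ, v => φ.Real I v → θ.Real I v
  | _, .all φ, v => ∀ y : M, φ.Real I (Fin.snoc v y)

/-! ### Circuits and refutations -/

/-- A signed node: the node itself (`pos = true`) or its negation (`pos = false`). -/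
@[ext] structure Lit (N : Type) where
  /-- the node -/
  node : N
  /-- the sign -/
  pos : Bool

/-- The negation of a signed node. -/
def Lit.neg {N : Type} (x : Lit N) : Lit N := ⟨x.node, !x.pos⟩

/-- Renaming of the node. -/
def Lit.map {N N' : Type} (g : N → N') (x : Lit N) : Lit N' := ⟨g x.node, x.pos⟩

/-- Propositional variables: the atomic statements `R (a 1, …, a k)` about elements of `E`. -/
abbrev Atom (Rel : ℕ → Type) (E : Type) : Type := Σ k : ℕ, Rel k × (Fin k → E)

/-- The label of a node: a variable or a conjunction of a set of signed nodes. -/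
inductive Gate (A N : Type) : Type
  | var (v : A)
  | and (S : Set (Lit N))

/-- The signed nodes that enter a gate. -/
def Gate.children {A N : Type} : Gate A N → Set (Lit N)
  | .var _ => ∅
  | .and S => S

/-- Renaming of the points and of the nodes in a label. -/
def Gate.map {Rel : ℕ → Type} {E N N' : Type} (f : E → E) (g : N → N') :
    Gate (Atom Rel E) N → Gate (Atom Rel E) N'
  | .var v => .var ⟨v.1, v.2.1, fun i => f (v.2.2 i)⟩
  | .and S => .and (Lit.map g '' S)

/-- A finite acyclic circuit over the universe `V p n`. -/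
structure Circuit (Rel : ℕ → Type) (p n : ℕ) where
  /-- the nodes -/
  N : Type
  [fin : Finite N]
  /-- the label of a node -/
  gate : N → Gate (Atom Rel (V p n)) N
  /-- the level of a node -/
  rank : N → ℕ
  rank_lt : ∀ a, ∀ x ∈ (gate a).children, rank x.node < rank a

attribute [instance] Circuit.fin

/-- The signed node `x` represents the propositional translation of the formula over the universe
`V p n` under the valuation `v`: a quantifier is the conjunction of the instances at all
points (an instance may be represented by several nodes), an equation is the truth constant (empty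
conjunction) or its negation, `φ → θ` is `¬(φ ∧ ¬θ)`. -/
def Circuit.Rep {Rel : ℕ → Type} {p n : ℕ} (C : Circuit Rel p n) :
    ∀ {k : ℕ}, Fml p Rel k → (Fin k → V p n) → Lit C.N → Prop
  | _, .falsum, _, x => x.pos = false ∧ C.gate x.node = .and ∅
  | _, .eq t, v, x => (x.pos = true ↔ tv v t = 0) ∧ C.gate x.node = .and ∅
  | _, .rel R t, v, x => x.pos = true ∧ C.gate x.node = .var ⟨_, R, fun i => tv v (t i)⟩
  | _, .imp φ θ, v, x => x.pos = false ∧
      ∃ y z, C.Rep φ v y ∧ C.Rep θ v z ∧ C.gate x.node = .and {y, z.neg}
  | _, .all φ, v, x => x.pos = true ∧ ∃ S : Set (Lit C.N), C.gate x.node = .and S ∧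
      (∀ b, ∃ y ∈ S, C.Rep φ (Fin.snoc v b) y) ∧ ∀ y ∈ S, ∃ b, C.Rep φ (Fin.snoc v b) y

/-- The rules. A line is a set `Λ` of signed nodes, read as the disjunction of its members; it
follows in one step from the lines in `P`. The hypothesis is `ψ` over the universe `V p n`. -/
inductive Step {Rel : ℕ → Type} {p n : ℕ} (ψ : Fml p Rel 0) (C : Circuit Rel p n)
    (P : Set (Set (Lit C.N))) : Set (Lit C.N) → Prop
  | hyp {Λ : Set (Lit C.N)} {x : Lit C.N} : C.Rep ψ default x → x ∈ Λ → Step ψ C P Λ
  | ident {Λ : Set (Lit C.N)} {a b : C.N} : C.gate a = C.gate b → ⟨a, true⟩ ∈ Λ →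
      ⟨b, false⟩ ∈ Λ → Step ψ C P Λ
  | weak {Λ Δ : Set (Lit C.N)} : Δ ∈ P → Δ ⊆ Λ → Step ψ C P Λ
  | cut {Λ : Set (Lit C.N)} {a : C.N} : insert ⟨a, true⟩ Λ ∈ P → insert ⟨a, false⟩ Λ ∈ P →
      Step ψ C P Λ
  | andI {Λ S : Set (Lit C.N)} {a : C.N} : C.gate a = .and S → ⟨a, true⟩ ∈ Λ →
      (∀ x ∈ S, insert x Λ ∈ P) → Step ψ C P Λ
  | andE {Λ S : Set (Lit C.N)} {a : C.N} : C.gate a = .and S → ⟨a, false⟩ ∈ Λ →
      Λ ∪ Lit.neg '' S ∈ P → Step ψ C P Λ

/-- A refutation of the translation of `ψ` over the universe `V p n`: a circuit and a set of lines,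
each of which follows in one step from earlier ones; the empty line is among them. -/
structure Refutation {Rel : ℕ → Type} {p : ℕ} (ψ : Fml p Rel 0) (n : ℕ) where
  /-- the circuit -/
  C : Circuit Rel p n
  /-- the lines -/
  lines : Set (Set (Lit C.N))
  /-- the order of the lines -/
  order : Set (Lit C.N) → ℕ
  step : ∀ Λ ∈ lines, Step ψ C {Δ | Δ ∈ lines ∧ order Δ < order Λ} Λ
  empty_mem : ∅ ∈ lines

/-- The size of a refutation: the number of nodes of the circuit plus the number of lines. -/
noncomputable def Refutation.size {Rel : ℕ → Type} {p : ℕ} {ψ : Fml p Rel 0} {n : ℕ}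
    (R : Refutation ψ n) : ℕ :=
  Nat.card R.C.N + R.lines.ncard

/-- `act` is an action of the subgroup `Γ` of the general linear group on `N`. -/
def IsAct {p n : ℕ} (Γ : Subgroup (G p n)) {N : Type} (act : G p n → N → N) : Prop :=
  (∀ a, act 1 a = a) ∧ ∀ σ ∈ Γ, ∀ τ ∈ Γ, ∀ a, act (σ * τ) a = act σ (act τ a)

/-- The refutation is symmetric under the subgroup `Γ` of the general linear group: `Γ` acts on the
nodes of the circuit compatibly with the labels, and the set of the lines is closed. -/
def Refutation.Symm {Rel : ℕ → Type} {p : ℕ} {ψ : Fml p Rel 0} {n : ℕ} (R : Refutation ψ n)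
    (Γ : Subgroup (G p n)) : Prop :=
  ∃ act : G p n → R.C.N → R.C.N, IsAct Γ act ∧ ∀ σ ∈ Γ,
    (∀ a, R.C.gate (act σ a) = (R.C.gate a).map σ (act σ)) ∧
    ∀ Λ ∈ R.lines, Lit.map (act σ) '' Λ ∈ R.lines

end Pool.Agent.H81.GL
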