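import Pool.Agent.H81.GL.Sp
import Pool.Agent.H81.GL.ASup
import Pool.Agent.H81.GL.Defs

/-!
# Canonical supports

MODULE BSupp. `E` is finite-dimensional.

`inter`. By `T_le_iff`, `h` and `h'` are `Rect H S.2.dualCoannihilator S.1.dualAnnihilator` and the
same for `S'`. `comb` gives `Rect H (B1 ⊔ B2) (F1 ⊔ F2)` with `B1 = S.2.dualCoannihilator`,
`F1 = S.1.dualAnnihilator`, `B2 F2` for `S'`; and `B1 ⊔ B2 = (S.2 ⊓ S'.2).dualCoannihilator`,
`F1 ⊔ F2 = (S.1 ⊓ S'.1).dualAnnihilator` (`Subspace.dualAnnihilator_inf_eq`; for the first one apply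
`dualAnnihilator` to both sides: `Submodule.dualAnnihilator_sup_eq`,
`Subspace.dualCoannihilator_dualAnnihilator_eq`, and `Subspace.dualAnnihilator_inj`). Only `≥` is
needed in both. The condition `h12` of `comb` for `v1 v2 f1 f2`: apply `exists_pair` (file ASup) to
`Φ = (S.1 ⊔ span {v1, v2}).dualAnnihilator` (`≤ F1`, dimension at least `n - finrank S.1 - 2`) and
`X' = (S'.2 ⊔ span {f1, f2}).dualCoannihilator` (`≤ B2`, dimension at least `n - finrank S'.2 - 2`);
`n < (n - finrank S.1 - 2) + (n - finrank S'.2 - 2)` by `hd`. The same for `h21`.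

`suppH_spec`, `suppH_le`. Let `𝒮 = {S | 8 * dm S + 8 ≤ n ∧ T S ≤ H}`, nonempty. Choose `S0 ∈ 𝒮` with
`dm S0` minimal. For `S' ∈ 𝒮` one has `S0 ⊓ S' ∈ 𝒮` by `inter` (`dm (S0 ⊓ S') ≤ dm S0`, `dm_mono`;
`dm S0 + dm S' + 5 ≤ n` because `8 dm S0 + 8 ≤ n`, `8 dm S' + 8 ≤ n`), so `dm (S0 ⊓ S') = dm S0`, both
components have the same dimension as those of `S0`, so `S0 ⊓ S' = S0`
(`Submodule.eq_of_le_of_finrank_le`) and `S0 ≤ S'`. So `S0` is the least member of `𝒮` and
`sInf 𝒮 = S0` (`IsLeast.isGLB`, `IsGLB.sInf_eq`). `suppH_le` is `sInf_le`.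

`conj_tr`, `T_conj`. `σ * t v f * σ⁻¹ = t (σ v) (dl σ f)` (apply to `x`; `dl σ f (σ v) = f v = 0`), and
`v ∈ S.2.dualCoannihilator ↔ σ v ∈ (im (act σ) S).2.dualCoannihilator`,
`f ∈ S.1.dualAnnihilator ↔ dl σ f ∈ (im (act σ) S).1.dualAnnihilator`. So conjugation by `σ` maps
`T S` into `T (im (act σ) S)` (`Subgroup.closure_induction`, or `T_le_iff` for the subgroup
`(T (im (act σ) S)).comap (MulAut.conj σ)`), and the converse follows with `σ⁻¹` (`im_act_inv`).

`suppH_conj`. `S ↦ im (act σ) S` is a bijection of the pairs (inverse `im (act σ⁻¹)`), preserves `≤`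
in both directions (`im_act_le`), the dimension (`dm_im_act`) and `T S ≤ H ↔ T (im (act σ) S) ≤ H'`
(`T_conj`). So `𝒮' = (im (act σ)) '' 𝒮`, and `sInf` commutes with this order isomorphism (prove both
inequalities with `sInf_le`, `le_sInf`, `im_act_le`, `im_act_inv'`).

`supp_smul`. `g ∈ stabilizer (σ • x) ↔ σ⁻¹ * g * σ ∈ stabilizer x`.

`nice_of_orbit`. `MulAction.index_stabilizer`; `support_exists` for the stabilizer gives `A`, `C`;
`S0 = (A, C)`, `dm S0 ≤ 8 k + 2`, `T S0 ≤ stabilizer` (`T_le_iff`), `8 * dm S0 + 8 ≤ 64 k + 24 ≤ n`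
(`Module.finrank_fin_fun`: `finrank (V p n) = n`). `suppH_le` and `dm_mono` give `dm (supp x) ≤ dm S0`.
-/

set_option autoImplicit false

namespace Pool.Agent.H81.GL

open Module

section

variable {K E : Type} [Field K] [AddCommGroup E] [Module K E]

/-- The canonical support of a subgroup. -/
noncomputable def suppH (H : Subgroup (E ≃ₗ[K] E)) : Sp K E :=
  sInf {S | 8 * dm S + 8 ≤ finrank K E ∧ T S ≤ H}

/-- The canonical support of an element of a set on which the general linear group acts. -/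
noncomputable def supp (K E : Type) [Field K] [AddCommGroup E] [Module K E] {X : Type}
    [MulAction (E ≃ₗ[K] E) X] (x : X) : Sp K E := suppH (MulAction.stabilizer (E ≃ₗ[K] E) x)

variable [FiniteDimensional K E]

omit [FiniteDimensional K E] in
private theorem fr_sup {M : Type} [AddCommGroup M] [Module K M] [FiniteDimensional K M]
    (W : Submodule K M) (v : M) :
    finrank K (W ⊔ Submodule.span K {v} : Submodule K M) ≤ finrank K W + 1 := by
  have h1 : finrank K (Submodule.span K {v}) ≤ 1 := by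
    have := finrank_span_le_card (R := K) ({v} : Set M)
    simpa using this
  have h2 : finrank K (W ⊔ Submodule.span K {v} : Submodule K M) ≤
      finrank K W + finrank K (Submodule.span K {v}) :=
    Submodule.finrank_add_le_finrank_add_finrank _ _
  omega

private theorem pair_of {A : Submodule K E} {C : Submodule K (Dual K E)}
    (h : finrank K A + finrank K C + 5 ≤ finrank K E) (v1 v2 : E) (f1 f2 : Dual K E) :
    ∃ γ ∈ A.dualAnnihilator, ∃ w ∈ C.dualCoannihilator,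
      γ v1 = 0 ∧ γ v2 = 0 ∧ f1 w = 0 ∧ f2 w = 0 ∧ γ w = 1 := by
  obtain ⟨A', hA'⟩ : ∃ A' : Submodule K E,
    A' = A ⊔ Submodule.span K {v1} ⊔ Submodule.span K {v2} := ⟨_, rfl⟩
  obtain ⟨C', hC'⟩ : ∃ C' : Submodule K (Dual K E),
    C' = C ⊔ Submodule.span K {f1} ⊔ Submodule.span K {f2} := ⟨_, rfl⟩
  have h1 : finrank K A' ≤ finrank K A + 2 := by
    rw [hA']
    have := fr_sup (A ⊔ Submodule.span K {v1}) v2
    have := fr_sup A v1
    omega
  have h2 : finrank K C' ≤ finrank K C + 2 := by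
    rw [hC']
    have := fr_sup (C ⊔ Submodule.span K {f1}) f2
    have := fr_sup C f1
    omega
  have h3 := Subspace.finrank_add_finrank_dualAnnihilator_eq A'
  have h4 := Subspace.finrank_add_finrank_dualCoannihilator_eq C'
  obtain ⟨γ, hγ, w, hw, h5⟩ := exists_pair A'.dualAnnihilator C'.dualCoannihilator (by omega)
  have hA1 : A ≤ A' := by
    rw [hA']
    exact le_sup_left.trans le_sup_left
  have hC1 : C ≤ C' := by
    rw [hC']
    exact le_sup_left.trans le_sup_left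
  rw [Submodule.mem_dualAnnihilator] at hγ
  rw [Submodule.mem_dualCoannihilator] at hw
  refine ⟨γ, ?_, w, ?_, ?_, ?_, ?_, ?_, h5⟩
  · rw [Submodule.mem_dualAnnihilator]
    exact fun v hv => hγ v (hA1 hv)
  · rw [Submodule.mem_dualCoannihilator]
    exact fun f hf => hw f (hC1 hf)
  · refine hγ v1 ?_
    rw [hA']
    exact Submodule.mem_sup_left (Submodule.mem_sup_right (Submodule.mem_span_singleton_self v1))
  · refine hγ v2 ?_
    rw [hA']
    exact Submodule.mem_sup_right (Submodule.mem_span_singleton_self v2)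
  · refine hw f1 ?_
    rw [hC']
    exact Submodule.mem_sup_left (Submodule.mem_sup_right (Submodule.mem_span_singleton_self f1))
  · refine hw f2 ?_
    rw [hC']
    exact Submodule.mem_sup_right (Submodule.mem_span_singleton_self f2)

theorem inter {S S' : Sp K E} {H : Subgroup (E ≃ₗ[K] E)} (h : T S ≤ H) (h' : T S' ≤ H)
    (hd : dm S + dm S' + 5 ≤ finrank K E) : T (S ⊓ S') ≤ H := by
  have hds : dm S = finrank K S.1 + finrank K S.2 := rfl
  have hds' : dm S' = finrank K S'.1 + finrank K S'.2 := rfl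
  have h1 := comb (T_le_iff.1 h) (T_le_iff.1 h')
    (fun v1 _ v2 _ f1 _ f2 _ => pair_of (A := S.1) (C := S'.2) (by omega) v1 v2 f1 f2)
    (fun v1 _ v2 _ f1 _ f2 _ => pair_of (A := S'.1) (C := S.2) (by omega) v1 v2 f1 f2)
  rw [T_le_iff]
  have e1 : (S ⊓ S').1.dualAnnihilator = S.1.dualAnnihilator ⊔ S'.1.dualAnnihilator :=
    Subspace.dualAnnihilator_inf_eq S.1 S'.1
  have e2 : (S ⊓ S').2.dualCoannihilator = S.2.dualCoannihilator ⊔ S'.2.dualCoannihilator := by
    have e3 : (S.2.dualCoannihilator ⊔ S'.2.dualCoannihilator).dualAnnihilator =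
        (S ⊓ S').2 := by
      rw [Submodule.dualAnnihilator_sup_eq, Subspace.dualCoannihilator_dualAnnihilator_eq,
        Subspace.dualCoannihilator_dualAnnihilator_eq]
      rfl
    rw [← e3, Subspace.dualAnnihilator_dualCoannihilator_eq]
  rw [e1, e2]
  exact h1

theorem suppH_spec {H : Subgroup (E ≃ₗ[K] E)}
    (h : ∃ S : Sp K E, 8 * dm S + 8 ≤ finrank K E ∧ T S ≤ H) :
    8 * dm (suppH H) + 8 ≤ finrank K E ∧ T (suppH H) ≤ H := by
  obtain ⟨S0, ⟨h1, h2⟩, hmin⟩ := (measure (dm : Sp K E → ℕ)).wf.has_min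
    {S : Sp K E | 8 * dm S + 8 ≤ finrank K E ∧ T S ≤ H} h
  have hleast : IsLeast {S : Sp K E | 8 * dm S + 8 ≤ finrank K E ∧ T S ≤ H} S0 := by
    refine ⟨⟨h1, h2⟩, ?_⟩
    rintro S' ⟨h3, h4⟩
    have h5 : T (S0 ⊓ S') ≤ H := inter h2 h4 (by omega)
    have h6 : dm (S0 ⊓ S') ≤ dm S0 := dm_mono (fd_of_fd S0) inf_le_left
    have h7 : ¬ dm (S0 ⊓ S') < dm S0 := hmin (S0 ⊓ S') ⟨by omega, h5⟩
    have e1 : finrank K (S0 ⊓ S').1 ≤ finrank K S0.1 := Submodule.finrank_mono inf_le_left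
    have e2 : finrank K (S0 ⊓ S').2 ≤ finrank K S0.2 := Submodule.finrank_mono inf_le_left
    have e3 : dm (S0 ⊓ S') = finrank K (S0 ⊓ S').1 + finrank K (S0 ⊓ S').2 := rfl
    have e4 : dm S0 = finrank K S0.1 + finrank K S0.2 := rfl
    have e5 : (S0 ⊓ S').1 = S0.1 :=
      Submodule.eq_of_le_of_finrank_le (show S0.1 ⊓ S'.1 ≤ S0.1 from inf_le_left) (by omega)
    have e6 : (S0 ⊓ S').2 = S0.2 :=
      Submodule.eq_of_le_of_finrank_le (show S0.2 ⊓ S'.2 ≤ S0.2 from inf_le_left) (by omega)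
    have e7 : S0 ⊓ S' = S0 := Prod.ext e5 e6
    exact inf_eq_left.1 e7
  have h8 : suppH H = S0 := hleast.isGLB.sInf_eq
  rw [h8]
  exact ⟨h1, h2⟩

omit [FiniteDimensional K E] in
theorem suppH_le {H : Subgroup (E ≃ₗ[K] E)} {S : Sp K E} (h1 : 8 * dm S + 8 ≤ finrank K E)
    (h2 : T S ≤ H) : suppH H ≤ S := by
  exact sInf_le ⟨h1, h2⟩

omit [FiniteDimensional K E] in
private theorem conj_tr {σ : E ≃ₗ[K] E} {v : E} {f : Dual K E} (h : f v = 0)
    (h' : dl σ f (σ v) = 0) :
    σ * LinearEquiv.transvection h * σ⁻¹ = LinearEquiv.transvection h' := by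
  refine LinearEquiv.ext fun x => ?_
  rw [LinearEquiv.mul_apply, LinearEquiv.mul_apply, LinearEquiv.transvection.apply,
    LinearEquiv.transvection.apply, map_add, map_smul, ai, dl_apply]

omit [FiniteDimensional K E] in
private theorem T_conj_aux {S : Sp K E} {σ g : E ≃ₗ[K] E} (h : g ∈ T S) :
    σ * g * σ⁻¹ ∈ T (im (act σ) S) := by
  have h1 : T S ≤ (T (im (act σ) S)).comap (MulAut.conj σ).toMonoidHom := by
    rw [T_le_iff]
    intro v hv f hf hfv
    show σ * LinearEquiv.transvection hfv * σ⁻¹ ∈ T (im (act σ) S)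
    have h2 : dl σ f (σ v) = 0 := by rw [dl_apply_apply, hfv]
    rw [conj_tr hfv h2]
    refine mem_T ?_ ?_ h2
    · rw [Submodule.mem_dualCoannihilator]
      intro c hc
      have h3 := (Submodule.mem_dualCoannihilator v).1 hv _ (mem_im_act_snd.1 hc)
      rw [dl_apply, inv_inv] at h3
      exact h3
    · rw [Submodule.mem_dualAnnihilator]
      intro w hw
      rw [dl_apply]
      exact (Submodule.mem_dualAnnihilator f).1 hf _ (mem_im_act_fst.1 hw)
  exact h1 h

omit [FiniteDimensional K E] in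
theorem T_conj {S : Sp K E} {σ g : E ≃ₗ[K] E} :
    σ * g * σ⁻¹ ∈ T (im (act σ) S) ↔ g ∈ T S := by
  constructor
  · intro h
    have h1 := T_conj_aux (σ := σ⁻¹) h
    rw [im_act_inv] at h1
    have h2 : σ⁻¹ * (σ * g * σ⁻¹) * σ⁻¹⁻¹ = g := by group
    rw [h2] at h1
    exact h1
  · exact T_conj_aux

theorem suppH_conj {H H' : Subgroup (E ≃ₗ[K] E)} {σ : E ≃ₗ[K] E}
    (h : ∀ g, g ∈ H' ↔ σ⁻¹ * g * σ ∈ H) : suppH H' = im (act σ) (suppH H) := by
  have hT : ∀ S : Sp K E, T S ≤ H ↔ T (im (act σ) S) ≤ H' := by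
    intro S
    constructor
    · intro h1 g hg
      rw [h]
      apply h1
      rw [← T_conj (σ := σ)]
      have h2 : σ * (σ⁻¹ * g * σ) * σ⁻¹ = g := by group
      rw [h2]
      exact hg
    · intro h1 g hg
      have h2 := h1 (T_conj.2 hg)
      rw [h] at h2
      have h3 : σ⁻¹ * (σ * g * σ⁻¹) * σ = g := by group
      rw [h3] at h2
      exact h2
  apply le_antisymm
  · rw [← im_act_le (σ := σ⁻¹), im_act_inv]
    refine le_sInf ?_
    rintro S ⟨h1, h2⟩
    have h3 : suppH H' ≤ im (act σ) S :=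
      suppH_le (by rw [dm_im_act]; exact h1) ((hT S).1 h2)
    have h4 := im_mono (act σ⁻¹) h3
    rw [im_act_inv] at h4
    exact h4
  · refine le_sInf ?_
    rintro S' ⟨h1, h2⟩
    have h3 : suppH H ≤ im (act σ⁻¹) S' :=
      suppH_le (by rw [dm_im_act]; exact h1) ((hT _).2 (by rw [im_act_inv']; exact h2))
    have h4 := im_mono (act σ) h3
    rw [im_act_inv'] at h4
    exact h4

theorem supp_smul {X : Type} [MulAction (E ≃ₗ[K] E) X] (σ : E ≃ₗ[K] E) (x : X) :
    supp K E (σ • x) = im (act σ) (supp K E x) := by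
  unfold supp
  apply suppH_conj
  intro g
  rw [MulAction.mem_stabilizer_iff, MulAction.mem_stabilizer_iff, mul_smul, mul_smul,
    inv_smul_eq_iff]

end

theorem nice_of_orbit {p : ℕ} [Fact p.Prime] {n k : ℕ} {X : Type} [MulAction (G p n) X] (x : X)
    (hn : 64 * k + 24 ≤ n) (h : (MulAction.orbit (G p n) x).ncard < p ^ (k * n / 4)) :
    dm (supp (ZMod p) (V p n) x) ≤ 8 * k + 2 ∧
      T (supp (ZMod p) (V p n) x) ≤ MulAction.stabilizer (G p n) x := by
  obtain ⟨H, hH⟩ : ∃ H : Subgroup (G p n), H = MulAction.stabilizer (G p n) x := ⟨_, rfl⟩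
  have hfr : finrank (ZMod p) (V p n) = n := finrank_fin_fun _
  have hidx : H.index < p ^ (k * n / 4) := by
    rw [hH, MulAction.index_stabilizer]
    exact h
  obtain ⟨A, C, hA, hC, hR⟩ := support_exists hfr (by omega) H hidx
  have hT : T ((A, C) : Sp (ZMod p) (V p n)) ≤ H := T_le_iff.2 hR
  have hdm : dm ((A, C) : Sp (ZMod p) (V p n)) ≤ 8 * k + 2 := by
    show finrank (ZMod p) A + finrank (ZMod p) C ≤ 8 * k + 2
    omega
  have h8 : 8 * dm ((A, C) : Sp (ZMod p) (V p n)) + 8 ≤ finrank (ZMod p) (V p n) := by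
    rw [hfr]
    omega
  have hs : supp (ZMod p) (V p n) x = suppH H := by
    rw [hH]
    rfl
  rw [hs, ← hH]
  refine ⟨?_, (suppH_spec ⟨_, h8, hT⟩).2⟩
  exact (dm_mono (fd_of_fd _) (suppH_le h8 hT)).trans hdm

end Pool.Agent.H81.GL
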