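import Pool.Agent.H81.GL.CVal
import Pool.Agent.H81.GL.BKey

/-!
# The value of a node depends only on the restriction to its support

MODULE CCongr. Compare `Pool/Agent/H93/SY/Congr.lean`.

`args_mem`. Let `A = sp p n a`, `w = v.2.2 i`, and suppose `w ∉ A.1`. There is `f` in
`A.1.dualAnnihilator` with `f w = 1` (`Submodule.exists_dual_map_eq_bot_of_notMem`-like, scale). There
is `u ≠ 0` in `A.2.dualCoannihilator` with `f u = 0`: `rich_key` (file BKey, import it through
`Pool.Agent.H81.GL.BKey` if needed) for `U = ⊥` and `W = A.2 ⊔ span {f}` (`finrank W + 1 ≤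
finrank A.2 + 2 ≤ n`, `finrank_V`). Let `σ = LinearEquiv.transvection (f u = 0) ∈ T A` (`mem_T`). By `ha`,
`σ • a = a`, so `C.gate_smul σ a` gives `Gate.var v = Gate.map σ (σ • ·) (.var v) =
.var ⟨v.1, v.2.1, fun i => σ (v.2.2 i)⟩`, so `w = σ w = w + f w • u = w + u`
(obtain `⟨r, R, w⟩ := v`, `injection`, `Prod.mk.inj`; see the original file), a contradiction.

`val_congr`. By cases on `C.gate a` (no induction): variable: `val_var` and `args_mem` (`h.1`);
conjunction: `val_and`: the conditions on `f` are the same: `Agr A f e ↔ Agr A f e'`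
(`Agr.trans`, `Agr.symm`).
-/

set_option autoImplicit false

namespace Pool.Agent.H81.GL

open Module
open scoped Pointwise

variable {Rel : ℕ → Type} {p n : ℕ} [Fact p.Prime] {C : SC Rel p n} {M : Type}
  [AddCommGroup M] [Module (ZMod p) M] {I : Interp Rel M}

theorem args_mem {a : C.N} (ha : Fixes (sp p n a) a) (hn : dm (sp p n a) + 3 ≤ n)
    {v : Atom Rel (V p n)} (h : C.gate a = .var v) (i : Fin v.1) :
    v.2.2 i ∈ (sp p n a).1 := by
  by_contra hw
  obtain ⟨g, hg, hU⟩ := Submodule.exists_dual_map_eq_bot_of_notMem hw inferInstance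
  obtain ⟨f, hf⟩ : ∃ f : Dual (ZMod p) (V p n), f = (g (v.2.2 i))⁻¹ • g := ⟨_, rfl⟩
  have hfw : f (v.2.2 i) = 1 := by
    rw [hf, LinearMap.smul_apply, smul_eq_mul, inv_mul_cancel₀ hg]
  have hf0 : ∀ u ∈ (sp p n a).1, f u = 0 := by
    intro u hu
    have h1 : g u = 0 := by
      rw [← Submodule.mem_bot (ZMod p), ← hU]
      exact Submodule.mem_map_of_mem hu
    rw [hf, LinearMap.smul_apply, h1, smul_zero]
  have hspan : finrank (ZMod p) (Submodule.span (ZMod p) {f}) ≤ 1 := by
    have := finrank_span_le_card (R := ZMod p) ({f} : Set (Dual (ZMod p) (V p n)))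
    simpa using this
  have hW : finrank (ZMod p) ((sp p n a).2 ⊔ Submodule.span (ZMod p) {f} :
      Submodule (ZMod p) (Dual (ZMod p) (V p n))) ≤ finrank (ZMod p) (sp p n a).2 + 1 :=
    (Submodule.finrank_add_le_finrank_add_finrank _ _).trans (Nat.add_le_add_left hspan _)
  have hdm : finrank (ZMod p) (sp p n a).2 ≤ dm (sp p n a) := Nat.le_add_left _ _
  obtain ⟨x, hx, hx0⟩ := rich_key (U := (⊥ : Submodule (ZMod p) (V p n)))
    (W := (sp p n a).2 ⊔ Submodule.span (ZMod p) {f}) (Or.inr (by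
      rw [finrank_V, finrank_bot]
      omega))
  have hfx : f x = 0 := (Submodule.mem_dualCoannihilator x).1 hx f
    (Submodule.mem_sup_right (Submodule.mem_span_singleton_self f))
  have hxA : x ∈ (sp p n a).2.dualCoannihilator :=
    Submodule.dualCoannihilator_anti le_sup_left hx
  have hσ : LinearEquiv.transvection hfx ∈ T (sp p n a) :=
    mem_T hxA ((Submodule.mem_dualAnnihilator f).2 hf0) hfx
  obtain ⟨σ, hσe⟩ : ∃ σ : G p n, σ = LinearEquiv.transvection hfx := ⟨_, rfl⟩
  rw [← hσe] at hσ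
  have h1 := ha σ hσ
  have h2 := C.gate_smul σ a
  rw [h1, h] at h2
  have h3 : (Gate.var v : Gate (Atom Rel (V p n)) C.N) =
      .var ⟨v.1, v.2.1, fun i => σ (v.2.2 i)⟩ := h2
  injection h3 with h4
  have h5 : v.2.2 = fun i => σ (v.2.2 i) := by
    clear h2 h1 hσ hxA hdm hW hspan hf0 hfw hU hg hx hx0 hfx hσe hf hw h
    obtain ⟨r, R, w⟩ := v
    have h6 : (⟨r, R, w⟩ : Atom Rel (V p n)) = ⟨r, R, fun i => σ (w i)⟩ := h4
    injection h6 with h7 h8
    exact (Prod.mk.inj h8).2
  have h6 : v.2.2 i = σ (v.2.2 i) := congrFun h5 i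
  rw [hσe, LinearEquiv.transvection.apply, hfw, one_smul] at h6
  apply hx0
  rw [Submodule.mem_bot]
  exact left_eq_add.1 h6

theorem val_congr {k : ℕ} {a : C.N} (ha : Nice p n k a) (hn : k + 3 ≤ n)
    {e e' : Emb (ZMod p) (V p n) M} (h : Agr (sp p n a) e e') :
    C.val I a e ↔ C.val I a e' := by
  cases hg : C.gate a with
  | var v =>
    rw [val_var hg, val_var hg]
    have h1 : (fun i => e.1 (v.2.2 i)) = fun i => e'.1 (v.2.2 i) := by
      funext i
      exact h.1 _ (args_mem ha.2 (by have := ha.1; omega) hg i)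
    rw [h1]
  | and S =>
    rw [val_and hg, val_and hg]
    refine forall_congr' fun x => forall_congr' fun _ => forall_congr' fun f => ?_
    have h1 : Agr (sp p n a) f e ↔ Agr (sp p n a) f e' :=
      ⟨fun h2 => h2.trans h, fun h2 => h2.trans h.symm⟩
    rw [h1]

theorem tr_congr {k : ℕ} {x : Lit C.N} (hx : Nice p n k x.node) (hn : k + 3 ≤ n)
    {e e' : Emb (ZMod p) (V p n) M} (h : Agr (sp p n x.node) e e') :
    C.tr I x e ↔ C.tr I x e' := by
  unfold SC.tr
  rw [val_congr hx hn h]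

end Pool.Agent.H81.GL
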