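import Pool.Agent.H81.GL.CVal

/-!
# The value is invariant under the general linear group

MODULE CEqui. Compare `Pool/Agent/H93/SY/Equi.lean`.

`val_smul`. Strong induction on `C.rank a` for all `e` (`∀ r, ∀ a, C.rank a = r → ∀ e, ...`). By
`C.gate_smul σ a` and cases on `C.gate a`:
- variable `v`: the label of `σ • a` is `.var ⟨v.1, v.2.1, fun i => σ (v.2.2 i)⟩` and
  `(pull e σ).1 (σ w) = e.1 w` (`pull_fst`, `ia`).
- `and S`: the label of `σ • a` is `.and (Lit.map (σ • ·) '' S)`, whose members are the `σ • x`, `x ∈ S`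
  (`smul_set_eq`; `Lit.map (σ • ·) x = σ • x` is `rfl`). The `f'` with `Agr (sp (σ • a)) f' (pull e σ)` are
  the `pull f σ` with `f = pull f' σ⁻¹` (`pull_pull_inv`), `Agr (sp a) f e` (`sp_smul`, `agr_pull`);
  `Good (sp (σ • a) ⊔ sp (σ • x).node) (pull f σ) ↔ Good (sp a ⊔ sp x.node) f` (`smul_node`, `sp_smul`,
  `im_sup`, `good_pull`); and `C.tr I (σ • x) (pull f σ) ↔ C.tr I x f` by the induction hypothesis
  (`C.rank_lt a x`, `Gate.children` of `.and S` is `S`), since `(σ • x).node = σ • x.node` and
  `(σ • x).pos = x.pos`.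
-/

set_option autoImplicit false

namespace Pool.Agent.H81.GL

open Module
open scoped Pointwise

variable {Rel : ℕ → Type} {p n : ℕ} [Fact p.Prime] {C : SC Rel p n} {M : Type}
  [AddCommGroup M] [Module (ZMod p) M] {I : Interp Rel M}

theorem val_smul (σ : G p n) (a : C.N) (e : Emb (ZMod p) (V p n) M) :
    C.val I (σ • a) (pull e σ) ↔ C.val I a e := by
  obtain ⟨r, hr⟩ : ∃ r, C.rank a = r := ⟨_, rfl⟩
  induction r using Nat.strong_induction_on generalizing a e with
  | _ r ih =>
    have hg := C.gate_smul σ a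
    cases hga : C.gate a with
    | var v =>
      rw [hga] at hg
      have hg' : C.gate (σ • a) = .var ⟨v.1, v.2.1, fun i => σ (v.2.2 i)⟩ := hg
      rw [val_var hg', val_var hga]
      have h1 : (fun i => (pull e σ).1 (σ (v.2.2 i))) = fun i => e.1 (v.2.2 i) := by
        funext i
        rw [pull_fst, ia]
      show I v.1 v.2.1 (fun i => (pull e σ).1 (σ (v.2.2 i))) ↔ _
      rw [h1]
    | and S =>
      rw [hga] at hg
      have hg' : C.gate (σ • a) = .and (Lit.map (σ • ·) '' S) := hg
      rw [val_and hg', val_and hga]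
      have key : ∀ x ∈ S, ∀ f : Emb (ZMod p) (V p n) M,
          C.tr I (σ • x) (pull f σ) ↔ C.tr I x f := by
        intro x hx f
        have h1 : C.rank x.node < r := by
          rw [← hr]
          exact C.rank_lt a x (by rw [hga]; exact hx)
        unfold SC.tr
        rw [smul_node, smul_pos, ih _ h1 x.node f rfl]
      have hagr : ∀ f : Emb (ZMod p) (V p n) M,
          Agr (sp p n (σ • a)) (pull f σ) (pull e σ) ↔ Agr (sp p n a) f e := by
        intro f
        rw [sp_smul, agr_pull]
      have hgood : ∀ (x : Lit C.N) (f : Emb (ZMod p) (V p n) M),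
          Good (sp p n (σ • a) ⊔ sp p n (σ • x).node) (pull f σ) ↔
            Good (sp p n a ⊔ sp p n x.node) f := by
        intro x f
        rw [smul_node, sp_smul, sp_smul, ← im_sup, good_pull]
      constructor
      · intro h x hx f hf hi
        exact (key x hx f).1 (h (σ • x) ⟨x, hx, rfl⟩ (pull f σ) ((hagr f).2 hf)
          ((hgood x f).2 hi))
      · rintro h _ ⟨x, hx, rfl⟩ f' hf hi
        have h2 : pull (pull f' σ⁻¹) σ = f' := pull_pull_inv f' σ
        rw [← h2] at hf hi ⊢
        exact (key x hx _).2 (h x hx _ ((hagr _).1 hf) ((hgood x _).1 hi))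

theorem tr_smul (σ : G p n) (x : Lit C.N) (e : Emb (ZMod p) (V p n) M) :
    C.tr I (σ • x) (pull e σ) ↔ C.tr I x e := by
  unfold SC.tr
  rw [smul_node, smul_pos, val_smul]

end Pool.Agent.H81.GL
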