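import Pool.Agent.H81.GL.CRep

/-!
# Soundness of the rules, part 2

MODULE CRuleB. Compare `Pool/Agent/H93/SY/RuleB.lean`.

`Std C M k` gives `Nice p n k a` for the nodes, `10 k + 10 ≤ n` and `¬ Module.Finite`. Use `valid_of` with
a pair `A'` containing `sp p n Λ`, `Valid.at` for the premises, `dm_sup_le (fd _) (fd _)`.

`sound_andI`. `A' = sp Λ ⊔ sp a`. If `C.val I a e`, `⟨a, true⟩` is a witness. Otherwise by `val_and_iff`
there are `x ∈ S` and `f`, `Agr A' f e`, `Good (A' ⊔ sp x.node) f`, `¬ C.tr I x f`. Let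
`A'' = A' ⊔ sp x.node ⊔ sp (insert x Λ)` (dimension at most `4 k`) and extend `f` to `f'` good on `A''`
(`extend`, file BExt). The premise gives (`Valid.at`) a witness `(y, g)`, `y ∈ insert x Λ`,
`Agr A'' g f'`, `C.tr I y g`. If `y = x`: `C.tr I x g ↔ C.tr I x f` by `tr_congr`, a contradiction. So
`y ∈ Λ`, and this is a witness of `Λ` over `A'`.
`sound_andE`. `A' = sp Λ ⊔ sp a ⊔ sp (Λ ∪ Lit.neg '' S)`. Take the witness `(y, g)` of the premise over
`A'`. If `y ∈ Λ` we are done. If `y = x.neg`, `x ∈ S`: `¬ C.tr I x g` (`tr_neg`), `Agr A' g e`,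
`Good (A' ⊔ sp x.node) g`, so `¬ C.val I a e` by `val_and_iff`, and `⟨a, false⟩` with `e` is a witness.
`sound_hyp`. `A' = sp Λ ⊔ sp x.node`, and `x` with `e` is a witness by `rep_val` with `j = 0`
(`pts (default : Fin 0 → _) = ⊥`: the range is empty; the functions on `Fin 0` are equal by
`Subsingleton.elim`).
-/

set_option autoImplicit false

namespace Pool.Agent.H81.GL

open Module
open scoped Pointwise

variable {Rel : ℕ → Type} {p n k : ℕ} [Fact p.Prime] {C : SC Rel p n} {M : Type}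
  [AddCommGroup M] [Module (ZMod p) M] {I : Interp Rel M}

theorem sound_andI (h : Std C M k) {Λ S : Set (Lit C.N)} (hΛ : Nice p n k Λ) {a : C.N}
    (hS : C.gate a = .and S) (ha : ⟨a, true⟩ ∈ Λ)
    (h1 : ∀ x ∈ S, Nice p n k (insert x Λ : Set (Lit C.N)) ∧ Valid C I (insert x Λ)) :
    Valid C I Λ := by
  have hroom := h.room
  have g0 := hΛ.1
  have g1 := (h.node a).1
  have hu1 := dm_sup_le (fd (sp p n Λ)) (fd (sp p n a))
  refine valid_of (A' := sp p n Λ ⊔ sp p n a) le_sup_left h.inf ?_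
  intro e he
  by_cases hv : C.val I a e
  · exact ⟨⟨a, true⟩, ha, e, Agr.refl _ _, he.mono (sup_le le_rfl le_sup_right), tr_true.2 hv⟩
  · rw [val_and_iff h.node hS le_sup_right (by omega) he] at hv
    push Not at hv
    obtain ⟨x, hx, f, hf, hi, ht⟩ := hv
    obtain ⟨hc1, hval⟩ := h1 x hx
    have g2 := hc1.1
    have g3 := (h.node x.node).1
    have hu2 := dm_sup_le (fd (sp p n Λ ⊔ sp p n a)) (fd (sp p n x.node))
    have hu3 := dm_sup_le (fd (sp p n Λ ⊔ sp p n a ⊔ sp p n x.node))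
      (fd (sp p n (insert x Λ : Set (Lit C.N))))
    obtain ⟨f', hf', hi'⟩ := extend (S := sp p n Λ ⊔ sp p n a ⊔ sp p n x.node)
      (S' := sp p n Λ ⊔ sp p n a ⊔ sp p n x.node ⊔ sp p n (insert x Λ : Set (Lit C.N)))
      le_sup_left (fd _) hi (h.big _)
    obtain ⟨y, hy, g, hg1, hg2, hg3⟩ := Valid.at h.node hc1.2 hval
      (A' := sp p n Λ ⊔ sp p n a ⊔ sp p n x.node ⊔ sp p n (insert x Λ : Set (Lit C.N)))
      le_sup_right (by omega) hi'
    have hgf : Agr (sp p n Λ ⊔ sp p n a ⊔ sp p n x.node) g f :=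
      (hg1.mono le_sup_left).trans hf'
    rcases hy with rfl | hy
    · exfalso
      apply ht
      exact (tr_congr (h.node _) (by omega) (hgf.mono le_sup_right)).1 hg3
    · refine ⟨y, hy, g, (hgf.mono le_sup_left).trans hf, ?_, hg3⟩
      exact hg2.mono (sup_le_sup_right (le_sup_left.trans le_sup_left) _)

theorem sound_andE (h : Std C M k) {Λ S : Set (Lit C.N)} (hΛ : Nice p n k Λ) {a : C.N}
    (hS : C.gate a = .and S) (ha : ⟨a, false⟩ ∈ Λ)
    (h1 : Nice p n k (Λ ∪ Lit.neg '' S : Set (Lit C.N)))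
    (hv : Valid C I (Λ ∪ Lit.neg '' S)) : Valid C I Λ := by
  have hroom := h.room
  have g0 := hΛ.1
  have g1 := (h.node a).1
  have g2 := h1.1
  have hu1 := dm_sup_le (fd (sp p n Λ)) (fd (sp p n a))
  have hu2 := dm_sup_le (fd (sp p n Λ ⊔ sp p n a))
    (fd (sp p n (Λ ∪ Lit.neg '' S : Set (Lit C.N))))
  refine valid_of (A' := sp p n Λ ⊔ sp p n a ⊔ sp p n (Λ ∪ Lit.neg '' S : Set (Lit C.N)))
    (le_sup_left.trans le_sup_left) h.inf ?_
  intro e he
  obtain ⟨y, hy, g, hg1, hg2, hg3⟩ := Valid.at h.node h1.2 hv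
    (A' := sp p n Λ ⊔ sp p n a ⊔ sp p n (Λ ∪ Lit.neg '' S : Set (Lit C.N)))
    le_sup_right (by omega) he
  rcases hy with hy | ⟨x, hx, rfl⟩
  · exact ⟨y, hy, g, hg1, hg2, hg3⟩
  · have hnv : ¬ C.val I a e := by
      intro hva
      rw [val_and_iff h.node hS
        (A' := sp p n Λ ⊔ sp p n a ⊔ sp p n (Λ ∪ Lit.neg '' S : Set (Lit C.N)))
        (le_sup_right.trans le_sup_left) (by omega) he] at hva
      exact (tr_neg.1 hg3) (hva x hx g hg1 hg2)
    exact ⟨⟨a, false⟩, ha, e, Agr.refl _ _,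
      he.mono (sup_le le_rfl (le_sup_right.trans le_sup_left)), tr_false.2 hnv⟩

theorem sound_hyp (h : Std C M k) {r : ℕ} {ψ : Fml p Rel 0} (hr : qd ψ ≤ r)
    (hn : 3 * k + 2 * r + 5 ≤ n) (hψ : ψ.Real I default) {Λ : Set (Lit C.N)}
    (hΛ : Nice p n k Λ) {x : Lit C.N} (hx : C.Rep ψ default x) (hxΛ : x ∈ Λ) :
    Valid C I Λ := by
  have hroom := h.room
  have g0 := hΛ.1
  have g1 := (h.node x.node).1
  have hu1 := dm_sup_le (fd (sp p n Λ)) (fd (sp p n x.node))
  refine valid_of (A' := sp p n Λ ⊔ sp p n x.node) le_sup_left h.inf ?_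
  intro e he
  have hp : pts (default : Fin 0 → V p n) = ⊥ := by
    unfold pts
    rw [Set.range_eq_empty, Submodule.span_empty]
    rfl
  have he1 : Good (sp p n x.node ⊔ pts (default : Fin 0 → V p n)) e := by
    rw [hp, sup_bot_eq]
    exact he.mono le_sup_right
  have h2 := rep_val (I := I) h.node hn h.inf ψ (by omega) (default : Fin 0 → V p n) x hx e he1
  have h3 : C.tr I x e := by
    rw [h2, Subsingleton.elim (fun i => e.1 ((default : Fin 0 → V p n) i)) default]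
    exact hψ
  exact ⟨x, hxΛ, e, Agr.refl _ _, he.mono (sup_le le_rfl le_sup_right), h3⟩

end Pool.Agent.H81.GL
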