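import Pool.Agent.H81.GL.CRuleA
import Pool.Agent.H81.GL.CRuleB
import Pool.Agent.H81.GL.Act

/-!
# The lower bound for refutations symmetric under the whole group

MODULE CLower. Compare `Pool/Agent/H93/SY/Lower.lean` (`step_sound`, `lower_sum`).

`step_sound`: by cases on the rule, `sound_hyp`, `sound_ident`, ...

`lower_sym`. Suppose `R.size < p ^ (k * n / 4)`. `hR` gives an action of `(⊤ : Subgroup (G p n))` on
`R.C.N`; make it an action of `G p n` (`MulAction.compHom R.C.N (Subgroup.topEquiv.symm).toMonoidHom`,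
or by hand with `⟨σ, Subgroup.mem_top σ⟩`), so that `C := { R.C with mact := .., gate_smul := .. } :
SC Rel p n` and the set of the lines is closed under `σ • ·` (pointwise; `smul_set_eq`). Put
`K = 8 * k + 2`. Nodes: the orbit of a node is a subset of `univ`, so its `ncard` is at most
`Nat.card R.C.N ≤ R.size` (`Set.ncard_le_ncard`, `Set.ncard_univ`); `nice_of_orbit` gives `Nice p n K a`
(`T ≤ stabilizer` is `Fixes`: `MulAction.mem_stabilizer_iff`; `sp = supp`). Lines: the orbit of `Λ` is a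
subset of `R.lines`, which is finite (`Lit C.N` is finite: it is equivalent to `C.N × Bool`), the same.
So `Std C M K`. By strong induction on `R.order Λ` all lines are valid (`step_sound`, `R.step`). So `∅` is
valid; there is `e` good on `sp p n ∅` (`extend` with `S = ⊥`, `good_bot`, `fd`), and `Wit` of `∅` is
impossible.
-/

set_option autoImplicit false

namespace Pool.Agent.H81.GL

open Module
open scoped Pointwise

variable {Rel : ℕ → Type} {p n : ℕ} [Fact p.Prime]

theorem step_sound {k r : ℕ} {C : SC Rel p n} {M : Type} [AddCommGroup M]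
    [Module (ZMod p) M] {I : Interp Rel M} (h : Std C M k) {ψ : Fml p Rel 0} (hr : qd ψ ≤ r)
    (hn : 3 * k + 2 * r + 5 ≤ n) (hψ : ψ.Real I default) {P : Set (Set (Lit C.N))}
    (hP : ∀ Δ ∈ P, Nice p n k Δ ∧ Valid C I Δ) {Λ : Set (Lit C.N)} (hΛ : Nice p n k Λ)
    (hs : Step ψ C.toCircuit P Λ) : Valid C I Λ := by
  cases hs with
  | hyp hx hxΛ => exact sound_hyp h hr hn hψ hΛ hx hxΛ
  | ident hab ha hb => exact sound_ident h hΛ hab ha hb
  | weak hΔ hs => exact sound_weak h hΛ (hP _ hΔ).1 (hP _ hΔ).2 hs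
  | cut h1 h2 => exact sound_cut h hΛ (hP _ h1).1 (hP _ h2).1 (hP _ h1).2 (hP _ h2).2
  | andI hS ha h1 => exact sound_andI h hΛ hS ha fun x hx => hP _ (h1 x hx)
  | andE hS ha h1 => exact sound_andE h hΛ hS ha (hP _ h1).1 (hP _ h1).2

theorem lower_sym (ψ : Fml p Rel 0) (M : Type) [AddCommGroup M] [Module (ZMod p) M]
    (hinf : ¬ Module.Finite (ZMod p) M) (I : Interp Rel M) (hψ : ψ.Real I default) {n k : ℕ}
    (hn : 2 * qd ψ + 40 + 128 * k ≤ n) (R : Refutation ψ n) (hR : R.SymmM ⊤) :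
    p ^ (k * n / 4) ≤ R.size := by
  by_contra hlt
  push Not at hlt
  obtain ⟨hact, hg, hl⟩ := hR
  let act0 : MulAction (G p n) R.C.N :=
    { smul := fun σ a => (⟨σ, Subgroup.mem_top σ⟩ : (⊤ : Subgroup (G p n))) • a
      one_smul := fun a => one_smul (⊤ : Subgroup (G p n)) a
      mul_smul := fun σ τ a =>
        mul_smul (⟨σ, Subgroup.mem_top σ⟩ : (⊤ : Subgroup (G p n)))
          (⟨τ, Subgroup.mem_top τ⟩ : (⊤ : Subgroup (G p n))) a }
  let C : SC Rel p n :=
    { toCircuit := R.C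
      mact := act0
      gate_smul := fun σ a => hg ⟨σ, Subgroup.mem_top σ⟩ a }
  have hLit : Finite (Lit R.C.N) :=
    Finite.of_injective (fun x : Lit R.C.N => (x.node, x.pos)) fun x y hxy =>
      Lit.ext (Prod.mk.inj hxy).1 (Prod.mk.inj hxy).2
  have hfin : R.lines.Finite := Set.toFinite _
  have hN : Nat.card R.C.N ≤ R.size := Nat.le_add_right _ _
  have hL : R.lines.ncard ≤ R.size := Nat.le_add_left _ _
  have hnode : ∀ a : C.N, Nice p n (8 * k + 2) a := by
    intro a
    have h3 : (MulAction.orbit (G p n) a).ncard ≤ Nat.card R.C.N := by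
      rw [← Set.ncard_univ]
      exact Set.ncard_le_ncard (Set.subset_univ _) (Set.toFinite _)
    obtain ⟨h4, h5⟩ := nice_of_orbit (p := p) (n := n) (k := k) a (by omega) (by omega)
    exact ⟨h4, fun σ hσ => MulAction.mem_stabilizer_iff.1 (h5 hσ)⟩
  have hline : ∀ Λ : Set (Lit C.N), Λ ∈ R.lines → Nice p n (8 * k + 2) Λ := by
    intro Λ hΛ
    have h3 : (MulAction.orbit (G p n) Λ).ncard ≤ R.lines.ncard := by
      apply Set.ncard_le_ncard _ hfin
      rintro _ ⟨σ, rfl⟩
      exact hl ⟨σ, Subgroup.mem_top σ⟩ Λ hΛ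
    obtain ⟨h4, h5⟩ := nice_of_orbit (p := p) (n := n) (k := k) Λ (by omega) (by omega)
    exact ⟨h4, fun σ hσ => MulAction.mem_stabilizer_iff.1 (h5 hσ)⟩
  have hstd : Std C M (8 * k + 2) := ⟨by omega, hinf, hnode⟩
  have hval : ∀ t, ∀ Λ : Set (Lit C.N), Λ ∈ R.lines → R.order Λ = t → Valid C I Λ := by
    intro t
    induction t using Nat.strong_induction_on with
    | _ t ih =>
      intro Λ hΛ ht
      refine step_sound hstd (r := qd ψ) le_rfl (by omega) hψ ?_ (hline Λ hΛ) (R.step Λ hΛ)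
      rintro Δ ⟨hΔ, hlt⟩
      exact ⟨hline Δ hΔ, ih _ (ht ▸ hlt) Δ hΔ rfl⟩
  have h3 := hval _ ∅ R.empty_mem rfl
  obtain ⟨e, -, he⟩ := extend (S := (⊥ : Sp (ZMod p) (V p n)))
    (S' := sp p n (∅ : Set (Lit C.N))) bot_le (fd _) (good_bot (0 : Emb (ZMod p) (V p n) M))
    (Or.inl hinf)
  obtain ⟨x, hx, -⟩ := h3 e he
  exact hx

end Pool.Agent.H81.GL
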