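import Pool.Agent.H81.GL.CTransfer

/-!
# The nodes representing a formula have the value of the formula in the model

MODULE CRep. Compare `Pool/Agent/H93/SY/Rep.lean` (here everything is shorter).

`pts v` is the pair (span of the values of `v`, 0). `pts_dm`: `finrank_range_le_card`/
`finrank_span_le_card`. `pts_snoc`: the values of `Fin.snoc v b` are those of `v` and `b`
(`Fin.lastCases`, `Fin.snoc_last`, `Fin.snoc_castSucc`; `Submodule.span_le`). `tv_map`: `map_sum`,
`map_smul`. `tv_mem`: `Submodule.sum_mem`, `Submodule.smul_mem`, `Submodule.subset_span`.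
`snoc_map`: `Fin.lastCases`.

`rep_val`. Induction on `φ` for all `v x e`, with the hypothesis `j + qd φ ≤ r`. Let `g = x.node`.
Extensions in `M` exist by `extend` (file BExt) because `M` is infinite-dimensional (`Or.inl hinf`).
- `falsum`: `x.pos = false`, the gate is `and ∅`, so `C.val I g e` holds (`val_and`).
- `eq t`: the gate is `and ∅`, so `C.val I g e` holds and `C.tr I x e ↔ x.pos = true ↔ tv v t = 0`;
  `tv (fun i => e.1 (v i)) t = e.1 (tv v t)` and `tv v t ∈ (pts v).1`, so this is `0` if and only if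
  `tv v t = 0` (`he.1`).
- `rel R t`: `val_var`, `tv_map`.
- `imp φ θ`: the gate of `g` is `and {y, z.neg}`, `x.pos = false`, `C.tr I x e ↔ ¬ C.val I g e`. Put
  `A' = sp g ⊔ pts v`, `dm A' ≤ k + j`. By `val_and_iff`, `C.val I g e` iff for `w = y` and `w = z.neg` and all
  `f` with `Agr A' f e`, `Good (A' ⊔ sp w.node) f`: `C.tr I w f`. By the induction hypotheses
  `C.tr I y f ↔ φ.Real I (f.1 ∘ v)` and `f.1 ∘ v = e.1 ∘ v` (`f` is good on `sp y.node ⊔ pts v`), the same
  for `z` (`tr_neg`; `(z.neg).node = z.node`). At least one such `f` exists for `w = y`, and one for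
  `w = z.neg` (`extend`). So `C.val I g e ↔ φ ∧ ¬ θ`.
- `all φ`: the gate of `g` is `and S`. Put `A' = sp g ⊔ pts v`, `dm A' ≤ k + j`.
  (→) Let `y : M`. By `back` (file BExt, `Rm K E (dm A' + 1)` from `finrank_V`) there are `b` and `e'` with
  `Agr A' e' e`, `e'.1 b = y`, `Good (A' ⊔ vc b) e'`. Take `w ∈ S` with `C.Rep φ (Fin.snoc v b) w` and
  extend `e'` to `f` good on `A' ⊔ vc b ⊔ sp w.node`. Then `C.tr I w f` (`Agr A' f e`), and by the
  induction hypothesis (`pts_snoc`) `φ.Real I (f.1 ∘ Fin.snoc v b)`, which is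
  `Fin.snoc (e.1 ∘ v) y` (`snoc_map`).
  (←) Let `w ∈ S`, `f` with `Agr A' f e`, `Good (A' ⊔ sp w.node) f`. There is `b` with
  `C.Rep φ (Fin.snoc v b) w`. Extend `f` to `f'` good on `A' ⊔ sp w.node ⊔ vc b`; `C.tr I w f ↔
  C.tr I w f'` (`tr_congr`), and the induction hypothesis gives `C.tr I w f' ↔
  φ.Real I (Fin.snoc (e.1 ∘ v) (f'.1 b))`.
-/

set_option autoImplicit false

namespace Pool.Agent.H81.GL

open Module
open scoped Pointwise

variable {Rel : ℕ → Type} {p n : ℕ}

/-- Quantifier depth. -/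
def qd : ∀ {j : ℕ}, Fml p Rel j → ℕ
  | _, .falsum => 0
  | _, .eq _ => 0
  | _, .rel _ _ => 0
  | _, .imp φ θ => max (qd φ) (qd θ)
  | _, .all φ => qd φ + 1

theorem tv_map {E F : Type} [AddCommGroup E] [Module (ZMod p) E] [AddCommGroup F]
    [Module (ZMod p) F] (f : E →ₗ[ZMod p] F) {j : ℕ} (v : Fin j → E) (t : Fin j → ZMod p) :
    tv (fun i => f (v i)) t = f (tv v t) := by
  unfold tv
  rw [map_sum]
  exact Finset.sum_congr rfl fun i _ => (map_smul f (t i) (v i)).symm

theorem snoc_map {P Q : Type} (f : P → Q) {j : ℕ} (v : Fin j → P) (b : P) :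
    (fun i => f ((Fin.snoc v b : Fin (j + 1) → P) i)) =
      (Fin.snoc (fun i => f (v i)) (f b) : Fin (j + 1) → Q) := by
  funext i
  refine Fin.lastCases ?_ (fun i => ?_) i
  · simp
  · simp

variable [Fact p.Prime]

/-- The pair of the span of the values of `v` and zero. -/
def pts {j : ℕ} (v : Fin j → V p n) : Sp (ZMod p) (V p n) :=
  (Submodule.span (ZMod p) (Set.range v), ⊥)

theorem pts_dm {j : ℕ} (v : Fin j → V p n) : dm (pts v) ≤ j := by
  have h1 : finrank (ZMod p) (Submodule.span (ZMod p) (Set.range v)) ≤ j := by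
    have h2 := finrank_range_le_card (R := ZMod p) v
    rwa [Fintype.card_fin] at h2
  show finrank (ZMod p) (Submodule.span (ZMod p) (Set.range v)) +
    finrank (ZMod p) (⊥ : Submodule (ZMod p) (Dual (ZMod p) (V p n))) ≤ j
  rw [finrank_bot]
  omega

theorem pts_snoc {j : ℕ} (v : Fin j → V p n) (b : V p n) :
    pts (Fin.snoc v b : Fin (j + 1) → V p n) ≤ pts v ⊔ vc b := by
  refine ⟨?_, bot_le⟩
  show Submodule.span (ZMod p) (Set.range (Fin.snoc v b : Fin (j + 1) → V p n)) ≤
    Submodule.span (ZMod p) (Set.range v) ⊔ Submodule.span (ZMod p) {b}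
  rw [Submodule.span_le]
  rintro _ ⟨i, rfl⟩
  refine Fin.lastCases ?_ (fun i => ?_) i
  · rw [Fin.snoc_last]
    exact Submodule.mem_sup_right (Submodule.mem_span_singleton_self b)
  · rw [Fin.snoc_castSucc]
    exact Submodule.mem_sup_left (Submodule.subset_span ⟨i, rfl⟩)

theorem tv_mem {j : ℕ} (v : Fin j → V p n) (t : Fin j → ZMod p) : tv v t ∈ (pts v).1 := by
  unfold tv
  exact Submodule.sum_mem _ fun i _ => Submodule.smul_mem _ _ (Submodule.subset_span ⟨i, rfl⟩)

private theorem pts_val {M : Type} [AddCommGroup M] [Module (ZMod p) M] {j : ℕ}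
    {v : Fin j → V p n} {e f : Emb (ZMod p) (V p n) M} (h : Agr (pts v) f e) :
    (fun i => f.1 (v i)) = fun i => e.1 (v i) := by
  funext i
  exact h.1 _ (Submodule.subset_span ⟨i, rfl⟩)

theorem rep_val {C : SC Rel p n} {M : Type} [AddCommGroup M] [Module (ZMod p) M]
    {I : Interp Rel M} {k r : ℕ} (hnode : ∀ a : C.N, Nice p n k a) (hn : 3 * k + 2 * r + 5 ≤ n)
    (hinf : ¬ Module.Finite (ZMod p) M) {j : ℕ} (φ : Fml p Rel j) (hr : j + qd φ ≤ r)
    (v : Fin j → V p n) (x : Lit C.N) (hx : C.Rep φ v x) (e : Emb (ZMod p) (V p n) M)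
    (he : Good (sp p n x.node ⊔ pts v) e) :
    C.tr I x e ↔ φ.Real I (fun i => e.1 (v i)) := by
  have hcong : ∀ (y : Lit C.N) (f f' : Emb (ZMod p) (V p n) M), Agr (sp p n y.node) f f' →
      (C.tr I y f ↔ C.tr I y f') := by
    intro y f f' h
    exact tr_congr (hnode y.node) (by omega) h
  have hext : ∀ (A A' : Sp (ZMod p) (V p n)), A ≤ A' → ∀ f : Emb (ZMod p) (V p n) M,
      Good A f → ∃ g : Emb (ZMod p) (V p n) M, Agr A g f ∧ Good A' g := by
    intro A A' hA f hf
    exact extend hA (fd A') hf (Or.inl hinf)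
  have hdm : ∀ {j : ℕ} (g : C.N) (v : Fin j → V p n), dm (sp p n g ⊔ pts v) ≤ k + j := by
    intro j g v
    exact (dm_sup_le (fd _) (fd _)).trans (Nat.add_le_add (hnode g).1 (pts_dm v))
  induction φ generalizing x e with
  | falsum =>
    obtain ⟨h1, h2⟩ := hx
    have hv : C.val I x.node e := (val_and h2 e).2 (fun y hy => absurd hy (Set.notMem_empty y))
    unfold SC.tr
    rw [h1]
    constructor
    · intro h
      exact absurd (h.1 hv) (by simp)
    · intro h
      exact h.elim
  | eq t =>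
    obtain ⟨h1, h2⟩ := hx
    have hv : C.val I x.node e := (val_and h2 e).2 (fun y hy => absurd hy (Set.notMem_empty y))
    have h3 : C.tr I x e ↔ tv v t = 0 := by
      unfold SC.tr
      rw [← h1]
      exact ⟨fun h => h.1 hv, fun h => ⟨fun _ => h, fun _ => hv⟩⟩
    rw [h3]
    show _ ↔ tv (fun i => e.1 (v i)) t = 0
    rw [tv_map]
    constructor
    · intro h
      rw [h, map_zero]
    · intro h
      exact he.1 _ (Submodule.mem_sup_right (tv_mem v t)) h
  | rel R t =>
    obtain ⟨h1, h2⟩ := hx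
    unfold SC.tr
    rw [val_var h2, h1]
    show _ ↔ I _ R (fun i => tv (fun i => e.1 (v i)) (t i))
    have h3 : (fun i => tv (fun i => e.1 (v i)) (t i)) = fun i => e.1 (tv v (t i)) := by
      funext i
      rw [tv_map]
    rw [h3]
    simp
  | @imp j φ θ ih1 ih2 =>
    obtain ⟨h1, y, z, hy, hz, h2⟩ := hx
    have hq : qd (φ.imp θ) = max (qd φ) (qd θ) := rfl
    rw [hq] at hr
    obtain ⟨A', hA'⟩ : ∃ A', A' = sp p n x.node ⊔ pts v := ⟨_, rfl⟩
    have hAd := hdm x.node v
    rw [← hA'] at hAd he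
    have hA1 : sp p n x.node ≤ A' := by rw [hA']; exact le_sup_left
    have hA2 : pts v ≤ A' := by rw [hA']; exact le_sup_right
    have hval := val_and_iff (I := I) hnode h2 (A' := A') hA1 (by omega) he
    have hy' : ∀ f : Emb (ZMod p) (V p n) M, Agr A' f e → Good (A' ⊔ sp p n y.node) f →
        (C.tr I y f ↔ φ.Real I (fun i => e.1 (v i))) := by
      intro f hf hi
      have h9 : C.tr I y f ↔ φ.Real I (fun i => f.1 (v i)) :=
        ih1 (by omega) v y hy f (hi.mono (sup_le le_sup_right (hA2.trans le_sup_left)))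
      rw [h9, pts_val (hf.mono hA2)]
    have hz' : ∀ f : Emb (ZMod p) (V p n) M, Agr A' f e → Good (A' ⊔ sp p n z.node) f →
        (C.tr I z f ↔ θ.Real I (fun i => e.1 (v i))) := by
      intro f hf hi
      have h9 : C.tr I z f ↔ θ.Real I (fun i => f.1 (v i)) :=
        ih2 (by omega) v z hz f (hi.mono (sup_le le_sup_right (hA2.trans le_sup_left)))
      rw [h9, pts_val (hf.mono hA2)]
    have h5 : C.tr I x e ↔ ¬ C.val I x.node e := by
      unfold SC.tr
      rw [h1]
      simp
    rw [h5, hval]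
    show _ ↔ (φ.Real I (fun i => e.1 (v i)) → θ.Real I (fun i => e.1 (v i)))
    constructor
    · intro h h6
      by_contra h7
      apply h
      intro w hw f hf hi
      rcases hw with rfl | rfl
      · exact (hy' f hf hi).2 h6
      · exact tr_neg.2 (fun h8 => h7 ((hz' f hf hi).1 h8))
    · intro h h6
      obtain ⟨f, hf, hfi⟩ := hext A' (A' ⊔ sp p n y.node) le_sup_left e he
      have h7 := h ((hy' f hf hfi).1 (h6 y (Set.mem_insert _ _) f hf hfi))
      obtain ⟨g, hg, hgi⟩ := hext A' (A' ⊔ sp p n z.node) le_sup_left e he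
      have h8 := h6 z.neg (Set.mem_insert_of_mem _ rfl) g hg hgi
      exact (tr_neg.1 h8) ((hz' g hg hgi).2 h7)
  | @all j φ ih =>
    obtain ⟨h1, S, h2, hS1, hS2⟩ := hx
    have hq : qd φ.all = qd φ + 1 := rfl
    rw [hq] at hr
    obtain ⟨A', hA'⟩ : ∃ A', A' = sp p n x.node ⊔ pts v := ⟨_, rfl⟩
    have hAd := hdm x.node v
    rw [← hA'] at hAd he
    have hA1 : sp p n x.node ≤ A' := by rw [hA']; exact le_sup_left
    have hA2 : pts v ≤ A' := by rw [hA']; exact le_sup_right
    have hval := val_and_iff (I := I) hnode h2 (A' := A') hA1 (by omega) he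
    have h5 : C.tr I x e ↔ C.val I x.node e := by
      unfold SC.tr
      rw [h1]
      simp
    -- the value of a child
    have key : ∀ (b : V p n) (w : Lit C.N), C.Rep φ (Fin.snoc v b) w →
        ∀ f : Emb (ZMod p) (V p n) M, Agr A' f e → Good (A' ⊔ vc b ⊔ sp p n w.node) f →
        (C.tr I w f ↔
          φ.Real I (Fin.snoc (fun i => e.1 (v i)) (f.1 b) : Fin (j + 1) → M)) := by
      intro b w hw f hf hi
      have h6 : Good (sp p n w.node ⊔ pts (Fin.snoc v b : Fin (j + 1) → V p n)) f := by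
        refine hi.mono (sup_le le_sup_right (le_trans ?_ le_sup_left))
        exact (pts_snoc v b).trans (sup_le_sup_right hA2 _)
      have h9 : C.tr I w f ↔
          φ.Real I (fun i => f.1 ((Fin.snoc v b : Fin (j + 1) → V p n) i)) :=
        ih (by omega) (Fin.snoc v b) w hw f h6
      rw [h9, snoc_map, pts_val (hf.mono hA2)]
    rw [h5, hval]
    show _ ↔ ∀ y : M, φ.Real I (Fin.snoc (fun i => e.1 (v i)) y : Fin (j + 1) → M)
    constructor
    · intro h6 y
      obtain ⟨b, e', h7, h8, h9⟩ := back (fd A') he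
        (Or.inr (by rw [finrank_V]; omega)) y
      obtain ⟨w, hwS, hw⟩ := hS1 b
      obtain ⟨f, hf, hfi⟩ := hext (A' ⊔ vc b) (A' ⊔ vc b ⊔ sp p n w.node) le_sup_left e' h9
      have hfe : Agr A' f e := (hf.mono le_sup_left).trans h7
      have h10 := h6 w hwS f hfe (hfi.mono (sup_le_sup_right le_sup_left _))
      have h11 := (key b w hw f hfe hfi).1 h10
      have h12 : f.1 b = y := by
        rw [hf.1 b (le_sup_vc_fst A' b), h8]
      rwa [h12] at h11
    · intro h6 w hw f hf hfi
      obtain ⟨b, hb⟩ := hS2 w hw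
      obtain ⟨g, hg, hgi⟩ := hext (A' ⊔ sp p n w.node) (A' ⊔ vc b ⊔ sp p n w.node)
        (sup_le_sup_right le_sup_left _) f hfi
      rw [hcong w f g (hg.mono le_sup_right).symm]
      exact (key b w hb g ((hg.mono le_sup_left).trans hf) hgi).2 (h6 _)

end Pool.Agent.H81.GL
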