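import Pool.Agent.H81.GL.CTransfer

/-!
# Soundness of the rules, part 1

MODULE CRuleA. Compare `Pool/Agent/H93/SY/RuleA.lean`.

`Std C M k` gives `Nice p n k a` for the nodes, `10 k + 10 ≤ n` and `¬ Module.Finite`. Use `valid_of` with
a pair `A'` containing `sp p n Λ`, `Valid.at` for the premises, `dm_sup_le (fd _) (fd _)`.

`val_eq_of_gate_eq`. By cases on the common label: variable: `val_var`; conjunction: `val_and_iff` for
both with the same `A'`.
`sound_ident`. `A' = sp Λ ⊔ sp a ⊔ sp b`, `e` good on `A'`. By `val_eq_of_gate_eq`,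
`C.val I a e ↔ C.val I b e`. If it is true, `⟨a, true⟩` with `f = e` is a witness (`sp a ≤ A'`, so
`A' ⊔ sp a = A'`), otherwise `⟨b, false⟩` with `f = e` (`tr_true`, `tr_false`).
`sound_weak`. `A' = sp Λ ⊔ sp Δ`, `Valid.at`, `Wit.mono`.
`sound_cut`. `A' = sp Λ ⊔ sp Δ₁ ⊔ sp Δ₂ ⊔ sp a`, `Δ₁ = insert ⟨a, true⟩ Λ`, `Δ₂ = insert ⟨a, false⟩ Λ`
(dimension at most `4 k`, `2 * (4 k) + k + 3 ≤ n`). If `C.val I a e` holds take the witness `(x, f)` of
`Δ₂` over `A'`: if `x = ⟨a, false⟩` then `¬ C.val I a f`, but `f = e` on `sp a ≤ A'` (`val_congr`), a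
contradiction; so `x ∈ Λ`. Otherwise use `Δ₁`.
-/

set_option autoImplicit false

namespace Pool.Agent.H81.GL

open Module
open scoped Pointwise

variable {Rel : ℕ → Type} {p n k : ℕ} [Fact p.Prime] {C : SC Rel p n} {M : Type}
  [AddCommGroup M] [Module (ZMod p) M] {I : Interp Rel M}

theorem val_eq_of_gate_eq (h : Std C M k) {a b : C.N} (hab : C.gate a = C.gate b)
    {A' : Sp (ZMod p) (V p n)} (ha : sp p n a ≤ A') (hb : sp p n b ≤ A') (hA' : dm A' ≤ 4 * k)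
    {e : Emb (ZMod p) (V p n) M} (he : Good A' e) : C.val I a e ↔ C.val I b e := by
  have hroom := h.room
  cases hg : C.gate b with
  | var v =>
    rw [hg] at hab
    rw [val_var hab, val_var hg]
  | and S =>
    rw [hg] at hab
    rw [val_and_iff h.node hab ha (by omega) he, val_and_iff h.node hg hb (by omega) he]

theorem sound_ident (h : Std C M k) {Λ : Set (Lit C.N)} (hΛ : Nice p n k Λ) {a b : C.N}
    (hab : C.gate a = C.gate b) (ha : ⟨a, true⟩ ∈ Λ) (hb : ⟨b, false⟩ ∈ Λ) : Valid C I Λ := by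
  have h0 := hΛ.1
  have h1 := (h.node a).1
  have h2 := (h.node b).1
  have h3 := dm_sup_le (fd (sp p n Λ ⊔ sp p n a)) (fd (sp p n b))
  have h4 := dm_sup_le (fd (sp p n Λ)) (fd (sp p n a))
  have ha' : sp p n a ≤ sp p n Λ ⊔ sp p n a ⊔ sp p n b := le_sup_right.trans le_sup_left
  have hb' : sp p n b ≤ sp p n Λ ⊔ sp p n a ⊔ sp p n b := le_sup_right
  refine valid_of (A' := sp p n Λ ⊔ sp p n a ⊔ sp p n b) (le_sup_left.trans le_sup_left) h.inf ?_
  intro e he
  have h5 : C.val I a e ↔ C.val I b e := val_eq_of_gate_eq h hab ha' hb' (by omega) he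
  by_cases hv : C.val I a e
  · exact ⟨⟨a, true⟩, ha, e, Agr.refl _ _, he.mono (sup_le le_rfl ha'), tr_true.2 hv⟩
  · exact ⟨⟨b, false⟩, hb, e, Agr.refl _ _, he.mono (sup_le le_rfl hb'),
      tr_false.2 fun hb => hv (h5.2 hb)⟩

theorem sound_weak (h : Std C M k) {Λ Δ : Set (Lit C.N)} (hΛ : Nice p n k Λ)
    (hΔ : Nice p n k Δ) (hv : Valid C I Δ) (hs : Δ ⊆ Λ) : Valid C I Λ := by
  have hroom := h.room
  have h1 := hΛ.1
  have h2 := hΔ.1
  have h3 := dm_sup_le (fd (sp p n Λ)) (fd (sp p n Δ))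
  refine valid_of (A' := sp p n Λ ⊔ sp p n Δ) le_sup_left h.inf ?_
  intro e he
  have h4 : Wit C I Δ (sp p n Λ ⊔ sp p n Δ) e := hv.at h.node hΔ.2 le_sup_right (by omega) he
  exact h4.mono hs le_rfl (Agr.refl _ _)

theorem sound_cut (h : Std C M k) {Λ : Set (Lit C.N)} (hΛ : Nice p n k Λ) {a : C.N}
    (h1 : Nice p n k (insert ⟨a, true⟩ Λ : Set (Lit C.N)))
    (h2 : Nice p n k (insert ⟨a, false⟩ Λ : Set (Lit C.N)))
    (v1 : Valid C I (insert ⟨a, true⟩ Λ)) (v2 : Valid C I (insert ⟨a, false⟩ Λ)) :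
    Valid C I Λ := by
  have hroom := h.room
  have g0 := hΛ.1
  have g1 := h1.1
  have g2 := h2.1
  have g3 := (h.node a).1
  obtain ⟨A', hA'⟩ : ∃ A', A' = sp p n Λ ⊔ sp p n (insert ⟨a, true⟩ Λ : Set (Lit C.N)) ⊔
      sp p n (insert ⟨a, false⟩ Λ : Set (Lit C.N)) ⊔ sp p n a := ⟨_, rfl⟩
  have hc : dm A' ≤ 4 * k := by
    rw [hA']
    have h3 := dm_sup_le (fd (sp p n Λ ⊔ sp p n (insert ⟨a, true⟩ Λ : Set (Lit C.N)) ⊔
      sp p n (insert ⟨a, false⟩ Λ : Set (Lit C.N)))) (fd (sp p n a))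
    have h4 := dm_sup_le (fd (sp p n Λ ⊔ sp p n (insert ⟨a, true⟩ Λ : Set (Lit C.N))))
      (fd (sp p n (insert ⟨a, false⟩ Λ : Set (Lit C.N))))
    have h5 := dm_sup_le (fd (sp p n Λ)) (fd (sp p n (insert ⟨a, true⟩ Λ : Set (Lit C.N))))
    omega
  have hs0 : sp p n Λ ≤ A' := by
    rw [hA']
    exact le_sup_left.trans (le_sup_left.trans le_sup_left)
  have hs1 : sp p n (insert ⟨a, true⟩ Λ : Set (Lit C.N)) ≤ A' := by
    rw [hA']
    exact le_sup_right.trans (le_sup_left.trans le_sup_left)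
  have hs2 : sp p n (insert ⟨a, false⟩ Λ : Set (Lit C.N)) ≤ A' := by
    rw [hA']
    exact le_sup_right.trans le_sup_left
  have hsa : sp p n a ≤ A' := by
    rw [hA']
    exact le_sup_right
  refine valid_of (A' := A') hs0 h.inf ?_
  intro e he
  by_cases hv : C.val I a e
  · obtain ⟨x, hx, f, h3, h4, h5⟩ := v2.at h.node h2.2 hs2 (by omega) he
    rcases Set.mem_insert_iff.1 hx with rfl | hx
    · exfalso
      exact (tr_false.1 h5) ((val_congr (h.node a) (by omega) (h3.mono hsa).symm).1 hv)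
    · exact ⟨x, hx, f, h3, h4, h5⟩
  · obtain ⟨x, hx, f, h3, h4, h5⟩ := v1.at h.node h1.2 hs1 (by omega) he
    rcases Set.mem_insert_iff.1 hx with rfl | hx
    · exfalso
      exact hv ((val_congr (h.node a) (by omega) (h3.mono hsa)).1 (tr_true.1 h5))
    · exact ⟨x, hx, f, h3, h4, h5⟩

end Pool.Agent.H81.GL
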