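import Pool.Agent.H81.GL.BMove
import Pool.Agent.H81.GL.CCongr
import Pool.Agent.H81.GL.CEqui

/-!
# Moving a witness

MODULE CTransfer. Compare `Pool/Agent/H93/SY/Transfer.lean` (from `transfer` on).

`transfer`. Let `x ∈ S`, `f` be given and `B = sp p n x.node`, `dm B ≤ k`. `move` (file BMove; `finrank_V`,
`dm_sup_le`, `dm_mono`) gives `σ ∈ T A` and `f'` with `Agr A' f' e`, `Good (A' ⊔ im (act σ) B) f'`,
`Agr B (pull f' σ⁻¹) f`. Take `σ • x` (it is in `S` because `σ • S = S` by `hS` and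
`Set.smul_mem_smul_set`) and `f'`: `sp p n (σ • x).node = im (act σ) B` (`smul_node`, `sp_smul`);
`Q x (pull f' σ⁻¹)` by `hQ` (`Agr.symm`), so `Q (σ • x) (pull (pull f' σ⁻¹) σ)`, which is
`Q (σ • x) f'` (`pull_pull_inv`).

`Wit.up`: `transfer` with `Q = fun x f => C.tr I x f` (`tr_congr`, `tr_smul`).

`val_and_iff`. (→) `val_and`, `Agr.mono`, `Good.mono`. (←) by contradiction, `transfer` with
`A = sp p n a` (`fixes_and`) and `Q x f = ¬ C.tr I x f`.

`Valid.at`: `Wit.up`. `valid_of`: given `e` good on `sp p n Λ` extend it to `A'` (`extend`, file BExt, `fd`,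
`Or.inl hinf`), apply `h` and `Wit.mono`.
-/

set_option autoImplicit false

namespace Pool.Agent.H81.GL

open Module
open scoped Pointwise

variable {Rel : ℕ → Type} {p n : ℕ} [Fact p.Prime] {C : SC Rel p n} {M : Type}
  [AddCommGroup M] [Module (ZMod p) M] {I : Interp Rel M}

theorem transfer {k : ℕ} (hnode : ∀ a : C.N, Nice p n k a) {S : Set (Lit C.N)}
    {A A' : Sp (ZMod p) (V p n)} (hS : Fixes A S) (hA : A ≤ A') (hA' : 2 * dm A' + k + 3 ≤ n)
    {e : Emb (ZMod p) (V p n) M} (he : Good A' e)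
    {Q : Lit C.N → Emb (ZMod p) (V p n) M → Prop}
    (hQ : ∀ x f f', Agr (sp p n x.node) f f' → Q x f → Q x f')
    (hQσ : ∀ (σ : G p n) x f, Q x f → Q (σ • x) (pull f σ))
    (h : ∃ x ∈ S, ∃ f : Emb (ZMod p) (V p n) M, Agr A f e ∧ Good (A ⊔ sp p n x.node) f ∧
      Q x f) :
    ∃ x ∈ S, ∃ f : Emb (ZMod p) (V p n) M, Agr A' f e ∧ Good (A' ⊔ sp p n x.node) f ∧
      Q x f := by
  obtain ⟨x, hx, f, hfe, hfg, hQx⟩ := h
  have hB : dm (sp p n x.node) ≤ k := (hnode x.node).1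
  have hAA : dm A ≤ dm A' := dm_mono (fd A') hA
  have hsup : dm (A ⊔ sp p n x.node) ≤ dm A + dm (sp p n x.node) := dm_sup_le (fd _) (fd _)
  have hrank : finrank (ZMod p) (V p n) = n := finrank_V
  obtain ⟨σ, hσ, f', h1, h2, h3⟩ := move hA he hfg hfe (by omega)
  have hS' : σ • S = S := hS σ hσ
  have hsp : sp p n (σ • x).node = im (act σ) (sp p n x.node) := by
    rw [smul_node, sp_smul]
  refine ⟨σ • x, ?_, f', h1, ?_, ?_⟩
  · rw [← hS']
    exact Set.smul_mem_smul_set hx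
  · rw [hsp]
    exact h2
  · have h4 := hQσ σ x (pull f' σ⁻¹) (hQ x f (pull f' σ⁻¹) h3.symm hQx)
    rwa [pull_pull_inv] at h4

theorem Wit.up {k : ℕ} (hnode : ∀ a : C.N, Nice p n k a) {S : Set (Lit C.N)}
    {A A' : Sp (ZMod p) (V p n)} (hS : Fixes A S) (hA : A ≤ A') (hA' : 2 * dm A' + k + 3 ≤ n)
    {e : Emb (ZMod p) (V p n) M} (he : Good A' e) (h : Wit C I S A e) : Wit C I S A' e := by
  refine transfer (Q := fun x f => C.tr I x f) hnode hS hA hA' he ?_ ?_ h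
  · intro x f f' hff hx
    exact (tr_congr (hnode x.node) (by omega) hff).1 hx
  · intro σ x f hx
    exact (tr_smul σ x f).2 hx

theorem val_and_iff {k : ℕ} (hnode : ∀ a : C.N, Nice p n k a) {a : C.N}
    {S : Set (Lit C.N)} (h : C.gate a = .and S) {A' : Sp (ZMod p) (V p n)}
    (hA : sp p n a ≤ A') (hA' : 2 * dm A' + k + 3 ≤ n) {e : Emb (ZMod p) (V p n) M}
    (he : Good A' e) :
    C.val I a e ↔ ∀ x ∈ S, ∀ f : Emb (ZMod p) (V p n) M, Agr A' f e →
      Good (A' ⊔ sp p n x.node) f → C.tr I x f := by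
  rw [val_and h]
  constructor
  · intro h1 x hx f hf hfi
    exact h1 x hx f (hf.mono hA) (hfi.mono (sup_le_sup_right hA _))
  · intro h1 x hx f hf hfi
    by_contra hcon
    obtain ⟨x', hx', f', h2, h3, h4⟩ := transfer (Q := fun x f => ¬ C.tr I x f) hnode
      (fixes_and (hnode a).2 h) hA hA' he (by
        intro x f f' hff hx hx'
        exact hx ((tr_congr (hnode x.node) (by omega) hff).2 hx')) (by
        intro σ x f hx hx'
        exact hx ((tr_smul σ x f).1 hx')) ⟨x, hx, f, hf, hfi, hcon⟩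
    exact h4 (h1 x' hx' f' h2 h3)

theorem Valid.at {k : ℕ} (hnode : ∀ a : C.N, Nice p n k a) {Λ : Set (Lit C.N)}
    (hΛ : Fixes (sp p n Λ) Λ) (h : Valid C I Λ) {A' : Sp (ZMod p) (V p n)}
    (hA : sp p n Λ ≤ A') (hA' : 2 * dm A' + k + 3 ≤ n) {e : Emb (ZMod p) (V p n) M}
    (he : Good A' e) : Wit C I Λ A' e :=
  Wit.up hnode hΛ hA hA' he (h e (he.mono hA))

theorem valid_of {Λ : Set (Lit C.N)} {A' : Sp (ZMod p) (V p n)} (hA : sp p n Λ ≤ A')
    (hinf : ¬ Module.Finite (ZMod p) M)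
    (h : ∀ e : Emb (ZMod p) (V p n) M, Good A' e → Wit C I Λ A' e) : Valid C I Λ := by
  intro e he
  obtain ⟨e', h1, h2⟩ := extend hA (fd A') he (Or.inl hinf)
  exact (h e' h2).mono subset_rfl hA h1

end Pool.Agent.H81.GL
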