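import Pool.Agent.H81.GL.BSupp

/-!
# Symmetric circuits, the value of a node, valid lines
-/

set_option autoImplicit false

namespace Pool.Agent.H81.GL

open Module
open scoped Pointwise

instance litAct {H N : Type} [Monoid H] [MulAction H N] : MulAction H (Lit N) where
  smul g x := ⟨g • x.node, x.pos⟩
  one_smul x := Lit.ext (one_smul H x.node) rfl
  mul_smul g h x := Lit.ext (mul_smul g h x.node) rfl

/-- A circuit on which the whole general linear group acts. -/
structure SC (Rel : ℕ → Type) (p n : ℕ) extends Circuit Rel p n where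
  [mact : MulAction (G p n) N]
  gate_smul : ∀ (σ : G p n) (a : N), gate (σ • a) = (gate a).map σ (σ • ·)

attribute [instance] SC.mact

/-- The canonical support. -/
noncomputable def sp (p n : ℕ) [Fact p.Prime] {X : Type} [MulAction (G p n) X] (x : X) :
    Sp (ZMod p) (V p n) := supp (ZMod p) (V p n) x

variable {Rel : ℕ → Type} {p n : ℕ} [Fact p.Prime]

/-- The value of the node `a` of the circuit in the world given by a vector space `M` with
relations and a pair of maps `e` from vectors and covectors of `V p n` to those of `M` (it matters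
only on the support of `a`). A conjunction is true if all its members are true under all extensions
of `e` from the support of the gate to the support of the member. -/
def SC.val (C : SC Rel p n) {M : Type} [AddCommGroup M] [Module (ZMod p) M] (I : Interp Rel M)
    (a : C.N) (e : Emb (ZMod p) (V p n) M) : Prop :=
  (∀ v, C.gate a = .var v → I v.1 v.2.1 (fun i => e.1 (v.2.2 i))) ∧
  (∀ S, ∀ _h : C.gate a = .and S, ∀ x, ∀ _hx : x ∈ S, ∀ f : Emb (ZMod p) (V p n) M,
    Agr (sp p n a) f e → Good (sp p n a ⊔ sp p n x.node) f → (C.val I x.node f ↔ x.pos = true))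
termination_by C.rank a
decreasing_by
  exact C.rank_lt a x (by rw [_h]; exact _hx)

/-- A signed node is true. -/
def SC.tr (C : SC Rel p n) {M : Type} [AddCommGroup M] [Module (ZMod p) M] (I : Interp Rel M)
    (x : Lit C.N) (e : Emb (ZMod p) (V p n) M) : Prop := C.val I x.node e ↔ x.pos = true

/-- The group of `A` fixes `x`. -/
def Fixes {X : Type} [MulAction (G p n) X] (A : Sp (ZMod p) (V p n)) (x : X) : Prop :=
  ∀ σ ∈ T A, σ • x = x

/-- The support of `x` has dimension at most `k` and its group fixes `x`. -/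
def Nice (p n : ℕ) [Fact p.Prime] {X : Type} [MulAction (G p n) X] (k : ℕ) (x : X) : Prop :=
  dm (sp p n x) ≤ k ∧ Fixes (sp p n x) x

/-- The standing hypotheses. -/
structure Std (C : SC Rel p n) (M : Type) [AddCommGroup M] [Module (ZMod p) M] (k : ℕ) :
    Prop where
  room : 10 * k + 10 ≤ n
  inf : ¬ Module.Finite (ZMod p) M
  node : ∀ a : C.N, Nice p n k a

/-- Some member of `Λ` is true in some extension of `e` from `A` to its support. -/
def Wit (C : SC Rel p n) {M : Type} [AddCommGroup M] [Module (ZMod p) M] (I : Interp Rel M)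
    (Λ : Set (Lit C.N)) (A : Sp (ZMod p) (V p n)) (e : Emb (ZMod p) (V p n) M) : Prop :=
  ∃ x ∈ Λ, ∃ f : Emb (ZMod p) (V p n) M, Agr A f e ∧ Good (A ⊔ sp p n x.node) f ∧ C.tr I x f

/-- A line is valid. -/
def Valid (C : SC Rel p n) {M : Type} [AddCommGroup M] [Module (ZMod p) M] (I : Interp Rel M)
    (Λ : Set (Lit C.N)) : Prop :=
  ∀ e : Emb (ZMod p) (V p n) M, Good (sp p n Λ) e → Wit C I Λ (sp p n Λ) e

section

variable {X : Type} [MulAction (G p n) X]

theorem sp_smul (σ : G p n) (x : X) : sp p n (σ • x) = im (act σ) (sp p n x) := supp_smul σ x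

theorem Fixes.mono {A B : Sp (ZMod p) (V p n)} {x : X} (h : Fixes A x) (hAB : A ≤ B) :
    Fixes B x := fun σ h1 => h σ (T_anti hAB h1)

theorem Nice.mono {k k' : ℕ} {x : X} (h : Nice p n k x) (hk : k ≤ k') : Nice p n k' x :=
  ⟨h.1.trans hk, h.2⟩

end

theorem finrank_V : finrank (ZMod p) (V p n) = n := Module.finrank_fin_fun (ZMod p)

theorem fd {E : Type} [AddCommGroup E] [Module (ZMod p) E] [FiniteDimensional (ZMod p) E]
    (A : Sp (ZMod p) E) : Fd A := fd_of_fd A

theorem Std.big {C : SC Rel p n} {M : Type} [AddCommGroup M] [Module (ZMod p) M] {k : ℕ}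
    (h : Std C M k) (r : ℕ) : Rm (ZMod p) M r := Or.inl h.inf

variable {C : SC Rel p n} {M : Type} [AddCommGroup M] [Module (ZMod p) M] {I : Interp Rel M}

theorem val_var {a : C.N} {v : Atom Rel (V p n)} (h : C.gate a = .var v)
    (e : Emb (ZMod p) (V p n) M) : C.val I a e ↔ I v.1 v.2.1 (fun i => e.1 (v.2.2 i)) := by
  rw [SC.val]
  constructor
  · intro h1
    exact h1.1 v h
  · intro h1
    refine ⟨?_, ?_⟩
    · intro w hw
      rw [h] at hw
      cases hw
      exact h1
    · intro S hS
      rw [h] at hS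
      cases hS

theorem val_and {a : C.N} {S : Set (Lit C.N)} (h : C.gate a = .and S)
    (e : Emb (ZMod p) (V p n) M) :
    C.val I a e ↔ ∀ x ∈ S, ∀ f : Emb (ZMod p) (V p n) M, Agr (sp p n a) f e →
      Good (sp p n a ⊔ sp p n x.node) f → C.tr I x f := by
  rw [SC.val]
  constructor
  · intro h1 x hx f hf hi
    exact h1.2 S h x hx f hf hi
  · intro h1
    refine ⟨?_, ?_⟩
    · intro w hw
      rw [h] at hw
      cases hw
    · intro T hT x hx f hf hi
      rw [h] at hT
      cases hT
      exact h1 x hx f hf hi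

theorem fixes_and {a : C.N} (ha : Fixes (sp p n a) a) {S : Set (Lit C.N)} (h : C.gate a = .and S) :
    Fixes (sp p n a) S := by
  intro σ h1
  have h3 := C.gate_smul σ a
  rw [ha σ h1, h] at h3
  have h4 : (Gate.and S : Gate (Atom Rel (V p n)) C.N) = .and (σ • S) := h3
  injection h4 with h5
  exact h5.symm

theorem Wit.mono {Λ Δ : Set (Lit C.N)} {A B : Sp (ZMod p) (V p n)}
    {e f : Emb (ZMod p) (V p n) M} (h : Wit C I Λ B f) (hΛ : Λ ⊆ Δ) (hAB : A ≤ B)
    (hfe : Agr A f e) : Wit C I Δ A e := by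
  obtain ⟨x, hx, g, h1, h2, h3⟩ := h
  exact ⟨x, hΛ hx, g, (h1.mono hAB).trans hfe, h2.mono (sup_le_sup_right hAB _), h3⟩

omit [Fact p.Prime] in
theorem smul_node (σ : G p n) (x : Lit C.N) : (σ • x).node = σ • x.node := rfl

omit [Fact p.Prime] in
theorem smul_pos (σ : G p n) (x : Lit C.N) : (σ • x).pos = x.pos := rfl

omit [Fact p.Prime] in
theorem smul_set_eq (σ : G p n) (S : Set (Lit C.N)) : σ • S = Lit.map (σ • ·) '' S := rfl

theorem tr_neg {x : Lit C.N} {e : Emb (ZMod p) (V p n) M} :
    C.tr I x.neg e ↔ ¬ C.tr I x e := by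
  unfold SC.tr Lit.neg
  cases x.pos <;> simp

theorem tr_true {a : C.N} {e : Emb (ZMod p) (V p n) M} : C.tr I ⟨a, true⟩ e ↔ C.val I a e := by
  simp [SC.tr]

theorem tr_false {a : C.N} {e : Emb (ZMod p) (V p n) M} :
    C.tr I ⟨a, false⟩ e ↔ ¬ C.val I a e := by
  simp [SC.tr]

end Pool.Agent.H81.GL
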