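import Pool.Agent.H81.GL.DSearch

/-!
# The circuit of the instances of the subformulas of a sentence

MODULE DCirc. Compare `Pool/Agent/H31/SY/Circ.lean` (the same proofs; here the terms are linear
combinations, `tv_act`: `map_sum`, `map_smul`, and `g u = 0 ↔ u = 0`).
-/

set_option autoImplicit false

namespace Pool.Agent.H81.GL

open scoped Pointwise

variable {Rel : ℕ → Type} {p : ℕ}

/-- The relation symbols which occur in `ψ`. -/
abbrev Rels (ψ : Fml p Rel 0) : Type := {R : Σ k : ℕ, Rel k //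
  ∃ (j : ℕ) (ts : Fin R.1 → Fin j → ZMod p), (⟨j, .rel R.2 ts⟩ : SF Rel p) ∈ subf ψ}

/-- The subformulas of `ψ`. -/
abbrev Subs (ψ : Fml p Rel 0) : Type := {x : SF Rel p // x ∈ subf ψ}

/-- The kinds of nodes. -/
abbrev Sh (ψ : Fml p Rel 0) : Type := Option (Rels ψ ⊕ Subs ψ)

/-- The number of points in a node. -/
def ar (ψ : Fml p Rel 0) : Sh ψ → ℕ
  | none => 0
  | some (.inl R) => R.1.1
  | some (.inr x) => x.1.1

/-- The nodes: a truth constant, atoms and instances of subformulas. -/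
def Nd (ψ : Fml p Rel 0) (n : ℕ) : Type := Σ s : Sh ψ, (Fin (ar ψ s) → V p n)

theorem nd_ext {ψ : Fml p Rel 0} {n : ℕ} {s : Sh ψ} {v w : Fin (ar ψ s) → V p n}
    (h : ∀ i, v i = w i) : (⟨s, v⟩ : Nd ψ n) = ⟨s, w⟩ :=
  congrArg (fun u => (⟨s, u⟩ : Nd ψ n)) (funext h)

instance (ψ : Fml p Rel 0) (n : ℕ) : MulAction (G p n) (Nd ψ n) where
  smul σ x := ⟨x.1, fun i => σ (x.2 i)⟩
  one_smul _ := nd_ext fun _ => rfl
  mul_smul _ _ _ := nd_ext fun _ => rfl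

theorem finite_rels (ψ : Fml p Rel 0) : Finite (Rels ψ) := by
  classical
  let g : SF Rel p → Option (Σ k : ℕ, Rel k) := fun x =>
    match x with
    | ⟨_, .rel R _⟩ => some ⟨_, R⟩
    | _ => none
  have h1 : (g '' subf ψ).Finite := (subf_finite ψ).image g
  have h2 : {R : Σ k : ℕ, Rel k | ∃ (j : ℕ) (ts : Fin R.1 → Fin j → ZMod p),
      (⟨j, .rel R.2 ts⟩ : SF Rel p) ∈ subf ψ}.Finite := by
    refine (h1.preimage ((Option.some_injective _).injOn)).subset ?_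
    rintro R ⟨j, ts, h⟩
    exact ⟨_, h, rfl⟩
  exact h2.to_subtype

instance (ψ : Fml p Rel 0) : Finite (Sh ψ) := by
  have := finite_rels ψ
  have : Finite (Subs ψ) := (subf_finite ψ).to_subtype
  infer_instance

instance [Fact p.Prime] (ψ : Fml p Rel 0) (n : ℕ) : Finite (Nd ψ n) := by
  unfold Nd
  infer_instance

theorem sub_imp1 {ψ : Fml p Rel 0} {k : ℕ} {φ χ : Fml p Rel k}
    (h : (⟨k, .imp φ χ⟩ : SF Rel p) ∈ subf ψ) : (⟨k, φ⟩ : SF Rel p) ∈ subf ψ :=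
  subf_trans ψ _ h (Set.mem_insert_of_mem _ (Or.inl (self_mem_subf φ)))

theorem sub_imp2 {ψ : Fml p Rel 0} {k : ℕ} {φ χ : Fml p Rel k}
    (h : (⟨k, .imp φ χ⟩ : SF Rel p) ∈ subf ψ) : (⟨k, χ⟩ : SF Rel p) ∈ subf ψ :=
  subf_trans ψ _ h (Set.mem_insert_of_mem _ (Or.inr (self_mem_subf χ)))

theorem sub_all {ψ : Fml p Rel 0} {k : ℕ} {φ : Fml p Rel (k + 1)}
    (h : (⟨k, .all φ⟩ : SF Rel p) ∈ subf ψ) : (⟨k + 1, φ⟩ : SF Rel p) ∈ subf ψ :=
  subf_trans ψ _ h (Set.mem_insert_of_mem _ (self_mem_subf φ))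

open Classical in
/-- The signed node of an instance. -/
noncomputable def lit (ψ : Fml p Rel 0) {n k : ℕ} (φ : Fml p Rel k)
    (h : (⟨k, φ⟩ : SF Rel p) ∈ subf ψ) (v : Fin k → V p n) : Lit (Nd ψ n) :=
  match φ, h with
  | .falsum, _ => ⟨⟨none, fun i => Fin.elim0 i⟩, false⟩
  | .eq τ, _ => ⟨⟨none, fun i => Fin.elim0 i⟩, decide (tv v τ = 0)⟩
  | .rel R ts, h => ⟨⟨some (.inl ⟨⟨_, R⟩, ⟨k, ts, h⟩⟩), fun i => tv v (ts i)⟩, true⟩
  | .imp φ χ, h => ⟨⟨some (.inr ⟨⟨k, .imp φ χ⟩, h⟩), v⟩, false⟩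
  | .all φ, h => ⟨⟨some (.inr ⟨⟨k, .all φ⟩, h⟩), v⟩, true⟩

/-- The label of an instance. -/
noncomputable def gateF (ψ : Fml p Rel 0) {n k : ℕ} (φ : Fml p Rel k)
    (h : (⟨k, φ⟩ : SF Rel p) ∈ subf ψ) (v : Fin k → V p n) :
    Gate (Atom Rel (V p n)) (Nd ψ n) :=
  match φ, h with
  | .imp φ χ, h => .and {lit ψ φ (sub_imp1 h) v, (lit ψ χ (sub_imp2 h) v).neg}
  | .all φ, h => .and (Set.range fun b => lit ψ φ (sub_all h) (Fin.snoc v b))
  | .falsum, _ => .and ∅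
  | .eq _, _ => .and ∅
  | .rel _ _, _ => .and ∅

/-- The label of a node. -/
noncomputable def gateN (ψ : Fml p Rel 0) {n : ℕ} :
    Nd ψ n → Gate (Atom Rel (V p n)) (Nd ψ n)
  | ⟨none, _⟩ => .and ∅
  | ⟨some (.inl R), v⟩ => .var ⟨R.1.1, R.1.2, v⟩
  | ⟨some (.inr x), v⟩ => gateF ψ x.1.2 x.2 v

/-- The depth of a formula. -/
def dep : {k : ℕ} → Fml p Rel k → ℕ
  | _, .falsum => 0
  | _, .eq _ => 0
  | _, .rel _ _ => 0
  | _, .imp φ χ => max (dep φ) (dep χ) + 1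
  | _, .all φ => dep φ + 1

/-- The level of a node. -/
def rk (ψ : Fml p Rel 0) {n : ℕ} : Nd ψ n → ℕ
  | ⟨none, _⟩ => 0
  | ⟨some (.inl _), _⟩ => 0
  | ⟨some (.inr x), _⟩ => dep x.1.2

theorem tv_act {E F : Type} [AddCommGroup E] [Module (ZMod p) E] [AddCommGroup F]
    [Module (ZMod p) F] (f : E →ₗ[ZMod p] F) {k : ℕ} (v : Fin k → E) (t : Fin k → ZMod p) :
    tv (fun i => f (v i)) t = f (tv v t) := by
  unfold tv
  rw [map_sum]
  refine Finset.sum_congr rfl fun i _ => ?_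
  rw [map_smul]

theorem snoc_fun {P Q : Type} (f : P → Q) {k : ℕ} (v : Fin k → P) (b : P) :
    (fun i => f ((Fin.snoc v b : Fin (k + 1) → P) i)) =
      (Fin.snoc (fun i => f (v i)) (f b) : Fin (k + 1) → Q) := by
  funext i
  refine Fin.lastCases ?_ (fun j => ?_) i
  · rw [Fin.snoc_last, Fin.snoc_last]
  · rw [Fin.snoc_castSucc, Fin.snoc_castSucc]

theorem lit_act (ψ : Fml p Rel 0) {n k : ℕ} (φ : Fml p Rel k)
    (h : (⟨k, φ⟩ : SF Rel p) ∈ subf ψ) (v : Fin k → V p n) (σ : G p n) :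
    lit ψ φ h (fun i => σ (v i)) = Lit.map (σ • ·) (lit ψ φ h v) := by
  have h0 : (fun i => Fin.elim0 i : Fin 0 → V p n) = fun i => σ ((fun i => Fin.elim0 i : Fin 0 → V p n) i) :=
    funext fun i => i.elim0
  have htv : ∀ t : Fin k → ZMod p, tv (fun i => σ (v i)) t = σ (tv v t) := fun t =>
    tv_act (σ : V p n →ₗ[ZMod p] V p n) v t
  cases φ with
  | falsum =>
    exact congrArg (fun w : Fin 0 → V p n => (⟨⟨none, w⟩, false⟩ : Lit (Nd ψ n))) h0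
  | eq τ =>
    have h2 : decide (tv (fun i => σ (v i)) τ = 0) = decide (tv v τ = 0) := by
      rw [htv]
      exact decide_eq_decide.2 (LinearEquiv.map_eq_zero_iff σ)
    show (⟨⟨none, _⟩, decide (tv (fun i => σ (v i)) τ = 0)⟩ : Lit (Nd ψ n)) =
      ⟨⟨none, _⟩, decide (tv v τ = 0)⟩
    rw [h2]
    exact congrArg (fun w : Fin 0 → V p n =>
      (⟨⟨none, w⟩, decide (tv v τ = 0)⟩ : Lit (Nd ψ n))) h0
  | rel R ts =>
    show (⟨⟨some (.inl ⟨⟨_, R⟩, ⟨k, ts, h⟩⟩), fun i => tv (fun i => σ (v i)) (ts i)⟩, true⟩ :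
      Lit (Nd ψ n)) = ⟨⟨some (.inl ⟨⟨_, R⟩, ⟨k, ts, h⟩⟩), fun i => σ (tv v (ts i))⟩, true⟩
    simp only [htv]
  | imp φ χ => rfl
  | all φ => rfl

theorem gateF_act (ψ : Fml p Rel 0) {n k : ℕ} (φ : Fml p Rel k)
    (h : (⟨k, φ⟩ : SF Rel p) ∈ subf ψ) (v : Fin k → V p n) (σ : G p n) :
    gateF ψ φ h (fun i => σ (v i)) = (gateF ψ φ h v).map σ (σ • ·) := by
  cases φ with
  | falsum =>
    show Gate.and ∅ = Gate.and (Lit.map (σ • ·) '' (∅ : Set (Lit (Nd ψ n))))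
    rw [Set.image_empty]
  | eq τ =>
    show Gate.and ∅ = Gate.and (Lit.map (σ • ·) '' (∅ : Set (Lit (Nd ψ n))))
    rw [Set.image_empty]
  | rel R ts =>
    show Gate.and ∅ = Gate.and (Lit.map (σ • ·) '' (∅ : Set (Lit (Nd ψ n))))
    rw [Set.image_empty]
  | imp φ χ =>
    show Gate.and {lit ψ φ (sub_imp1 h) (fun i => σ (v i)),
      (lit ψ χ (sub_imp2 h) (fun i => σ (v i))).neg} =
      Gate.and (Lit.map (σ • ·) '' ({lit ψ φ (sub_imp1 h) v, (lit ψ χ (sub_imp2 h) v).neg} :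
        Set (Lit (Nd ψ n))))
    rw [lit_act, lit_act, Set.image_insert_eq, Set.image_singleton]
    rfl
  | all φ =>
    show Gate.and (Set.range fun b => lit ψ φ (sub_all h) (Fin.snoc (fun i => σ (v i)) b)) =
      Gate.and (Lit.map (σ • ·) '' (Set.range fun b => lit ψ φ (sub_all h) (Fin.snoc v b)))
    congr 1
    ext x
    constructor
    · rintro ⟨b, rfl⟩
      refine ⟨_, ⟨σ.symm b, rfl⟩, ?_⟩
      show Lit.map (σ • ·) (lit ψ φ (sub_all h) (Fin.snoc v (σ.symm b))) = _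
      rw [← lit_act, snoc_fun, LinearEquiv.apply_symm_apply]
    · rintro ⟨_, ⟨b, rfl⟩, rfl⟩
      refine ⟨σ b, ?_⟩
      show lit ψ φ (sub_all h) (Fin.snoc (fun i => σ (v i)) (σ b)) = _
      rw [← snoc_fun, lit_act]

theorem gateN_act (ψ : Fml p Rel 0) {n : ℕ} (σ : G p n) (a : Nd ψ n) :
    gateN ψ (σ • a) = (gateN ψ a).map σ (σ • ·) := by
  obtain ⟨s, v⟩ := a
  rcases s with _ | R | x
  · show Gate.and ∅ = Gate.and (Lit.map (σ • ·) '' (∅ : Set (Lit (Nd ψ n))))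
    rw [Set.image_empty]
  · rfl
  · exact gateF_act ψ x.1.2 x.2 v σ

theorem rk_lit (ψ : Fml p Rel 0) {n k : ℕ} (φ : Fml p Rel k)
    (h : (⟨k, φ⟩ : SF Rel p) ∈ subf ψ) (v : Fin k → V p n) :
    rk ψ (lit ψ φ h v).node ≤ dep φ := by
  cases φ with
  | falsum => exact le_rfl
  | eq τ => exact le_rfl
  | rel R ts => exact le_rfl
  | imp φ χ => exact le_rfl
  | all φ => exact le_rfl

theorem rk_lt (ψ : Fml p Rel 0) {n : ℕ} (a : Nd ψ n) :
    ∀ x ∈ (gateN ψ a).children, rk ψ x.node < rk ψ a := by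
  obtain ⟨s, v⟩ := a
  rcases s with _ | R | ⟨⟨k, φ⟩, h⟩
  · intro x hx
    exact absurd hx (Set.notMem_empty _)
  · intro x hx
    exact absurd hx (Set.notMem_empty _)
  · cases φ with
    | falsum =>
      intro x hx
      exact absurd hx (Set.notMem_empty _)
    | eq τ =>
      intro x hx
      exact absurd hx (Set.notMem_empty _)
    | rel R ts =>
      intro x hx
      exact absurd hx (Set.notMem_empty _)
    | imp φ χ =>
      intro x hx
      have h1 : x ∈ ({lit ψ φ (sub_imp1 h) v, (lit ψ χ (sub_imp2 h) v).neg} :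
        Set (Lit (Nd ψ n))) := hx
      show rk ψ x.node < max (dep φ) (dep χ) + 1
      rcases h1 with rfl | h1
      · exact Nat.lt_succ_of_le ((rk_lit ψ φ _ v).trans (le_max_left _ _))
      · rw [Set.mem_singleton_iff] at h1
        rw [h1]
        exact Nat.lt_succ_of_le ((rk_lit ψ χ _ v).trans (le_max_right _ _))
    | all φ =>
      intro x hx
      have h1 : x ∈ Set.range fun b => lit ψ φ (sub_all h) (Fin.snoc v b) := hx
      show rk ψ x.node < dep φ + 1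
      obtain ⟨b, rfl⟩ := h1
      exact Nat.lt_succ_of_le (rk_lit ψ φ _ _)

/-- The circuit. -/
noncomputable def circ [Fact p.Prime] (ψ : Fml p Rel 0) (n : ℕ) : Circuit Rel p n where
  N := Nd ψ n
  gate := gateN ψ
  rank := rk ψ
  rank_lt := rk_lt ψ

theorem rep_lit [Fact p.Prime] (ψ : Fml p Rel 0) {n k : ℕ} (φ : Fml p Rel k)
    (h : (⟨k, φ⟩ : SF Rel p) ∈ subf ψ) (v : Fin k → V p n) :
    (circ ψ n).Rep φ v (lit ψ φ h v) := by
  induction φ with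
  | falsum => exact ⟨rfl, rfl⟩
  | eq τ => exact ⟨decide_eq_true_iff, rfl⟩
  | rel R ts => exact ⟨rfl, rfl⟩
  | imp φ χ ih1 ih2 =>
    exact ⟨rfl, _, _, ih1 (sub_imp1 h) v, ih2 (sub_imp2 h) v, rfl⟩
  | all φ ih =>
    refine ⟨rfl, _, rfl, fun b => ⟨_, ⟨b, rfl⟩, ih (sub_all h) (Fin.snoc v b)⟩, ?_⟩
    rintro _ ⟨b, rfl⟩
    exact ⟨b, ih (sub_all h) (Fin.snoc v b)⟩

end Pool.Agent.H81.GL
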