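import Pool.Agent.H81.GL.DSearch

/-!
# Derivations of the search calculus as finite lists

MODULE DLin. Compare `Pool/Agent/H31/SY/Lin.lean`.

`Rule.mono`, `Rule.wf`, `Der.wf`, `Lin.append`: as in the original file. `Lin.family`: induction on the
finite set (`Set.Finite.induction_on` or through `Finset.induction_on`). `exists_lin`: as in the
original file; in the case `allR` the premises for `b` with `Bel t b` form a finite family
(`bel_finite`).
-/

set_option autoImplicit false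

namespace Pool.Agent.H81.GL

variable {Rel : ℕ → Type} {p : ℕ} {S : Set (SF Rel p)}

open Classical in
/-- The rules of the search calculus with premises in `P`. -/
inductive Rule (S : Set (SF Rel p)) (P : ℕ × Finset (Bool × Inst Rel p (Nm p)) → Prop) :
    ℕ → Finset (Bool × Inst Rel p (Nm p)) → Prop
  | weak {t : ℕ} {Δ Λ : Finset (Bool × Inst Rel p (Nm p))} : WF S t Λ → Δ ⊆ Λ → P (t, Δ) →
      Rule S P t Λ
  | ident {t : ℕ} {Δ : Finset (Bool × Inst Rel p (Nm p))} (c : Inst Rel p (Nm p)) : WF S t Δ →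
      (true, c) ∈ Δ → (false, c) ∈ Δ → Rule S P t Δ
  | atom {t : ℕ} {Δ : Finset (Bool × Inst Rel p (Nm p))} {k k' m : ℕ} (R : Rel m)
      (ts : Fin m → Fin k → ZMod p) (ts' : Fin m → Fin k' → ZMod p)
      (v : Fin k → Nm p) (v' : Fin k' → Nm p) : WF S t Δ →
      (∀ i, tv v (ts i) = tv v' (ts' i)) →
      (true, ⟨k, .rel R ts, v⟩) ∈ Δ → (false, ⟨k', .rel R ts', v'⟩) ∈ Δ → Rule S P t Δ
  | cut {t : ℕ} {Δ : Finset (Bool × Inst Rel p (Nm p))} (c : Inst Rel p (Nm p)) : WF S t Δ →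
      Below S t c → P (t, insert (true, c) Δ) → P (t, insert (false, c) Δ) → Rule S P t Δ
  | falsum {t : ℕ} {Δ : Finset (Bool × Inst Rel p (Nm p))} {k : ℕ} (v : Fin k → Nm p) :
      WF S t Δ → (false, ⟨k, .falsum, v⟩) ∈ Δ → Rule S P t Δ
  | eq {t : ℕ} {Δ : Finset (Bool × Inst Rel p (Nm p))} {k : ℕ} (τ : Fin k → ZMod p)
      (v : Fin k → Nm p) : WF S t Δ → tv v τ = 0 → (true, ⟨k, .eq τ, v⟩) ∈ Δ → Rule S P t Δ
  | ne {t : ℕ} {Δ : Finset (Bool × Inst Rel p (Nm p))} {k : ℕ} (τ : Fin k → ZMod p)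
      (v : Fin k → Nm p) : WF S t Δ → tv v τ ≠ 0 → (false, ⟨k, .eq τ, v⟩) ∈ Δ → Rule S P t Δ
  | impR {t : ℕ} {Δ : Finset (Bool × Inst Rel p (Nm p))} {k : ℕ} (φ χ : Fml p Rel k)
      (v : Fin k → Nm p) : WF S t Δ → (true, ⟨k, .imp φ χ, v⟩) ∈ Δ →
      P (t, insert (false, ⟨k, φ, v⟩) (insert (true, ⟨k, χ, v⟩) Δ)) → Rule S P t Δ
  | impL {t : ℕ} {Δ : Finset (Bool × Inst Rel p (Nm p))} {k : ℕ} (φ χ : Fml p Rel k)
      (v : Fin k → Nm p) : WF S t Δ → (false, ⟨k, .imp φ χ, v⟩) ∈ Δ →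
      P (t, insert (true, ⟨k, φ, v⟩) Δ) → P (t, insert (false, ⟨k, χ, v⟩) Δ) → Rule S P t Δ
  | allL {t : ℕ} {Δ : Finset (Bool × Inst Rel p (Nm p))} {k : ℕ} (φ : Fml p Rel (k + 1))
      (v : Fin k → Nm p) (b : Nm p) : WF S t Δ → Bel t b → (false, ⟨k, .all φ, v⟩) ∈ Δ →
      P (t, insert (false, ⟨k + 1, φ, Fin.snoc v b⟩) Δ) → Rule S P t Δ
  | allR {t : ℕ} {Δ : Finset (Bool × Inst Rel p (Nm p))} {k : ℕ} (φ : Fml p Rel (k + 1))
      (v : Fin k → Nm p) : WF S t Δ → (true, ⟨k, .all φ, v⟩) ∈ Δ →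
      (∀ b, Bel t b → P (t, insert (true, ⟨k + 1, φ, Fin.snoc v b⟩) Δ)) →
      P (t + 1, insert (true, ⟨k + 1, φ, Fin.snoc v (Finsupp.single t 1)⟩) Δ) → Rule S P t Δ
  | new {t : ℕ} {Δ : Finset (Bool × Inst Rel p (Nm p))} : WF S t Δ → P (t + 1, Δ) →
      Rule S P t Δ

theorem Rule.mono {P Q : ℕ × Finset (Bool × Inst Rel p (Nm p)) → Prop} (h : ∀ x, P x → Q x)
    {t : ℕ} {Δ : Finset (Bool × Inst Rel p (Nm p))} (hr : Rule S P t Δ) : Rule S Q t Δ := by
  cases hr with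
  | weak h1 h2 h3 => exact .weak h1 h2 (h _ h3)
  | ident c h1 h2 h3 => exact .ident c h1 h2 h3
  | atom R ts ts' v v' h1 h2 h3 h4 => exact .atom R ts ts' v v' h1 h2 h3 h4
  | cut c h1 h2 h3 h4 => exact .cut c h1 h2 (h _ h3) (h _ h4)
  | falsum v h1 h2 => exact .falsum v h1 h2
  | eq τ v h1 h2 h3 => exact .eq τ v h1 h2 h3
  | ne τ v h1 h2 h3 => exact .ne τ v h1 h2 h3
  | impR φ χ v h1 h2 h3 => exact .impR φ χ v h1 h2 (h _ h3)
  | impL φ χ v h1 h2 h3 h4 => exact .impL φ χ v h1 h2 (h _ h3) (h _ h4)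
  | allL φ v b h1 h2 h3 h4 => exact .allL φ v b h1 h2 h3 (h _ h4)
  | allR φ v h1 h2 h3 h4 => exact .allR φ v h1 h2 (fun b hb => h _ (h3 b hb)) (h _ h4)
  | new h1 h2 => exact .new h1 (h _ h2)

theorem Rule.wf {P : ℕ × Finset (Bool × Inst Rel p (Nm p)) → Prop} {t : ℕ}
    {Δ : Finset (Bool × Inst Rel p (Nm p))} (hr : Rule S P t Δ) : WF S t Δ := by
  cases hr <;> assumption

theorem Der.wf {t : ℕ} {Δ : Finset (Bool × Inst Rel p (Nm p))} (h : Der S t Δ) : WF S t Δ := by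
  classical
  induction h with
  | weak h1 _ _ _ => exact h1
  | ident c h1 _ _ => exact h1
  | atom R ts ts' v v' h1 _ _ _ => exact h1
  | cut c _ _ ih1 _ => exact ih1.mono (Finset.subset_insert _ _)
  | falsum v h1 _ => exact h1
  | eq τ v h1 _ _ => exact h1
  | ne τ v h1 _ _ => exact h1
  | impR φ χ v _ _ ih =>
    exact (ih.mono (Finset.subset_insert _ _)).mono (Finset.subset_insert _ _)
  | impL φ χ v _ _ _ ih1 _ => exact ih1.mono (Finset.subset_insert _ _)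
  | allL φ v b _ _ _ ih => exact ih.mono (Finset.subset_insert _ _)
  | allR φ v h1 _ _ _ _ _ => exact h1
  | new h1 _ _ => exact h1

/-- Finite derivations: every member of the list follows from later members. -/
inductive Lin (S : Set (SF Rel p)) : List (ℕ × Finset (Bool × Inst Rel p (Nm p))) → Prop
  | nil : Lin S []
  | cons {D : List (ℕ × Finset (Bool × Inst Rel p (Nm p)))} {t : ℕ}
      {Δ : Finset (Bool × Inst Rel p (Nm p))} :
      Lin S D → Rule S (fun x => x ∈ D) t Δ → Lin S ((t, Δ) :: D)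

theorem Lin.append {D D' : List (ℕ × Finset (Bool × Inst Rel p (Nm p)))} (h : Lin S D)
    (h' : Lin S D') : Lin S (D ++ D') := by
  induction h with
  | nil => exact h'
  | cons h1 h2 ih => exact .cons ih (h2.mono fun x hx => List.mem_append_left _ hx)

/-- The members of a finite family of derivable sequents lie in one finite derivation. -/
theorem Lin.family {f : Nm p → ℕ × Finset (Bool × Inst Rel p (Nm p))} {B : Set (Nm p)}
    (hB : B.Finite) (h : ∀ b ∈ B, ∃ D, Lin S D ∧ f b ∈ D) : ∃ D, Lin S D ∧ ∀ b ∈ B, f b ∈ D := by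
  classical
  obtain ⟨F, rfl⟩ := hB.exists_finset_coe
  clear hB
  induction F using Finset.induction_on with
  | empty => exact ⟨[], .nil, fun b hb => absurd hb (Finset.notMem_empty b)⟩
  | insert a F _ ih =>
    obtain ⟨D, hD, h1⟩ := ih fun b hb => h b (Finset.mem_coe.2 (Finset.mem_insert_of_mem hb))
    obtain ⟨D', hD', h2⟩ := h a (Finset.mem_coe.2 (Finset.mem_insert_self a F))
    refine ⟨D ++ D', hD.append hD', fun b hb => ?_⟩
    rcases Finset.mem_insert.1 (Finset.mem_coe.1 hb) with rfl | h3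
    · exact List.mem_append_right _ h2
    · exact List.mem_append_left _ (h1 b (Finset.mem_coe.2 h3))

/-- Every derivable sequent has a finite derivation. -/
theorem exists_lin [Fact p.Prime] {t : ℕ} {Δ : Finset (Bool × Inst Rel p (Nm p))}
    (h : Der S t Δ) : ∃ D, Lin S D ∧ (t, Δ) ∈ D := by
  classical
  induction h with
  | weak h1 h2 _ ih =>
    obtain ⟨D, hD, h3⟩ := ih
    exact ⟨_ :: D, .cons hD (.weak h1 h2 h3), List.mem_cons_self⟩
  | ident c h1 h2 h3 => exact ⟨_ :: [], .cons .nil (.ident c h1 h2 h3), List.mem_cons_self⟩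
  | atom R ts ts' v v' h1 h2 h3 h4 =>
    exact ⟨_ :: [], .cons .nil (.atom R ts ts' v v' h1 h2 h3 h4), List.mem_cons_self⟩
  | cut c h1 _ ih1 ih2 =>
    obtain ⟨D, hD, h3⟩ := ih1
    obtain ⟨D', hD', h4⟩ := ih2
    refine ⟨_ :: (D ++ D'), .cons (hD.append hD') (.cut c ?_ ?_ (List.mem_append_left _ h3)
      (List.mem_append_right _ h4)), List.mem_cons_self⟩
    · exact h1.wf.mono (Finset.subset_insert _ _)
    · exact h1.wf _ (Finset.mem_insert_self _ _)
  | falsum v h1 h2 => exact ⟨_ :: [], .cons .nil (.falsum v h1 h2), List.mem_cons_self⟩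
  | eq τ v h1 h2 h3 => exact ⟨_ :: [], .cons .nil (.eq τ v h1 h2 h3), List.mem_cons_self⟩
  | ne τ v h1 h2 h3 => exact ⟨_ :: [], .cons .nil (.ne τ v h1 h2 h3), List.mem_cons_self⟩
  | impR φ χ v h1 h2 ih =>
    obtain ⟨D, hD, h3⟩ := ih
    exact ⟨_ :: D, .cons hD (.impR φ χ v ((h2.wf.mono (Finset.subset_insert _ _)).mono
      (Finset.subset_insert _ _)) h1 h3), List.mem_cons_self⟩
  | impL φ χ v h1 h2 _ ih1 ih2 =>
    obtain ⟨D, hD, h3⟩ := ih1
    obtain ⟨D', hD', h4⟩ := ih2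
    exact ⟨_ :: (D ++ D'), .cons (hD.append hD') (.impL φ χ v
      (h2.wf.mono (Finset.subset_insert _ _)) h1 (List.mem_append_left _ h3)
      (List.mem_append_right _ h4)), List.mem_cons_self⟩
  | allL φ v b h1 h2 h3 ih =>
    obtain ⟨D, hD, h4⟩ := ih
    exact ⟨_ :: D, .cons hD (.allL φ v b (h3.wf.mono (Finset.subset_insert _ _)) h1 h2 h4),
      List.mem_cons_self⟩
  | @allR t Δ k φ v h1 h2 h3 h4 ih1 ih2 =>
    obtain ⟨D, hD, h5⟩ := Lin.family
      (f := fun b => (t, insert (true, (⟨k + 1, φ, Fin.snoc v b⟩ : Inst Rel p (Nm p))) Δ))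
      (bel_finite t) ih1
    obtain ⟨D', hD', h6⟩ := ih2
    exact ⟨_ :: (D ++ D'), .cons (hD.append hD') (.allR φ v h1 h2
      (fun b hb => List.mem_append_left _ (h5 b hb)) (List.mem_append_right _ h6)),
      List.mem_cons_self⟩
  | new h1 _ ih =>
    obtain ⟨D, hD, h2⟩ := ih
    exact ⟨_ :: D, .cons hD (.new h1 h2), List.mem_cons_self⟩

end Pool.Agent.H81.GL
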