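import Pool.Agent.H81.GL.DCirc
import Pool.Agent.H81.GL.DLin

/-!
# Sets of lines which can be derived in order

MODULE DGood. Compare `Pool/Agent/H31/SY/Good.lean` (the same proofs with linear maps `e : Nm p → V p n`
in place of functions).

`InjB t e`: `e` is injective on the span of the first `t` basis vectors.
`line_congr`: the values `y.2.v i` satisfy `Bel t`, and two linear maps which agree at the first `t` basis
vectors agree at all `w` with `Bel t w` (`agr_bel`: `w = ∑ j ∈ w.support, w j • single j 1`,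
`Finsupp.sum_single`, `map_finsuppSum`; all `j` in the support are less than `t`).
`ncard_pat`: the map `(Fin t → V p n) → α`, `u ↦ F (e_u)` with `e_u` the linear map with
`single j 1 ↦ u j` for `j < t` and `0` for other `j` (`Finsupp.linearCombination` or `Finsupp.lift`), has
a range which contains the set; the cardinality of `Fin t → V p n` is `(p ^ n) ^ t`.
-/

set_option autoImplicit false

namespace Pool.Agent.H81.GL

open scoped Pointwise

variable {Rel : ℕ → Type} {p : ℕ}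

theorem step_mono {ψ : Fml p Rel 0} {n : ℕ} {C : Circuit Rel p n} {P Q : Set (Set (Lit C.N))}
    (h : P ⊆ Q) {Λ : Set (Lit C.N)} (hs : Step ψ C P Λ) : Step ψ C Q Λ := by
  cases hs with
  | hyp h1 h2 => exact .hyp h1 h2
  | ident h1 h2 h3 => exact .ident h1 h2 h3
  | weak h1 h2 => exact .weak (h h1) h2
  | cut h1 h2 => exact .cut (h h1) (h h2)
  | andI h1 h2 h3 => exact .andI h1 h2 fun x hx => h (h3 x hx)
  | andE h1 h2 h3 => exact .andE h1 h2 (h h3)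

theorem finite_lit (N : Type) [Finite N] : Finite (Lit N) := by
  have e : Lit N ≃ N × Bool :=
    { toFun := fun x => (x.node, x.pos)
      invFun := fun y => ⟨y.1, y.2⟩
      left_inv := fun _ => rfl
      right_inv := fun _ => rfl }
  exact Finite.of_equiv _ e.symm

/-- The set is closed under the general linear group. -/
def Closed (ψ : Fml p Rel 0) (n : ℕ) (Ls : Set (Set (Lit (Nd ψ n)))) : Prop :=
  ∀ (σ : G p n), ∀ Λ ∈ Ls, Lit.map (σ • ·) '' Λ ∈ Ls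

variable [Fact p.Prime]

/-- The lines can be derived in some order. -/
def Ordered (ψ : Fml p Rel 0) (n : ℕ) (Ls : Set (Set (Lit (Nd ψ n)))) : Prop :=
  Closed ψ n Ls ∧ ∃ order : Set (Lit (Nd ψ n)) → ℕ,
    ∀ Λ ∈ Ls, Step ψ (circ ψ n) {Δ | Δ ∈ Ls ∧ order Δ < order Λ} Λ

theorem ordered_empty (ψ : Fml p Rel 0) (n : ℕ) : Ordered ψ n ∅ :=
  ⟨fun _ _ h => absurd h (Set.notMem_empty _), fun _ => 0, fun _ h => absurd h (Set.notMem_empty _)⟩

theorem ordered_union {ψ : Fml p Rel 0} {n : ℕ} {Ls Q : Set (Set (Lit (Nd ψ n)))}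
    (h : Ordered ψ n Ls) (hQ : Closed ψ n Q) (hs : ∀ Λ ∈ Q, Step ψ (circ ψ n) Ls Λ) :
    Ordered ψ n (Ls ∪ Q) := by
  classical
  obtain ⟨hc, order, ho⟩ := h
  have : Finite (Lit (Nd ψ n)) := finite_lit (Nd ψ n)
  refine ⟨?_, ?_⟩
  · rintro σ Γ (h1 | h1)
    · exact Or.inl (hc σ Γ h1)
    · exact Or.inr (hQ σ Γ h1)
  · obtain ⟨B, hB⟩ : ∃ B, ∀ Γ, order Γ ≤ B := by
      have := Finite.bddAbove_range order
      obtain ⟨B, hB⟩ := this
      exact ⟨B, fun Γ => hB ⟨Γ, rfl⟩⟩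
    have e1 : ∀ Δ : Set (Lit (Nd ψ n)), Δ ∈ Ls → (if Δ ∈ Ls then order Δ else B + 1) = order Δ :=
      fun Δ h => if_pos h
    have e2 : ∀ Δ : Set (Lit (Nd ψ n)), Δ ∉ Ls → (if Δ ∈ Ls then order Δ else B + 1) = B + 1 :=
      fun Δ h => if_neg h
    refine ⟨fun Γ => if Γ ∈ Ls then order Γ else B + 1, ?_⟩
    intro Γ hΓ
    by_cases h1 : Γ ∈ Ls
    · refine step_mono ?_ (ho Γ h1)
      rintro Δ ⟨h2, h3⟩
      refine ⟨Or.inl h2, ?_⟩
      exact lt_of_eq_of_lt (e1 Δ h2) (lt_of_lt_of_eq h3 (e1 Γ h1).symm)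
    · have h2 : Γ ∈ Q := hΓ.resolve_left h1
      refine step_mono ?_ (hs Γ h2)
      intro Δ h3
      refine ⟨Or.inl h3, ?_⟩
      exact lt_of_eq_of_lt (e1 Δ h3) (lt_of_lt_of_eq (Nat.lt_succ_of_le (hB Δ)) (e2 Γ h1).symm)

/-! ### The lines of a pattern -/

/-- The signed node with a sign. -/
def sg {N : Type} (s : Bool) (x : Lit N) : Lit N := if s = true then x else x.neg

/-- The map is injective on the span of the first `t` basis vectors. -/
def InjB {n : ℕ} (t : ℕ) (e : Nm p →ₗ[ZMod p] V p n) : Prop := ∀ w, Bel t w → e w = 0 → w = 0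

/-- The maps agree at the first `t` basis vectors. -/
def AgrB {n : ℕ} (t : ℕ) (e e' : Nm p →ₗ[ZMod p] V p n) : Prop :=
  ∀ j < t, e (Finsupp.single j 1) = e' (Finsupp.single j 1)

theorem agr_bel {n t : ℕ} {e e' : Nm p →ₗ[ZMod p] V p n} (h : AgrB t e e') {w : Nm p}
    (hw : Bel t w) : e w = e' w := by
  have h1 : w = ∑ j ∈ w.support, w j • (Finsupp.single j (1 : ZMod p) : Nm p) := by
    conv_lhs => rw [← Finsupp.sum_single w]
    refine Finset.sum_congr rfl fun j _ => ?_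
    rw [Finsupp.smul_single, smul_eq_mul, mul_one]
  rw [h1, map_sum, map_sum]
  refine Finset.sum_congr rfl fun j hj => ?_
  rw [map_smul, map_smul, h j ?_]
  by_contra hlt
  exact (Finsupp.mem_support_iff.1 hj) (hw j (not_lt.1 hlt))

/-- The line of a sequent of instances over names, `e` gives the vectors denoted by the names. -/
def line (ψ : Fml p Rel 0) {n : ℕ} (e : Nm p →ₗ[ZMod p] V p n)
    (Δ : Finset (Bool × Inst Rel p (Nm p))) : Set (Lit (Nd ψ n)) :=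
  {x | ∃ y ∈ Δ, ∃ h : (⟨y.2.k, y.2.φ⟩ : SF Rel p) ∈ subf ψ,
    x = sg y.1 (lit ψ y.2.φ h fun i => e (y.2.v i))}

/-- The lines of a pattern. -/
def LS (ψ : Fml p Rel 0) (n : ℕ) (x : ℕ × Finset (Bool × Inst Rel p (Nm p))) :
    Set (Set (Lit (Nd ψ n))) :=
  {Λ | ∃ e : Nm p →ₗ[ZMod p] V p n, InjB x.1 e ∧ Λ = line ψ e x.2}

theorem line_smul (ψ : Fml p Rel 0) {n : ℕ} (σ : G p n) (e : Nm p →ₗ[ZMod p] V p n)
    (Δ : Finset (Bool × Inst Rel p (Nm p))) :
    Lit.map (σ • ·) '' line ψ e Δ = line ψ ((σ : V p n →ₗ[ZMod p] V p n) ∘ₗ e) Δ := by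
  have hsg : ∀ (s : Bool) (x : Lit (Nd ψ n)), Lit.map (σ • ·) (sg s x) = sg s (Lit.map (σ • ·) x) := by
    intro s x
    cases s <;> rfl
  ext x
  constructor
  · rintro ⟨y, ⟨z, hz, h, rfl⟩, rfl⟩
    refine ⟨z, hz, h, ?_⟩
    rw [hsg, ← lit_act]
    rfl
  · rintro ⟨z, hz, h, rfl⟩
    refine ⟨_, ⟨z, hz, h, rfl⟩, ?_⟩
    rw [hsg, ← lit_act]
    rfl

theorem closed_LS (ψ : Fml p Rel 0) (n : ℕ) (x : ℕ × Finset (Bool × Inst Rel p (Nm p))) :
    Closed ψ n (LS ψ n x) := by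
  rintro σ _ ⟨e, he, rfl⟩
  refine ⟨(σ : V p n →ₗ[ZMod p] V p n) ∘ₗ e, ?_, line_smul ψ σ e x.2⟩
  intro w hw h0
  exact he w hw ((LinearEquiv.map_eq_zero_iff σ).1 h0)

theorem mem_line {ψ : Fml p Rel 0} {n : ℕ} {e : Nm p →ₗ[ZMod p] V p n}
    {Δ : Finset (Bool × Inst Rel p (Nm p))} {s : Bool} {k : ℕ} {φ : Fml p Rel k}
    {v : Fin k → Nm p} (h : (s, (⟨k, φ, v⟩ : Inst Rel p (Nm p))) ∈ Δ)
    (hs : (⟨k, φ⟩ : SF Rel p) ∈ subf ψ) :
    sg s (lit ψ φ hs fun i => e (v i)) ∈ line ψ e Δ := ⟨_, h, hs, rfl⟩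

theorem line_mono {ψ : Fml p Rel 0} {n : ℕ} {e : Nm p →ₗ[ZMod p] V p n}
    {Δ Λ : Finset (Bool × Inst Rel p (Nm p))} (h : Δ ⊆ Λ) : line ψ e Δ ⊆ line ψ e Λ := by
  rintro x ⟨y, hy, h1, rfl⟩
  exact ⟨y, h hy, h1, rfl⟩

open Classical in
theorem line_insert {ψ : Fml p Rel 0} {n : ℕ} {e : Nm p →ₗ[ZMod p] V p n}
    {Δ : Finset (Bool × Inst Rel p (Nm p))} {s : Bool} {k : ℕ} {φ : Fml p Rel k}
    {v : Fin k → Nm p} (hs : (⟨k, φ⟩ : SF Rel p) ∈ subf ψ) :
    line ψ e (insert (s, (⟨k, φ, v⟩ : Inst Rel p (Nm p))) Δ) =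
      insert (sg s (lit ψ φ hs fun i => e (v i))) (line ψ e Δ) := by
  ext x
  constructor
  · rintro ⟨y, hy, h1, rfl⟩
    rcases Finset.mem_insert.1 hy with rfl | hy
    · exact Or.inl rfl
    · exact Or.inr ⟨y, hy, h1, rfl⟩
  · rintro (rfl | ⟨y, hy, h1, rfl⟩)
    · exact ⟨_, Finset.mem_insert_self _ _, hs, rfl⟩
    · exact ⟨y, Finset.mem_insert_of_mem hy, h1, rfl⟩

theorem line_congr {ψ : Fml p Rel 0} {S : Set (SF Rel p)} {n t : ℕ}
    {e e' : Nm p →ₗ[ZMod p] V p n} {Δ : Finset (Bool × Inst Rel p (Nm p))} (hw : WF S t Δ)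
    (h : AgrB t e e') : line ψ e Δ = line ψ e' Δ := by
  have key : ∀ e e' : Nm p →ₗ[ZMod p] V p n, AgrB t e e' → line ψ e Δ ⊆ line ψ e' Δ := by
    intro e e' h
    rintro x ⟨y, hy, h1, rfl⟩
    refine ⟨y, hy, h1, ?_⟩
    have : (fun i => e (y.2.v i)) = fun i => e' (y.2.v i) :=
      funext fun i => agr_bel h ((hw y hy).2 i)
    rw [this]
  exact Set.Subset.antisymm (key e e' h) (key e' e fun i hi => (h i hi).symm)

theorem ncard_pat {α : Type} {n t : ℕ} (F : (Nm p →ₗ[ZMod p] V p n) → α)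
    (h : ∀ e e', AgrB t e e' → F e = F e') :
    {Λ | ∃ e : Nm p →ₗ[ZMod p] V p n, InjB t e ∧ Λ = F e}.ncard ≤ (p ^ n) ^ t := by
  classical
  let f : (Fin t → V p n) → α := fun u =>
    F (Finsupp.linearCombination (ZMod p) fun j : ℕ => if h : j < t then u ⟨j, h⟩ else 0)
  have h1 : {Λ | ∃ e : Nm p →ₗ[ZMod p] V p n, InjB t e ∧ Λ = F e} ⊆ Set.range f := by
    rintro _ ⟨e, -, rfl⟩
    refine ⟨fun i => e (Finsupp.single (i : ℕ) 1), ?_⟩
    apply h
    intro j hj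
    rw [Finsupp.linearCombination_single, one_smul, dif_pos hj]
  have h2 : (Set.range f).ncard ≤ (p ^ n) ^ t := by
    rw [← Nat.card_coe_set_eq]
    refine (Finite.card_range_le f).trans (le_of_eq ?_)
    rw [Nat.card_fun, Nat.card_fin, Nat.card_fun, Nat.card_fin, Nat.card_zmod]
  exact (Set.ncard_le_ncard h1 (Set.finite_range f)).trans h2

theorem ncard_LS {ψ : Fml p Rel 0} {S : Set (SF Rel p)} {n t : ℕ}
    {Δ : Finset (Bool × Inst Rel p (Nm p))} (hw : WF S t Δ) :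
    (LS ψ n (t, Δ)).ncard ≤ (p ^ n) ^ t :=
  ncard_pat (fun e => line ψ e Δ) fun _ _ h => line_congr hw h

end Pool.Agent.H81.GL
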