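import Pool.Agent.H81.GL.DGood

/-!
# Instantiation of the rules of the search calculus

MODULE DInst. Compare `Pool/Agent/H31/SY/Instn.lean`.

`tv_bel`: `tv v τ` is a linear combination of the `v i` (`Finsupp.finset_sum_apply`, `Finsupp.smul_apply`).
`exists_ext`. If `b` is not the value of `e` at a name in the span of the first `t` basis vectors put
`e' = e + (Finsupp.lapply t).smulRight (b - e (single t 1))`: it agrees with `e` at `single j 1`, `j < t`,
and `e' (single t 1) = b`. It is injective on the span of the first `t + 1`: let `Bel (t + 1) w`,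
`e' w = 0`, `w' = w - w t • single t 1` (`Bel t w'`), so `e w' + w t • b = 0` (`agr_bel`); if `w t ≠ 0` then
`b = e (-(w t)⁻¹ • w')`, a contradiction; so `w = w'` and `e w = 0`.
`exists_new`. `t < n`: the image of `{w | Bel t w}` (at most `p ^ t` elements, the span of
`e (single j 1)`, `j < t`) is not everything (`finrank_span_le_card`, dimension `n`).
`inst_rule`: as in the original file. `eq τ`: `tv v τ = 0` gives `tv (fun i => e (v i)) τ = e 0 = 0`
(`tv_act`), so the node is the truth constant with the sign `true`; `ne τ`: `tv v τ ≠ 0`, `Bel t (tv v τ)`,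
so `e (tv v τ) ≠ 0` by `InjB`. `allR`: for the member with `b : V p n`: if `b = e w` with `Bel t w` use the
premise for `w`, otherwise `exists_ext` and the premise at `t + 1`. `new`: `exists_new`, `exists_ext`.
-/

set_option autoImplicit false

namespace Pool.Agent.H81.GL

open scoped Pointwise

variable {Rel : ℕ → Type} {p : ℕ} [Fact p.Prime] {ψ : Fml p Rel 0} {n : ℕ}

theorem neg_neg {N : Type} (x : Lit N) : x.neg.neg = x := by
  obtain ⟨a, s⟩ := x
  cases s <;> rfl

theorem step_ident {P : Set (Set (Lit (circ ψ n).N))} {Λ : Set (Lit (circ ψ n).N)}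
    {x : Lit (circ ψ n).N} (h1 : x ∈ Λ) (h2 : x.neg ∈ Λ) : Step ψ (circ ψ n) P Λ := by
  obtain ⟨a, s⟩ := x
  cases s with
  | true => exact .ident (a := a) (b := a) rfl h1 h2
  | false => exact .ident (a := a) (b := a) rfl h2 h1

theorem step_cut {P : Set (Set (Lit (circ ψ n).N))} {Λ : Set (Lit (circ ψ n).N)}
    {x : Lit (circ ψ n).N} (h1 : insert x Λ ∈ P) (h2 : insert x.neg Λ ∈ P) :
    Step ψ (circ ψ n) P Λ := by
  obtain ⟨a, s⟩ := x
  cases s with
  | true => exact .cut (a := a) h1 h2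
  | false => exact .cut (a := a) h2 h1

theorem step_top {P : Set (Set (Lit (circ ψ n).N))} {Λ : Set (Lit (circ ψ n).N)}
    {w : Fin 0 → V p n} (h : (⟨⟨none, w⟩, true⟩ : Lit (Nd ψ n)) ∈ Λ) :
    Step ψ (circ ψ n) P Λ :=
  .andI (S := ∅) (a := (⟨none, w⟩ : Nd ψ n)) rfl h fun _ hx => absurd hx (Set.notMem_empty _)

theorem tv_bel {k t : ℕ} {v : Fin k → Nm p} (h : ∀ i, Bel t (v i)) (τ : Fin k → ZMod p) :
    Bel t (tv v τ) := by
  intro j hj
  unfold tv
  rw [Finsupp.finset_sum_apply]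
  refine Finset.sum_eq_zero fun i _ => ?_
  rw [Finsupp.smul_apply, h i j hj, smul_zero]

theorem exists_ext {t : ℕ} {e : Nm p →ₗ[ZMod p] V p n} (he : InjB t e) {b : V p n}
    (hb : ∀ w, Bel t w → e w ≠ b) :
    ∃ e' : Nm p →ₗ[ZMod p] V p n, InjB (t + 1) e' ∧ AgrB t e' e ∧
      e' (Finsupp.single t 1) = b := by
  obtain ⟨e', he'⟩ : ∃ e' : Nm p →ₗ[ZMod p] V p n,
      e' = e + (Finsupp.lapply t).smulRight (b - e (Finsupp.single t 1)) := ⟨_, rfl⟩
  have hval : ∀ w, e' w = e w + w t • (b - e (Finsupp.single t 1)) := by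
    intro w
    rw [he', LinearMap.add_apply, LinearMap.smulRight_apply, Finsupp.lapply_apply]
  refine ⟨e', ?_, ?_, ?_⟩
  · intro w hw h0
    rw [hval] at h0
    have hw' : Bel t (w - Finsupp.single t (w t)) := by
      intro j hj
      rw [Finsupp.sub_apply]
      rcases Nat.eq_or_lt_of_le hj with rfl | hj
      · rw [Finsupp.single_eq_same, sub_self]
      · rw [Finsupp.single_eq_of_ne (by omega), hw j (by omega), sub_zero]
    have h1 : e (w - Finsupp.single t (w t)) = -(w t • b) := by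
      have h2 : Finsupp.single t (w t) = w t • Finsupp.single t (1 : ZMod p) := by
        rw [Finsupp.smul_single, smul_eq_mul, mul_one]
      rw [map_sub, h2, map_smul]
      rw [smul_sub] at h0
      rw [eq_neg_iff_add_eq_zero, ← h0]
      abel
    by_cases hwt : w t = 0
    · rw [hwt, Finsupp.single_zero, sub_zero, zero_smul, neg_zero] at h1
      rw [hwt, Finsupp.single_zero, sub_zero] at hw'
      exact he w hw' h1
    · exfalso
      refine hb ((-(w t)⁻¹) • (w - Finsupp.single t (w t))) ?_ ?_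
      · intro j hj
        rw [Finsupp.smul_apply, hw' j hj, smul_zero]
      · rw [map_smul, h1, smul_neg, neg_smul, _root_.neg_neg, smul_smul, inv_mul_cancel₀ hwt,
          one_smul]
  · intro j hj
    rw [hval, Finsupp.single_eq_of_ne (by omega), zero_smul, add_zero]
  · rw [hval, Finsupp.single_eq_same, one_smul]
    abel

theorem exists_new {t : ℕ} (ht : t < n) (e : Nm p →ₗ[ZMod p] V p n) :
    ∃ b : V p n, ∀ w, Bel t w → e w ≠ b := by
  by_contra hcon
  push Not at hcon
  have h1 : (⊤ : Submodule (ZMod p) (V p n)) ≤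
      Submodule.span (ZMod p) (Set.range fun i : Fin t => e (Finsupp.single (i : ℕ) 1)) := by
    intro b _
    obtain ⟨w, hw, rfl⟩ := hcon b
    have h2 : w = ∑ j ∈ w.support, w j • Finsupp.single j (1 : ZMod p) := by
      conv_lhs => rw [← Finsupp.sum_single w]
      unfold Finsupp.sum
      refine Finset.sum_congr rfl fun j _ => ?_
      rw [Finsupp.smul_single, smul_eq_mul, mul_one]
    rw [h2, map_sum]
    refine Submodule.sum_mem _ fun j hj => ?_
    rw [map_smul]
    apply Submodule.smul_mem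
    apply Submodule.subset_span
    have h3 : j < t := by
      by_contra h4
      exact (Finsupp.mem_support_iff.1 hj) (hw j (by omega))
    exact ⟨⟨j, h3⟩, rfl⟩
  have h2 := Submodule.finrank_mono h1
  rw [finrank_top, Module.finrank_fin_fun] at h2
  have h3 : Module.finrank (ZMod p) (Submodule.span (ZMod p)
      (Set.range fun i : Fin t => e (Finsupp.single (i : ℕ) 1))) ≤ Fintype.card (Fin t) :=
    finrank_range_le_card _
  rw [Fintype.card_fin] at h3
  omega

private theorem injB_comp {t : ℕ} {e : Nm p →ₗ[ZMod p] V p n} (he : InjB t e) (σ : G p n) :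
    InjB t ((σ : V p n →ₗ[ZMod p] V p n) ∘ₗ e) := by
  intro w hw h0
  exact he w hw ((LinearEquiv.map_eq_zero_iff σ).1 h0)

/-- The lines of a pattern which follows by a rule from the patterns in `D` can be derived from the
lines of the patterns in `D` and from a closed set of at most `(p ^ n) ^ t` further lines. -/
theorem inst_rule {D : List (ℕ × Finset (Bool × Inst Rel p (Nm p)))} {t : ℕ}
    {Δ : Finset (Bool × Inst Rel p (Nm p))} (hr : Rule (subf ψ) (fun x => x ∈ D) t Δ)
    (ht : t < n) {P : Set (Set (Lit (circ ψ n).N))} (hP : ∀ x ∈ D, LS ψ n x ⊆ P) :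
    ∃ Q : Set (Set (Lit (circ ψ n).N)), Closed ψ n Q ∧ Q.ncard ≤ (p ^ n) ^ t ∧
      (∀ Λ ∈ Q, Step ψ (circ ψ n) P Λ) ∧
      ∀ e : Nm p →ₗ[ZMod p] V p n, InjB t e → Step ψ (circ ψ n) (P ∪ Q) (line ψ e Δ) := by
  classical
  have trivQ : (∀ e : Nm p →ₗ[ZMod p] V p n, InjB t e →
      Step ψ (circ ψ n) P (line ψ e Δ)) →
      ∃ Q : Set (Set (Lit (circ ψ n).N)), Closed ψ n Q ∧ Q.ncard ≤ (p ^ n) ^ t ∧
      (∀ Λ ∈ Q, Step ψ (circ ψ n) P Λ) ∧
      ∀ e : Nm p →ₗ[ZMod p] V p n, InjB t e → Step ψ (circ ψ n) (P ∪ Q) (line ψ e Δ) := by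
    intro h
    refine ⟨∅, fun _ _ h1 => absurd h1 (Set.notMem_empty _), ?_,
      fun _ h1 => absurd h1 (Set.notMem_empty _),
      fun e he => step_mono Set.subset_union_left (h e he)⟩
    rw [Set.ncard_empty]
    exact Nat.zero_le _
  cases hr with
  | weak h1 h2 h3 =>
    exact trivQ fun e he => .weak (hP _ h3 ⟨e, he, rfl⟩) (line_mono h2)
  | ident c h1 h2 h3 =>
    exact trivQ fun e he => step_ident (mem_line h2 (h1 _ h2).1) (mem_line h3 (h1 _ h2).1)
  | atom R ts ts' v v' h1 h2 h3 h4 =>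
    refine trivQ fun e he => step_ident (mem_line h3 (h1 _ h3).1) ?_
    have h5 := mem_line (e := e) h4 (h1 _ h4).1
    have h6 : lit ψ (.rel R ts') (h1 _ h4).1 (fun i => e (v' i)) =
        lit ψ (.rel R ts) (h1 _ h3).1 (fun i => e (v i)) := by
      show (⟨⟨some (.inl ⟨⟨_, R⟩, _⟩), fun i => tv (fun i => e (v' i)) (ts' i)⟩, true⟩ :
        Lit (Nd ψ n)) = ⟨⟨some (.inl ⟨⟨_, R⟩, _⟩), fun i => tv (fun i => e (v i)) (ts i)⟩, true⟩
      simp only [tv_act e, h2]
    rw [h6] at h5
    exact h5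
  | cut c h1 h2 h3 h4 =>
    refine trivQ fun e he => ?_
    have h5 := hP _ h3 ⟨e, he, rfl⟩
    have h6 := hP _ h4 ⟨e, he, rfl⟩
    obtain ⟨k, φ, v⟩ := c
    rw [line_insert h2.1] at h5 h6
    exact step_cut h5 h6
  | falsum v h1 h2 =>
    exact trivQ fun e he => step_top (mem_line h2 (h1 _ h2).1)
  | eq τ v h1 h2 h3 =>
    refine trivQ fun e he => ?_
    have h5 := mem_line (e := e) h3 (h1 _ h3).1
    have h6 : lit ψ (.eq τ) (h1 _ h3).1 (fun i => e (v i)) =
        (⟨⟨none, fun i => Fin.elim0 i⟩, true⟩ : Lit (Nd ψ n)) := by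
      show (⟨⟨none, _⟩, decide (tv (fun i => e (v i)) τ = 0)⟩ :
        Lit (Nd ψ n)) = ⟨⟨none, _⟩, true⟩
      have h7 : decide (tv (fun i => e (v i)) τ = 0) = true := by
        rw [decide_eq_true_iff, tv_act e v τ, h2, map_zero]
      rw [h7]
    have h8 : sg true (lit ψ (.eq τ) (h1 _ h3).1 (fun i => e (v i))) =
        lit ψ (.eq τ) (h1 _ h3).1 (fun i => e (v i)) := rfl
    rw [h8, h6] at h5
    exact step_top h5
  | ne τ v h1 h2 h3 =>
    refine trivQ fun e he => ?_
    have h5 := mem_line (e := e) h3 (h1 _ h3).1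
    have h6 : lit ψ (.eq τ) (h1 _ h3).1 (fun i => e (v i)) =
        (⟨⟨none, fun i => Fin.elim0 i⟩, false⟩ : Lit (Nd ψ n)) := by
      show (⟨⟨none, _⟩, decide (tv (fun i => e (v i)) τ = 0)⟩ :
        Lit (Nd ψ n)) = ⟨⟨none, _⟩, false⟩
      have h7 : decide (tv (fun i => e (v i)) τ = 0) = false := by
        rw [decide_eq_false_iff_not, tv_act e v τ]
        intro h8
        exact h2 (he _ (tv_bel (h1 _ h3).2 τ) h8)
      rw [h7]
    rw [h6] at h5
    exact step_top h5
  | impR φ χ v h1 h2 h3 =>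
    refine trivQ fun e he => ?_
    have hs := (h1 _ h2).1
    have h5 := mem_line (e := e) h2 hs
    have h6 := hP _ h3 ⟨e, he, rfl⟩
    rw [line_insert (sub_imp1 hs), line_insert (sub_imp2 hs)] at h6
    refine .andE (S := {lit ψ φ (sub_imp1 hs) fun i => e (v i),
      (lit ψ χ (sub_imp2 hs) fun i => e (v i)).neg}) rfl h5 ?_
    have h7 : line ψ e Δ ∪ Lit.neg '' {lit ψ φ (sub_imp1 hs) fun i => e (v i),
        (lit ψ χ (sub_imp2 hs) fun i => e (v i)).neg} =
        insert (sg false (lit ψ φ (sub_imp1 hs) fun i => e (v i)))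
          (insert (sg true (lit ψ χ (sub_imp2 hs) fun i => e (v i))) (line ψ e Δ)) := by
      rw [Set.image_pair, neg_neg, Set.union_comm, Set.insert_union, Set.singleton_union]
      rfl
    exact Set.mem_of_eq_of_mem h7 h6
  | impL φ χ v h1 h2 h3 h4 =>
    refine trivQ fun e he => ?_
    have hs := (h1 _ h2).1
    have h5 := mem_line (e := e) h2 hs
    have h6 := hP _ h3 ⟨e, he, rfl⟩
    have h7 := hP _ h4 ⟨e, he, rfl⟩
    rw [line_insert (sub_imp1 hs)] at h6
    rw [line_insert (sub_imp2 hs)] at h7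
    refine .andI (S := {lit ψ φ (sub_imp1 hs) fun i => e (v i),
      (lit ψ χ (sub_imp2 hs) fun i => e (v i)).neg}) rfl h5 ?_
    rintro x (rfl | h8)
    · exact h6
    · obtain rfl : x = _ := h8
      exact h7
  | allL φ v b h1 h2 h3 h4 =>
    have hs := (h1 _ h3).1
    let F : (Nm p →ₗ[ZMod p] V p n) → Set (Lit (circ ψ n).N) := fun e =>
      line ψ e Δ ∪ Lit.neg '' Set.range fun b =>
        lit ψ φ (sub_all hs) (Fin.snoc (fun i => e (v i)) b)
    refine ⟨{Λ | ∃ e : Nm p →ₗ[ZMod p] V p n, InjB t e ∧ Λ = F e}, ?_, ?_, ?_, ?_⟩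
    · rintro σ _ ⟨e, he, rfl⟩
      refine ⟨(σ : V p n →ₗ[ZMod p] V p n) ∘ₗ e, injB_comp he σ, ?_⟩
      have h5 : Lit.map (σ • ·) '' (Lit.neg '' Set.range fun b => lit ψ φ (sub_all hs)
          (Fin.snoc (fun i => e (v i)) b)) = Lit.neg '' Set.range fun b => lit ψ φ (sub_all hs)
          (Fin.snoc (fun i => σ (e (v i))) b) := by
        ext x
        constructor
        · rintro ⟨_, ⟨_, ⟨b, rfl⟩, rfl⟩, rfl⟩
          refine ⟨_, ⟨σ b, rfl⟩, ?_⟩
          have h7 := lit_act ψ φ (sub_all hs) (Fin.snoc (fun i => e (v i)) b) σ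
          rw [snoc_fun (⇑σ) (fun i => e (v i)) b] at h7
          show (lit ψ φ (sub_all hs) (Fin.snoc (fun i => σ (e (v i))) (σ b))).neg =
            (Lit.map (σ • ·) (lit ψ φ (sub_all hs) (Fin.snoc (fun i => e (v i)) b))).neg
          rw [h7]
        · rintro ⟨_, ⟨b, rfl⟩, rfl⟩
          refine ⟨_, ⟨_, ⟨σ.symm b, rfl⟩, rfl⟩, ?_⟩
          have h7 := lit_act ψ φ (sub_all hs) (Fin.snoc (fun i => e (v i)) (σ.symm b)) σ
          rw [snoc_fun (⇑σ) (fun i => e (v i)) (σ.symm b), σ.apply_symm_apply] at h7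
          show (Lit.map (σ • ·)
            (lit ψ φ (sub_all hs) (Fin.snoc (fun i => e (v i)) (σ.symm b)))).neg =
            (lit ψ φ (sub_all hs) (Fin.snoc (fun i => σ (e (v i))) b)).neg
          rw [h7]
      exact (Set.image_union _ _ _).trans (congrArg₂ (· ∪ ·) (line_smul ψ σ e Δ) h5)
    · apply ncard_pat
      intro e e' hee
      have h5 : (fun i => e (v i)) = fun i => e' (v i) :=
        funext fun i => agr_bel hee ((h1 _ h3).2 i)
      show line ψ e Δ ∪ _ = line ψ e' Δ ∪ _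
      rw [line_congr h1 hee, h5]
    · rintro _ ⟨e, he, rfl⟩
      have h5 := hP _ h4 ⟨e, he, rfl⟩
      rw [line_insert (sub_all hs)] at h5
      refine .weak h5 ?_
      rintro x (rfl | hx)
      · right
        refine ⟨_, ⟨e b, rfl⟩, ?_⟩
        show (lit ψ φ (sub_all hs) (Fin.snoc (fun i => e (v i)) (e b))).neg = _
        rw [← snoc_fun (⇑e) v b]
        rfl
      · exact Or.inl hx
    · intro e he
      have h5 := mem_line (e := e) h3 hs
      exact .andE (S := Set.range fun b => lit ψ φ (sub_all hs) (Fin.snoc (fun i => e (v i)) b))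
        rfl h5 (Or.inr ⟨e, he, rfl⟩)
  | allR φ v h1 h2 h3 h4 =>
    refine trivQ fun e he => ?_
    have hs := (h1 _ h2).1
    have h5 := mem_line (e := e) h2 hs
    refine .andI (S := Set.range fun b => lit ψ φ (sub_all hs) (Fin.snoc (fun i => e (v i)) b))
      rfl h5 ?_
    rintro _ ⟨b, rfl⟩
    show insert (lit ψ φ (sub_all hs) (Fin.snoc (fun i => e (v i)) b)) (line ψ e Δ) ∈ P
    by_cases hb : ∃ w, Bel t w ∧ e w = b
    · obtain ⟨w, hw, rfl⟩ := hb
      have h6 := hP _ (h3 w hw) ⟨e, he, rfl⟩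
      rw [line_insert (sub_all hs), snoc_fun (⇑e) v w] at h6
      exact h6
    · push Not at hb
      obtain ⟨e', he', h7, h9⟩ := exists_ext he hb
      have h6 := hP _ h4 ⟨e', he', rfl⟩
      have h8 : (fun i => e' (v i)) = fun i => e (v i) :=
        funext fun i => agr_bel h7 ((h1 _ h2).2 i)
      rw [line_insert (sub_all hs), snoc_fun (⇑e') v (Finsupp.single t 1), line_congr h1 h7, h8,
        h9] at h6
      exact h6
  | new h1 h2 =>
    refine trivQ fun e he => ?_
    obtain ⟨b, hb⟩ := exists_new ht e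
    obtain ⟨e', he', h7, -⟩ := exists_ext he hb
    have h6 := hP _ h2 ⟨e', he', rfl⟩
    rw [line_congr h1 h7] at h6
    exact .weak h6 subset_rfl

end Pool.Agent.H81.GL
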