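import Pool.Agent.H81.GL.Defs

/-!
# Systematic search for infinite-dimensional models

MODULE DSearch. Compare `Pool/Agent/H31/SY/Search.lean`: the names `0, 1, 2, ...` are replaced by the
elements of the vector space `Nm p = ℕ →₀ ZMod p`; at stage `t` the span of the first `t` basis vectors
is known (`Bel t w`), and these basis vectors denote linearly independent elements.

`bel_finite`: `w ↦ (fun i : Fin t => w i)` is injective on `{w | Bel t w}` and `Fin t → ZMod p` is finite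
(`p` is prime; `Set.Finite.of_injOn`-like, `Finsupp.ext`).

`step`. As in the original file: if `c` is not below `t` go to `t + 1` (`Der.new`). Otherwise decide `c`
by `cut`; if `c` is `all φ` with the sign `true`, by `allR` there is `b`, `Bel t b`, or
`b = Finsupp.single t 1` such that adding the instance (at the stage `t` or `t + 1`) is not derivable;
in all cases at the stage `t + 1` with `Bel (t + 1) b`.

`exists_model`. As in the original file, with the universe `Nm p`. The countability of the instances: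
`Nm p` is countable (`Finsupp.countable`-like instance), so `Fin k → Nm p` is countable. For an
instance `c` with values `c.v i` there is a bound `N` with `Below (subf ψ) N c` (finite supports:
`(Finset.univ.sup fun i => (c.v i).support.sup id) + 1`). The interpretation:
`I r R x := ∃ k ts v, (∀ i, tv v (ts i) = x i) ∧ (false, ⟨k, .rel R ts, v⟩) ∈ T`. In the truth lemma:
`eq t`: rules `eq`, `ne`; `all φ`, left to right: use the stage where `b` is below (`Bel` is monotone in
`t`) and `allL`.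
`not_fin`. The basis vectors `Finsupp.single i 1` are linearly independent and infinitely many
(`Finsupp.basisSingleOne`, `Module.Finite.finite_basis`-like).
-/

set_option autoImplicit false

namespace Pool.Agent.H81.GL

/-- The names. -/
abbrev Nm (p : ℕ) : Type := ℕ →₀ ZMod p

/-- The name belongs to the span of the first `t` basis vectors. -/
def Bel {p : ℕ} (t : ℕ) (w : Nm p) : Prop := ∀ j, t ≤ j → w j = 0

/-- An instance of a formula: a formula and the elements denoted by its variables. -/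
structure Inst (Rel : ℕ → Type) (p : ℕ) (P : Type) where
  k : ℕ
  φ : Fml p Rel k
  v : Fin k → P

/-- Formulas with the number of their free variables. -/
abbrev SF (Rel : ℕ → Type) (p : ℕ) : Type := Σ k : ℕ, Fml p Rel k

variable {Rel : ℕ → Type} {p : ℕ}

/-- The subformulas of a formula. -/
def subf : {k : ℕ} → Fml p Rel k → Set (SF Rel p)
  | k, .falsum => {⟨k, .falsum⟩}
  | k, .eq t => {⟨k, .eq t⟩}
  | k, .rel R ts => {⟨k, .rel R ts⟩}
  | k, .imp φ χ => insert ⟨k, .imp φ χ⟩ (subf φ ∪ subf χ)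
  | k, .all φ => insert ⟨k, .all φ⟩ (subf φ)

/-- The formula belongs to `S` and all names which occur are in the span of the first `t` basis
vectors. -/
def Below (S : Set (SF Rel p)) (t : ℕ) (c : Inst Rel p (Nm p)) : Prop :=
  (⟨c.k, c.φ⟩ : SF Rel p) ∈ S ∧ ∀ i, Bel t (c.v i)

/-- The same for all members of a sequent. -/
def WF (S : Set (SF Rel p)) (t : ℕ) (Δ : Finset (Bool × Inst Rel p (Nm p))) : Prop :=
  ∀ x ∈ Δ, Below S t x.2

open Classical in
/-- The search calculus. A sequent `Δ` says that some member `(b, c)` of it has the truth value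
`b`, for all choices of `t` linearly independent elements for the first `t` basis vectors. -/
inductive Der (S : Set (SF Rel p)) : ℕ → Finset (Bool × Inst Rel p (Nm p)) → Prop
  | weak {t : ℕ} {Δ Λ : Finset (Bool × Inst Rel p (Nm p))} : WF S t Λ → Δ ⊆ Λ → Der S t Δ →
      Der S t Λ
  | ident {t : ℕ} {Δ : Finset (Bool × Inst Rel p (Nm p))} (c : Inst Rel p (Nm p)) : WF S t Δ →
      (true, c) ∈ Δ → (false, c) ∈ Δ → Der S t Δ
  | atom {t : ℕ} {Δ : Finset (Bool × Inst Rel p (Nm p))} {k k' m : ℕ} (R : Rel m)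
      (ts : Fin m → Fin k → ZMod p) (ts' : Fin m → Fin k' → ZMod p)
      (v : Fin k → Nm p) (v' : Fin k' → Nm p) : WF S t Δ →
      (∀ i, tv v (ts i) = tv v' (ts' i)) →
      (true, ⟨k, .rel R ts, v⟩) ∈ Δ → (false, ⟨k', .rel R ts', v'⟩) ∈ Δ → Der S t Δ
  | cut {t : ℕ} {Δ : Finset (Bool × Inst Rel p (Nm p))} (c : Inst Rel p (Nm p)) :
      Der S t (insert (true, c) Δ) → Der S t (insert (false, c) Δ) → Der S t Δ
  | falsum {t : ℕ} {Δ : Finset (Bool × Inst Rel p (Nm p))} {k : ℕ} (v : Fin k → Nm p) :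
      WF S t Δ → (false, ⟨k, .falsum, v⟩) ∈ Δ → Der S t Δ
  | eq {t : ℕ} {Δ : Finset (Bool × Inst Rel p (Nm p))} {k : ℕ} (τ : Fin k → ZMod p)
      (v : Fin k → Nm p) : WF S t Δ → tv v τ = 0 → (true, ⟨k, .eq τ, v⟩) ∈ Δ → Der S t Δ
  | ne {t : ℕ} {Δ : Finset (Bool × Inst Rel p (Nm p))} {k : ℕ} (τ : Fin k → ZMod p)
      (v : Fin k → Nm p) : WF S t Δ → tv v τ ≠ 0 → (false, ⟨k, .eq τ, v⟩) ∈ Δ → Der S t Δ
  | impR {t : ℕ} {Δ : Finset (Bool × Inst Rel p (Nm p))} {k : ℕ} (φ χ : Fml p Rel k)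
      (v : Fin k → Nm p) : (true, ⟨k, .imp φ χ, v⟩) ∈ Δ →
      Der S t (insert (false, ⟨k, φ, v⟩) (insert (true, ⟨k, χ, v⟩) Δ)) → Der S t Δ
  | impL {t : ℕ} {Δ : Finset (Bool × Inst Rel p (Nm p))} {k : ℕ} (φ χ : Fml p Rel k)
      (v : Fin k → Nm p) : (false, ⟨k, .imp φ χ, v⟩) ∈ Δ →
      Der S t (insert (true, ⟨k, φ, v⟩) Δ) → Der S t (insert (false, ⟨k, χ, v⟩) Δ) → Der S t Δ
  | allL {t : ℕ} {Δ : Finset (Bool × Inst Rel p (Nm p))} {k : ℕ} (φ : Fml p Rel (k + 1))
      (v : Fin k → Nm p) (b : Nm p) : Bel t b → (false, ⟨k, .all φ, v⟩) ∈ Δ →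
      Der S t (insert (false, ⟨k + 1, φ, Fin.snoc v b⟩) Δ) → Der S t Δ
  | allR {t : ℕ} {Δ : Finset (Bool × Inst Rel p (Nm p))} {k : ℕ} (φ : Fml p Rel (k + 1))
      (v : Fin k → Nm p) : WF S t Δ → (true, ⟨k, .all φ, v⟩) ∈ Δ →
      (∀ b, Bel t b → Der S t (insert (true, ⟨k + 1, φ, Fin.snoc v b⟩) Δ)) →
      Der S (t + 1) (insert (true, ⟨k + 1, φ, Fin.snoc v (Finsupp.single t 1)⟩) Δ) → Der S t Δ
  | new {t : ℕ} {Δ : Finset (Bool × Inst Rel p (Nm p))} : WF S t Δ → Der S (t + 1) Δ → Der S t Δ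

variable {S : Set (SF Rel p)}

theorem self_mem_subf {k : ℕ} (φ : Fml p Rel k) : (⟨k, φ⟩ : SF Rel p) ∈ subf φ := by
  cases φ
  · exact Set.mem_singleton _
  · exact Set.mem_singleton _
  · exact Set.mem_singleton _
  · exact Set.mem_insert _ _
  · exact Set.mem_insert _ _

theorem subf_finite {k : ℕ} (φ : Fml p Rel k) : (subf φ).Finite := by
  induction φ with
  | falsum => exact Set.finite_singleton _
  | eq t => exact Set.finite_singleton _
  | rel R ts => exact Set.finite_singleton _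
  | imp φ χ ih1 ih2 => exact (ih1.union ih2).insert _
  | all φ ih => exact ih.insert _

theorem subf_trans {k : ℕ} (φ : Fml p Rel k) : ∀ x ∈ subf φ, subf x.2 ⊆ subf φ := by
  induction φ with
  | falsum =>
    rintro x (rfl : x = _)
    exact subset_rfl
  | eq t =>
    rintro x (rfl : x = _)
    exact subset_rfl
  | rel R ts =>
    rintro x (rfl : x = _)
    exact subset_rfl
  | imp φ χ ih1 ih2 =>
    rintro x (rfl | hp | hp)
    · exact subset_rfl
    · exact ((ih1 x hp).trans Set.subset_union_left).trans (Set.subset_insert _ _)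
    · exact ((ih2 x hp).trans Set.subset_union_right).trans (Set.subset_insert _ _)
  | all φ ih =>
    rintro x (rfl | hp)
    · exact subset_rfl
    · exact (ih x hp).trans (Set.subset_insert _ _)

theorem Bel.mono {t t' : ℕ} {w : Nm p} (h : Bel t w) (ht : t ≤ t') : Bel t' w :=
  fun j hj => h j (ht.trans hj)

theorem WF.mono {t : ℕ} {Δ Λ : Finset (Bool × Inst Rel p (Nm p))} (h : WF S t Λ) (hs : Δ ⊆ Λ) :
    WF S t Δ := fun x hx => h x (hs hx)

theorem WF.succ {t : ℕ} {Δ : Finset (Bool × Inst Rel p (Nm p))} (h : WF S t Δ) :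
    WF S (t + 1) Δ :=
  fun x hx => ⟨(h x hx).1, fun i => ((h x hx).2 i).mono (Nat.le_succ t)⟩

open Classical in
theorem WF.insert {t : ℕ} {Δ : Finset (Bool × Inst Rel p (Nm p))} (h : WF S t Δ)
    {x : Bool × Inst Rel p (Nm p)} (hx : Below S t x.2) : WF S t (insert x Δ) := by
  intro y hy
  rcases Finset.mem_insert.1 hy with rfl | hy
  · exact hx
  · exact h y hy

theorem Below.snoc {t k : ℕ} {φ : Fml p Rel k} {v : Fin k → Nm p}
    (h : Below S t (⟨k, φ, v⟩ : Inst Rel p (Nm p))) {χ : Fml p Rel (k + 1)}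
    (hχ : (⟨k + 1, χ⟩ : SF Rel p) ∈ S) {b : Nm p} (hb : Bel t b) :
    Below S t (⟨k + 1, χ, Fin.snoc v b⟩ : Inst Rel p (Nm p)) := by
  refine ⟨hχ, fun i => ?_⟩
  refine Fin.lastCases ?_ (fun j => ?_) i
  · show Bel t ((Fin.snoc v b : Fin (k + 1) → Nm p) (Fin.last k))
    rw [Fin.snoc_last]
    exact hb
  · show Bel t ((Fin.snoc v b : Fin (k + 1) → Nm p) j.castSucc)
    rw [Fin.snoc_castSucc]
    exact h.2 j

theorem bel_finite [Fact p.Prime] (t : ℕ) : {w : Nm p | Bel t w}.Finite := by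
  have : NeZero p := ⟨(Fact.out : p.Prime).ne_zero⟩
  apply Set.Finite.of_finite_image (f := fun (w : Nm p) (i : Fin t) => w i.1) (Set.toFinite _)
  intro w hw w' hw' h
  apply Finsupp.ext
  intro j
  by_cases hj : j < t
  · exact congrFun h ⟨j, hj⟩
  · rw [hw j (not_lt.1 hj), hw' j (not_lt.1 hj)]

theorem not_fin [Fact p.Prime] : ¬ Module.Finite (ZMod p) (Nm p) := by
  intro h
  have h1 : Finite ℕ :=
    Module.Finite.finite_basis (Finsupp.basisSingleOne : Module.Basis ℕ (ZMod p) (Nm p))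
  exact not_finite ℕ

open Classical in
/-- One step of the search. -/
private theorem step (hS : ∀ (k : ℕ) (φ : Fml p Rel (k + 1)),
    (⟨k, .all φ⟩ : SF Rel p) ∈ S → (⟨k + 1, φ⟩ : SF Rel p) ∈ S) {t : ℕ}
    {Δ : Finset (Bool × Inst Rel p (Nm p))} (hw : WF S t Δ) (hd : ¬ Der S t Δ)
    (c : Inst Rel p (Nm p)) : ∃ (t' : ℕ) (Δ' : Finset (Bool × Inst Rel p (Nm p))), t < t' ∧
      Δ ⊆ Δ' ∧ WF S t' Δ' ∧ ¬ Der S t' Δ' ∧
      (Below S t c → ∃ s, (s, c) ∈ Δ' ∧ ∀ (k : ℕ) (φ : Fml p Rel (k + 1))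
        (v : Fin k → Nm p), c = ⟨k, .all φ, v⟩ → s = true →
          ∃ b, (true, (⟨k + 1, φ, Fin.snoc v b⟩ : Inst Rel p (Nm p))) ∈ Δ') := by
  by_cases hc : Below S t c
  · -- decide `c`
    have h1 : ∃ s, ¬ Der S t (insert (s, c) Δ) := by
      by_contra hcon
      push Not at hcon
      exact hd (Der.cut c (hcon true) (hcon false))
    obtain ⟨s, hs⟩ := h1
    have hws : WF S t (insert (s, c) Δ) := hw.insert hc
    by_cases hall : ∃ (k : ℕ) (φ : Fml p Rel (k + 1)) (v : Fin k → Nm p),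
        c = ⟨k, .all φ, v⟩ ∧ s = true
    · obtain ⟨k, φ, v, rfl, rfl⟩ := hall
      have h2 : (∃ b, Bel t b ∧ ¬ Der S t (insert (true, ⟨k + 1, φ, Fin.snoc v b⟩)
          (insert (true, (⟨k, .all φ, v⟩ : Inst Rel p (Nm p))) Δ))) ∨
          ¬ Der S (t + 1) (insert (true, ⟨k + 1, φ, Fin.snoc v (Finsupp.single t 1)⟩)
          (insert (true, (⟨k, .all φ, v⟩ : Inst Rel p (Nm p))) Δ)) := by
        by_contra hcon
        push Not at hcon
        exact hs (Der.allR φ v hws (Finset.mem_insert_self _ _) hcon.1 hcon.2)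
      have h3 : ∃ b : Nm p, Bel (t + 1) b ∧
          ¬ Der S (t + 1) (insert (true, ⟨k + 1, φ, Fin.snoc v b⟩)
          (insert (true, (⟨k, .all φ, v⟩ : Inst Rel p (Nm p))) Δ)) := by
        rcases h2 with ⟨b, hb, h⟩ | h
        · refine ⟨b, hb.mono (Nat.le_succ t), fun h' => h (Der.new ?_ h')⟩
          exact hws.insert (hc.snoc (hS _ _ hc.1) hb)
        · refine ⟨Finsupp.single t 1, fun j hj => ?_, h⟩
          rw [Finsupp.single_apply, if_neg (by omega)]
      obtain ⟨b, hb, h4⟩ := h3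
      have hc' : Below S (t + 1) (⟨k, .all φ, v⟩ : Inst Rel p (Nm p)) :=
        ⟨hc.1, fun i => (hc.2 i).mono (Nat.le_succ t)⟩
      refine ⟨t + 1, _, Nat.lt_succ_self t, ?_, hws.succ.insert (hc'.snoc (hS _ _ hc.1) hb), h4,
        fun _ => ?_⟩
      · exact (Finset.subset_insert _ _).trans (Finset.subset_insert _ _)
      · refine ⟨true, Finset.mem_insert_of_mem (Finset.mem_insert_self _ _), ?_⟩
        intro k' φ' v' heq _
        obtain ⟨rfl, heq⟩ := Inst.mk.inj heq
        obtain ⟨heq1, heq2⟩ := heq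
        have e1 := eq_of_heq heq1
        have e2 := eq_of_heq heq2
        injection e1 with _ e3
        subst e2
        rw [← e3]
        exact ⟨b, Finset.mem_insert_self _ _⟩
    · refine ⟨t + 1, insert (s, c) Δ, Nat.lt_succ_self t, Finset.subset_insert _ _, hws.succ,
        fun h => hs (Der.new hws h), fun _ => ⟨s, Finset.mem_insert_self _ _, ?_⟩⟩
      intro k φ v h1 h2
      exact absurd ⟨k, φ, v, h1, h2⟩ hall
  · exact ⟨t + 1, Δ, Nat.lt_succ_self t, subset_rfl, hw.succ, fun h => hd (Der.new hw h),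
      fun h => absurd h hc⟩

private theorem countable_inst [Fact p.Prime] (ψ : Fml p Rel 0) :
    {c : Inst Rel p (Nm p) | (⟨c.k, c.φ⟩ : SF Rel p) ∈ subf ψ}.Countable := by
  have : NeZero p := ⟨(Fact.out : p.Prime).ne_zero⟩
  have h1 : (⋃ q ∈ subf ψ, Set.range (fun v : Fin q.1 → Nm p =>
      (⟨q.1, q.2, v⟩ : Inst Rel p (Nm p)))).Countable :=
    (subf_finite ψ).countable.biUnion fun q _ => Set.countable_range _
  refine h1.mono fun c hc => ?_
  exact Set.mem_iUnion₂.2 ⟨⟨c.k, c.φ⟩, hc, c.v, rfl⟩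

open Classical in
private theorem exists_bound {k : ℕ} (v : Fin k → Nm p) : ∃ N, ∀ i, Bel N (v i) := by
  refine ⟨Finset.univ.sup (fun i => (v i).support.sup id) + 1, fun i j hj => ?_⟩
  by_contra h
  have h1 : j ∈ (v i).support := Finsupp.mem_support_iff.2 h
  have h2 : id j ≤ (v i).support.sup id := Finset.le_sup h1
  have h3 : (v i).support.sup id ≤ Finset.univ.sup (fun i => (v i).support.sup id) :=
    Finset.le_sup (f := fun i => (v i).support.sup id) (Finset.mem_univ i)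
  simp only [id] at h2
  omega

open Classical in
private theorem exists_model' [Fact p.Prime] (ψ : Fml p Rel 0)
    (hd : ¬ Der (subf ψ) 0 {(false, (⟨0, ψ, default⟩ : Inst Rel p (Nm p)))}) :
    ∃ I : Interp Rel (Nm p), ψ.Real I default := by
  -- the tasks
  obtain ⟨g, hg⟩ := (countable_inst ψ).exists_eq_range
    ⟨(⟨0, ψ, default⟩ : Inst Rel p (Nm p)), self_mem_subf ψ⟩
  have hg' : ∀ c : Inst Rel p (Nm p), (⟨c.k, c.φ⟩ : SF Rel p) ∈ subf ψ →
      ∃ a, g a = c := by
    intro c hc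
    have : c ∈ Set.range g := by
      rw [← hg]
      exact hc
    exact this
  -- the states
  let St : Type := {q : ℕ × Finset (Bool × Inst Rel p (Nm p)) //
    WF (subf ψ) q.1 q.2 ∧ ¬ Der (subf ψ) q.1 q.2}
  have hstep : ∀ (s : St) (c : Inst Rel p (Nm p)), ∃ s' : St, s.1.1 < s'.1.1 ∧ s.1.2 ⊆ s'.1.2 ∧
      (Below (subf ψ) s.1.1 c → ∃ b, (b, c) ∈ s'.1.2 ∧ ∀ (k : ℕ) (φ : Fml p Rel (k + 1))
        (v : Fin k → Nm p), c = ⟨k, .all φ, v⟩ → b = true →
          ∃ b, (true, (⟨k + 1, φ, Fin.snoc v b⟩ : Inst Rel p (Nm p))) ∈ s'.1.2) := by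
    intro s c
    obtain ⟨t', Δ', h1, h2, h3, h4, h5⟩ := step
      (fun k φ h => subf_trans ψ _ h (Set.mem_insert_of_mem _ (self_mem_subf φ))) s.2.1 s.2.2 c
    exact ⟨⟨(t', Δ'), h3, h4⟩, h1, h2, h5⟩
  choose F hF1 hF2 hF3 using hstep
  have hw0 : WF (subf ψ) 0 {(false, (⟨0, ψ, default⟩ : Inst Rel p (Nm p)))} := by
    intro x hx
    rw [Finset.mem_singleton] at hx
    subst hx
    exact ⟨self_mem_subf ψ, fun i => i.elim0⟩
  let s : ℕ → St := fun i =>
    Nat.rec ⟨(0, {(false, (⟨0, ψ, default⟩ : Inst Rel p (Nm p)))}), hw0, hd⟩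
    (fun i st => F st (g i.unpair.1)) i
  have hs : ∀ i, s (i + 1) = F (s i) (g i.unpair.1) := fun i => rfl
  have ht : ∀ i, i ≤ (s i).1.1 := by
    intro i
    induction i with
    | zero => exact Nat.zero_le _
    | succ i ih =>
      rw [hs]
      exact Nat.succ_le_of_lt (lt_of_le_of_lt ih (hF1 _ _))
  have hmono : ∀ i j, i ≤ j → (s i).1.2 ⊆ (s j).1.2 := by
    intro i j hij
    induction j, hij using Nat.le_induction with
    | base => exact subset_rfl
    | succ j _ ih =>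
      rw [hs]
      exact ih.trans (hF2 _ _)
  let T : Set (Bool × Inst Rel p (Nm p)) := {x | ∃ i, x ∈ (s i).1.2}
  have hev : ∀ x ∈ T, ∀ᶠ j in Filter.atTop, x ∈ (s j).1.2 := by
    rintro x ⟨i, hi⟩
    filter_upwards [Filter.eventually_ge_atTop i] with j hj
    exact hmono i j hj hi
  have hwf : ∀ i, WF (subf ψ) (s i).1.1 (s i).1.2 := fun i => (s i).2.1
  have hnd : ∀ i, ¬ Der (subf ψ) (s i).1.1 (s i).1.2 := fun i => (s i).2.2
  have hcons : ∀ c, (true, c) ∈ T → (false, c) ∈ T → False := by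
    intro c h1 h2
    obtain ⟨j, h3, h4⟩ := ((hev _ h1).and (hev _ h2)).exists
    exact hnd j (Der.ident c (hwf j) h3 h4)
  have hdec : ∀ c : Inst Rel p (Nm p), (⟨c.k, c.φ⟩ : SF Rel p) ∈ subf ψ →
      ∃ b, (b, c) ∈ T ∧ ∀ (k : ℕ) (φ : Fml p Rel (k + 1)) (v : Fin k → Nm p),
        c = ⟨k, .all φ, v⟩ → b = true →
          ∃ b, (true, (⟨k + 1, φ, Fin.snoc v b⟩ : Inst Rel p (Nm p))) ∈ T := by
    intro c hc
    obtain ⟨a, ha⟩ := hg' c hc
    obtain ⟨N, hN⟩ := exists_bound c.v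
    let i := Nat.pair a N
    have h1 : Below (subf ψ) (s i).1.1 c := by
      refine ⟨hc, fun l => (hN l).mono ?_⟩
      exact (Nat.right_le_pair a N).trans (ht i)
    have h2 : g i.unpair.1 = c := by
      show g (Nat.pair a N).unpair.1 = c
      rw [Nat.unpair_pair]
      exact ha
    obtain ⟨b, hb, hb2⟩ := hF3 (s i) c h1
    have h3 : s (i + 1) = F (s i) c := by rw [hs, h2]
    rw [← h3] at hb hb2
    refine ⟨b, ⟨i + 1, hb⟩, fun k φ v h4 h5 => ?_⟩
    obtain ⟨b', hb'⟩ := hb2 k φ v h4 h5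
    exact ⟨b', i + 1, hb'⟩
  have hdec' : ∀ c : Inst Rel p (Nm p), (⟨c.k, c.φ⟩ : SF Rel p) ∈ subf ψ →
      (true, c) ∈ T ∨ (false, c) ∈ T := by
    intro c hc
    obtain ⟨b, hb, -⟩ := hdec c hc
    cases b
    · exact Or.inr hb
    · exact Or.inl hb
  -- the model
  let I : Interp Rel (Nm p) := fun r R x =>
    ∃ (k : ℕ) (ts : Fin r → Fin k → ZMod p) (v : Fin k → Nm p),
        (∀ i, tv v (ts i) = x i) ∧ (false, (⟨k, .rel R ts, v⟩ : Inst Rel p (Nm p))) ∈ T
  have truth : ∀ {k : ℕ} (φ : Fml p Rel k),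
      (⟨k, φ⟩ : SF Rel p) ∈ subf ψ → ∀ v : Fin k → Nm p,
      ((false, (⟨k, φ, v⟩ : Inst Rel p (Nm p))) ∈ T → φ.Real I v) ∧
      ((true, (⟨k, φ, v⟩ : Inst Rel p (Nm p))) ∈ T → ¬ φ.Real I v) := by
    intro k φ
    induction φ with
    | falsum =>
      intro _ v
      refine ⟨fun h => ?_, fun _ h => h⟩
      obtain ⟨j, h1⟩ := (hev _ h).exists
      exact absurd (Der.falsum v (hwf j) h1) (hnd j)
    | eq τ =>
      intro _ v
      refine ⟨fun h => ?_, fun h h2 => ?_⟩
      · obtain ⟨j, h2⟩ := (hev _ h).exists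
        by_contra h3
        exact hnd j (Der.ne τ v (hwf j) h3 h2)
      · obtain ⟨j, h3⟩ := (hev _ h).exists
        exact hnd j (Der.eq τ v (hwf j) h2 h3)
    | rel R ts =>
      intro _ v
      refine ⟨fun h => ⟨_, ts, v, fun i => rfl, h⟩, ?_⟩
      rintro h ⟨k', ts', v', h2, h3⟩
      obtain ⟨j, h4, h5⟩ := ((hev _ h).and (hev _ h3)).exists
      exact hnd j (Der.atom R ts ts' v v' (hwf j) (fun i => (h2 i).symm) h4 h5)
    | imp φ χ ih1 ih2 =>
      intro hsub v
      have hs1 := subf_trans ψ _ hsub (Set.mem_insert_of_mem _ (Or.inl (self_mem_subf φ)))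
      have hs2 := subf_trans ψ _ hsub (Set.mem_insert_of_mem _ (Or.inr (self_mem_subf χ)))
      have ih1' := ih1 hs1 v
      have ih2' := ih2 hs2 v
      constructor
      · intro h h1
        rcases hdec' ⟨_, χ, v⟩ hs2 with h2 | h2
        · rcases hdec' ⟨_, φ, v⟩ hs1 with h3 | h3
          · exact absurd h1 (ih1'.2 h3)
          · obtain ⟨j, ⟨h4, h5⟩, h6⟩ := (((hev _ h).and (hev _ h2)).and (hev _ h3)).exists
            have hb1 : Below (subf ψ) (s j).1.1 (⟨_, φ, v⟩ : Inst Rel p (Nm p)) := hwf j _ h6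
            have hb2 : Below (subf ψ) (s j).1.1 (⟨_, χ, v⟩ : Inst Rel p (Nm p)) := hwf j _ h5
            refine absurd (Der.impL φ χ v h4 ?_ ?_) (hnd j)
            · exact Der.ident ⟨_, φ, v⟩ ((hwf j).insert hb1) (Finset.mem_insert_self _ _)
                (Finset.mem_insert_of_mem h6)
            · exact Der.ident ⟨_, χ, v⟩ ((hwf j).insert hb2) (Finset.mem_insert_of_mem h5)
                (Finset.mem_insert_self _ _)
        · exact ih2'.1 h2
      · intro h h1
        rcases hdec' ⟨_, φ, v⟩ hs1 with h3 | h3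
        · obtain ⟨j, h4, h5⟩ := ((hev _ h).and (hev _ h3)).exists
          have hb1 : Below (subf ψ) (s j).1.1 (⟨_, φ, v⟩ : Inst Rel p (Nm p)) := hwf j _ h5
          have hb2 : Below (subf ψ) (s j).1.1 (⟨_, χ, v⟩ : Inst Rel p (Nm p)) := ⟨hs2, hb1.2⟩
          refine absurd (Der.impR φ χ v h4 ?_) (hnd j)
          exact Der.ident ⟨_, φ, v⟩ (((hwf j).insert hb2).insert hb1)
            (Finset.mem_insert_of_mem (Finset.mem_insert_of_mem h5)) (Finset.mem_insert_self _ _)
        · have h4 := h1 (ih1'.1 h3)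
          rcases hdec' ⟨_, χ, v⟩ hs2 with h2 | h2
          · exact ih2'.2 h2 h4
          · obtain ⟨j, h5, h6⟩ := ((hev _ h).and (hev _ h2)).exists
            have hb2 : Below (subf ψ) (s j).1.1 (⟨_, χ, v⟩ : Inst Rel p (Nm p)) := hwf j _ h6
            have hb1 : Below (subf ψ) (s j).1.1 (⟨_, φ, v⟩ : Inst Rel p (Nm p)) := ⟨hs1, hb2.2⟩
            refine absurd (Der.impR φ χ v h5 ?_) (hnd j)
            exact Der.ident ⟨_, χ, v⟩ (((hwf j).insert hb2).insert hb1)
              (Finset.mem_insert_of_mem (Finset.mem_insert_self _ _))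
              (Finset.mem_insert_of_mem (Finset.mem_insert_of_mem h6))
    | all φ ih =>
      intro hsub v
      have hs1 := subf_trans ψ _ hsub (Set.mem_insert_of_mem _ (self_mem_subf φ))
      constructor
      · intro h b
        rcases hdec' ⟨_, φ, Fin.snoc v b⟩ hs1 with h2 | h2
        · obtain ⟨N, hN⟩ := exists_bound (fun _ : Fin 1 => b)
          obtain ⟨j, ⟨h4, h5⟩, h6⟩ := (((hev _ h).and (hev _ h2)).and
            (Filter.eventually_ge_atTop N)).exists
          have hb1 : Below (subf ψ) (s j).1.1 (⟨_, φ, Fin.snoc v b⟩ : Inst Rel p (Nm p)) :=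
            hwf j _ h5
          refine absurd (Der.allL φ v b ((hN 0).mono (h6.trans (ht j))) h4 ?_) (hnd j)
          exact Der.ident ⟨_, φ, Fin.snoc v b⟩ ((hwf j).insert hb1)
            (Finset.mem_insert_of_mem h5) (Finset.mem_insert_self _ _)
        · exact (ih hs1 _).1 h2
      · intro h h1
        obtain ⟨b, hb, hb2⟩ := hdec ⟨_, .all φ, v⟩ hsub
        cases b with
        | false => exact hcons _ h hb
        | true =>
          obtain ⟨b', hb'⟩ := hb2 _ φ v rfl rfl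
          exact (ih hs1 _).2 hb' (h1 b')
  refine ⟨I, ?_⟩
  have h0 : (false, (⟨0, ψ, default⟩ : Inst Rel p (Nm p))) ∈ T :=
    ⟨0, Finset.mem_singleton_self _⟩
  exact (truth ψ (self_mem_subf ψ) _).1 h0

/-- **Completeness of the search.** If the refutation of `ψ` is not derivable then `ψ` has a model
with the universe `Nm p`. -/
theorem exists_model [Fact p.Prime] (ψ : Fml p Rel 0)
    (hd : ¬ Der (subf ψ) 0 {(false, (⟨0, ψ, default⟩ : Inst Rel p (Nm p)))}) :
    ∃ I : Interp Rel (Nm p), ψ.Real I default :=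
  exists_model' ψ hd

end Pool.Agent.H81.GL
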