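import Pool.Agent.H81.GL.DInst
import Pool.Agent.H81.GL.Act

/-!
# A sentence without infinite-dimensional models has symmetric refutations of polynomial size

MODULE DUpper. Compare `Pool/Agent/H31/SY/Upper.lean` (with `p ^ n` in place of `r + n`).

`lin_ordered`: as `lin_good`. `card_nd`: `Nat.card (V p n) = p ^ n`. `upper`: by `exists_model` and
`not_fin` the sequent `{(false, ψ)}` is derivable (`h` for `M = Nm p`); `exists_lin`; let `T` bound the
stages of the list `D`, `K` the arities. `c = Nat.card (Sh ψ) + 2 * D.length + 2 + K + T + 1 + dep ψ`. For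
`n ≥ c`: `T < n`, and the size is at most `Nat.card (Sh ψ) * (p ^ n) ^ K + 2 * D.length * (p ^ n) ^ T + 2 ≤
(p ^ n) ^ c` because `Nat.card (Sh ψ) + 2 * D.length + 2 ≤ n ≤ p ^ n` (`Nat.lt_pow_self`). Symmetry: the
action of `(⊤ : Subgroup (G p n))` on `Nd ψ n` is the restriction of that of `G p n` (the instance for
subgroups), `gateN_act`, `Closed`.
-/

set_option autoImplicit false

namespace Pool.Agent.H81.GL

open scoped Pointwise

variable {Rel : ℕ → Type} {p : ℕ} [Fact p.Prime]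

theorem lin_ordered {ψ : Fml p Rel 0} {n : ℕ}
    {D : List (ℕ × Finset (Bool × Inst Rel p (Nm p)))} (hD : Lin (subf ψ) D) {T : ℕ}
    (hT : ∀ x ∈ D, x.1 ≤ T) (hn : T < n) :
    ∃ Ls : Set (Set (Lit (Nd ψ n))), Ordered ψ n Ls ∧ (∀ x ∈ D, LS ψ n x ⊆ Ls) ∧
      Ls.ncard ≤ 2 * D.length * (p ^ n) ^ T := by
  induction hD with
  | nil =>
    refine ⟨∅, ordered_empty _ _, fun x hx => absurd hx List.not_mem_nil, ?_⟩
    rw [Set.ncard_empty]
    exact Nat.zero_le _
  | @cons D t Δ h1 h2 ih =>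
    obtain ⟨Ls, hg, hl, hc⟩ := ih fun x hx => hT x (List.mem_cons_of_mem _ hx)
    have ht : t ≤ T := hT (t, Δ) List.mem_cons_self
    obtain ⟨Q, hQ1, hQ2, hQ3, hQ4⟩ := inst_rule h2 (lt_of_le_of_lt ht hn) hl
    have hg1 : Ordered ψ n (Ls ∪ Q) := ordered_union hg hQ1 hQ3
    have hg2 : Ordered ψ n ((Ls ∪ Q) ∪ LS ψ n (t, Δ)) := by
      refine ordered_union hg1 (closed_LS ψ n (t, Δ)) ?_
      rintro _ ⟨e, he, rfl⟩
      exact hQ4 e he
    refine ⟨_, hg2, ?_, ?_⟩
    · intro x hx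
      rcases List.mem_cons.1 hx with rfl | hx
      · exact Set.subset_union_right
      · exact (hl x hx).trans (Set.subset_union_left.trans Set.subset_union_left)
    · have hn0 : 0 < p ^ n := Nat.pow_pos (Fact.out : p.Prime).pos
      have h3 : (p ^ n) ^ t ≤ (p ^ n) ^ T := Nat.pow_le_pow_right hn0 ht
      have h4 : (LS ψ n (t, Δ)).ncard ≤ (p ^ n) ^ t := ncard_LS h2.wf
      have h5 := Set.ncard_union_le (Ls ∪ Q) (LS ψ n (t, Δ))
      have h6 := Set.ncard_union_le Ls Q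
      rw [List.length_cons]
      have h7 : 2 * (D.length + 1) * (p ^ n) ^ T =
        2 * D.length * (p ^ n) ^ T + 2 * (p ^ n) ^ T := by ring
      rw [h7]
      have h8 : ((Ls ∪ Q) ∪ LS ψ n (t, Δ)).ncard ≤
        Ls.ncard + Q.ncard + (LS ψ n (t, Δ)).ncard := h5.trans (Nat.add_le_add_right h6 _)
      omega

omit [Fact p.Prime] in
private theorem dep_le {k : ℕ} (φ : Fml p Rel k) : ∀ x ∈ subf φ, dep x.2 ≤ dep φ := by
  induction φ with
  | falsum =>
    rintro x (rfl : x = _)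
    exact le_rfl
  | eq t =>
    rintro x (rfl : x = _)
    exact le_rfl
  | rel R ts =>
    rintro x (rfl : x = _)
    exact le_rfl
  | imp φ χ ih1 ih2 =>
    rintro x (rfl | hp | hp)
    · exact le_rfl
    · exact (ih1 x hp).trans ((le_max_left _ _).trans (Nat.le_succ _))
    · exact (ih2 x hp).trans ((le_max_right _ _).trans (Nat.le_succ _))
  | all φ ih =>
    rintro x (rfl | hp)
    · exact le_rfl
    · exact (ih x hp).trans (Nat.le_succ _)

omit [Fact p.Prime] in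
private theorem rk_le {ψ : Fml p Rel 0} {n : ℕ} (a : Nd ψ n) : rk ψ a ≤ dep ψ := by
  obtain ⟨s, v⟩ := a
  rcases s with _ | R | x
  · exact Nat.zero_le _
  · exact Nat.zero_le _
  · exact dep_le ψ x.1 x.2

theorem card_nd {ψ : Fml p Rel 0} {n K : ℕ} (hK : ∀ s : Sh ψ, ar ψ s ≤ K) :
    Nat.card (Nd ψ n) ≤ Nat.card (Sh ψ) * (p ^ n) ^ K := by
  classical
  have hn0 : 0 < p ^ n := Nat.pow_pos (Fact.out : p.Prime).pos
  have := Fintype.ofFinite (Sh ψ)
  have h1 : Nat.card (Nd ψ n) = ∑ s : Sh ψ, (p ^ n) ^ ar ψ s := by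
    unfold Nd
    rw [Nat.card_eq_fintype_card, Fintype.card_sigma]
    apply Finset.sum_congr rfl
    intro s _
    rw [Fintype.card_fun, Fintype.card_fun, ZMod.card, Fintype.card_fin, Fintype.card_fin]
  rw [h1, Nat.card_eq_fintype_card]
  have h2 : ∑ s : Sh ψ, (p ^ n) ^ ar ψ s ≤ ∑ _s : Sh ψ, (p ^ n) ^ K :=
    Finset.sum_le_sum fun s _ => Nat.pow_le_pow_right hn0 (hK s)
  rw [Finset.sum_const, Finset.card_univ, smul_eq_mul] at h2
  exact h2

/-- The refutation given by a set of lines. -/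
private def mkRef {ψ : Fml p Rel 0} {n : ℕ} {C : Circuit Rel p n} (Ls : Set (Set (Lit C.N)))
    (o : Set (Lit C.N) → ℕ) (hs : ∀ Λ ∈ Ls, Step ψ C {Δ | Δ ∈ Ls ∧ o Δ < o Λ} Λ)
    (he : ∅ ∈ Ls) : Refutation ψ n where
  C := C
  lines := Ls
  order := o
  step := hs
  empty_mem := he

/-- **Upper bound.** If `ψ` has no infinite-dimensional model then the translations of `ψ` over
`V p n`, `n` large, have symmetric refutations of polynomial size and bounded depth. -/
theorem upper (ψ : Fml p Rel 0)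
    (h : ∀ (M : Type) [AddCommGroup M] [Module (ZMod p) M] (I : Interp Rel M),
      ¬ Module.Finite (ZMod p) M → ¬ ψ.Real I default) :
    ∃ c : ℕ, ∀ n : ℕ, c ≤ n → ∃ R : Refutation ψ n, R.SymmM ⊤ ∧ R.size ≤ (p ^ n) ^ c ∧
      ∀ a, R.C.rank a ≤ c := by
  classical
  have hder : Der (subf ψ) 0 {(false, (⟨0, ψ, default⟩ : Inst Rel p (Nm p)))} := by
    by_contra hcon
    obtain ⟨I, hI⟩ := exists_model ψ hcon
    have e : ∀ v w : Fin 0 → Nm p, ψ.Real I v → ψ.Real I w := fun v w hv => by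
      rwa [Subsingleton.elim w v]
    exact h (Nm p) I not_fin (e _ _ hI)
  obtain ⟨D, hD, hmem⟩ := exists_lin hder
  obtain ⟨T, hT⟩ : ∃ T, ∀ x ∈ D, x.1 ≤ T := by
    have hf : (D.map Prod.fst).toFinset.Nonempty :=
      ⟨0, by
        rw [List.mem_toFinset, List.mem_map]
        exact ⟨_, hmem, rfl⟩⟩
    refine ⟨(D.map Prod.fst).toFinset.max' hf, fun x hx => ?_⟩
    apply Finset.le_max'
    rw [List.mem_toFinset, List.mem_map]
    exact ⟨x, hx, rfl⟩
  obtain ⟨K, hK⟩ : ∃ K, ∀ s : Sh ψ, ar ψ s ≤ K := by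
    obtain ⟨K, hK⟩ := Finite.bddAbove_range (ar ψ)
    exact ⟨K, fun s => hK ⟨s, rfl⟩⟩
  refine ⟨Nat.card (Sh ψ) + 2 * D.length + 2 + K + T + 1 + dep ψ, fun n hn => ?_⟩
  have hp1 : 1 < p := (Fact.out : p.Prime).one_lt
  have hn0 : 0 < p ^ n := Nat.pow_pos (Fact.out : p.Prime).pos
  have hnp : n < p ^ n := Nat.lt_pow_self hp1
  have hTn : T < n := by omega
  obtain ⟨Ls, hg, hl, hc⟩ := lin_ordered hD hT hTn
  -- the hypothesis
  let x0 : Lit (Nd ψ n) := lit ψ ψ (self_mem_subf ψ) default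
  have hx0 : ∀ v : Fin 0 → V p n, lit ψ ψ (self_mem_subf ψ) v = x0 := by
    intro v
    have e : v = default := Subsingleton.elim _ _
    rw [e]
  have hcl1 : Closed ψ n {{x0}} := by
    intro σ Λ hΛ
    obtain rfl : Λ = _ := hΛ
    show Lit.map (σ • ·) '' {x0} = {x0}
    rw [Set.image_singleton]
    have h1 : Lit.map (σ • ·) x0 = x0 :=
      (lit_act ψ ψ (self_mem_subf ψ) default σ).symm.trans (hx0 _)
    rw [h1]
  have hg1 : Ordered ψ n (Ls ∪ {{x0}}) := by
    refine ordered_union hg hcl1 ?_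
    intro Λ hΛ
    obtain rfl : Λ = _ := hΛ
    exact .hyp (x := x0) (rep_lit ψ ψ (self_mem_subf ψ) default) (Set.mem_singleton _)
  have hneg : ({x0.neg} : Set (Lit (Nd ψ n))) ∈ Ls := by
    apply hl _ hmem
    refine ⟨0, ?_, ?_⟩
    · intro w hw _
      exact Finsupp.ext fun j => hw j (Nat.zero_le j)
    · ext x
      constructor
      · rintro (rfl : x = _)
        refine ⟨_, Finset.mem_singleton_self _, self_mem_subf ψ, ?_⟩
        exact (congrArg Lit.neg (hx0 _)).symm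
      · rintro ⟨y, hy, h1, rfl⟩
        rw [Finset.mem_singleton] at hy
        subst hy
        exact congrArg Lit.neg (hx0 _)
  have hcl2 : Closed ψ n {∅} := by
    intro σ Λ hΛ
    obtain rfl : Λ = _ := hΛ
    exact Set.image_empty _
  have hg2 : Ordered ψ n ((Ls ∪ {{x0}}) ∪ {∅}) := by
    refine ordered_union hg1 hcl2 ?_
    intro Λ hΛ
    obtain rfl : Λ = _ := hΛ
    have e1 : (insert x0 ∅ : Set (Lit (Nd ψ n))) = {x0} := insert_empty_eq _
    have e2 : (insert x0.neg ∅ : Set (Lit (Nd ψ n))) ∈ Ls := by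
      rw [insert_empty_eq]
      exact hneg
    exact step_cut (x := x0) (Or.inr e1) (Or.inl e2)
  obtain ⟨L1, hL1⟩ : ∃ L1 : Set (Set (Lit (Nd ψ n))), L1 = (Ls ∪ {{x0}}) ∪ {∅} := ⟨_, rfl⟩
  have hL1e : (∅ : Set (Lit (Nd ψ n))) ∈ L1 := by
    rw [hL1]
    exact Or.inr rfl
  have hL1c : L1.ncard ≤ Ls.ncard + 2 := by
    have h2 := Set.ncard_union_le (Ls ∪ {{x0}}) {∅}
    have h3 := Set.ncard_union_le Ls {{x0}}
    rw [Set.ncard_singleton] at h2 h3
    rw [hL1]
    omega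
  rw [← hL1] at hg2
  obtain ⟨hcl, o, hord⟩ := hg2
  refine ⟨mkRef (C := circ ψ n) L1 o hord hL1e, ?_, ?_, ?_⟩
  · refine ⟨(inferInstance : MulAction (⊤ : Subgroup (G p n)) (Nd ψ n)), ?_, ?_⟩
    · intro σ a
      exact gateN_act ψ (σ : G p n) a
    · intro σ Λ hΛ
      exact hcl (σ : G p n) Λ hΛ
  · show Nat.card (Nd ψ n) + L1.ncard ≤ _
    have h1 : Nat.card (Nd ψ n) ≤ Nat.card (Sh ψ) * (p ^ n) ^ K := card_nd hK
    have h4 : Nat.card (Nd ψ n) + L1.ncard ≤
        Nat.card (Sh ψ) * (p ^ n) ^ K + 2 * D.length * (p ^ n) ^ T + 2 := by omega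
    refine h4.trans ?_
    have h5 : (p ^ n) ^ K ≤ (p ^ n) ^ (K + T) := Nat.pow_le_pow_right hn0 (by omega)
    have h6 : (p ^ n) ^ T ≤ (p ^ n) ^ (K + T) := Nat.pow_le_pow_right hn0 (by omega)
    have h7 : 1 ≤ (p ^ n) ^ (K + T) := Nat.one_le_pow _ _ hn0
    have h8 : Nat.card (Sh ψ) * (p ^ n) ^ K + 2 * D.length * (p ^ n) ^ T + 2 ≤
        (Nat.card (Sh ψ) + 2 * D.length + 2) * (p ^ n) ^ (K + T) := by
      have e1 := Nat.mul_le_mul_left (Nat.card (Sh ψ)) h5
      have e2 := Nat.mul_le_mul_left (2 * D.length) h6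
      have e3 := Nat.mul_le_mul_left 2 h7
      rw [add_mul, add_mul]
      omega
    have h9 : (Nat.card (Sh ψ) + 2 * D.length + 2) * (p ^ n) ^ (K + T) ≤
        p ^ n * (p ^ n) ^ (K + T) := Nat.mul_le_mul_right _ (by omega)
    refine (h8.trans h9).trans ?_
    rw [← pow_succ']
    exact Nat.pow_le_pow_right hn0 (by omega)
  · intro a
    have h1 := rk_le (ψ := ψ) (n := n) a
    show rk ψ a ≤ _
    omega

end Pool.Agent.H81.GL
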