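import Pool.Agent.H81.GL.Defs

/-!
# The induced circuit

A subgroup `Γ` of the general linear group acts on a circuit; the induced circuit has the nodes
`[g, a]`, `g` in the general linear group, with `[g * γ, a] = [g, γ • a]` for `γ ∈ Γ`.
-/

set_option autoImplicit false

namespace Pool.Agent.H81.GL

open scoped Pointwise

/-- Renaming twice. -/
theorem Gate.map_map {Rel : ℕ → Type} {E N N' N'' : Type} (f f' : E → E) (g : N → N')
    (g' : N' → N'') (x : Gate (Atom Rel E) N) :
    (x.map f g).map f' g' = x.map (fun v => f' (f v)) (fun a => g' (g a)) := by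
  cases x with
  | var v => rfl
  | and S =>
    show Gate.and (Lit.map g' '' (Lit.map g '' S)) = Gate.and (Lit.map (fun a => g' (g a)) '' S)
    rw [Set.image_image]
    rfl

/-- The action is compatible with the labels. -/
def Compat {Rel : ℕ → Type} {p n : ℕ} (C : Circuit Rel p n) (Γ : Subgroup (G p n))
    [MulAction Γ C.N] : Prop :=
  ∀ (σ : Γ) (a : C.N), C.gate (σ • a) = (C.gate a).map (σ : G p n) (σ • ·)

section

variable {p n : ℕ} (Γ : Subgroup (G p n)) (N : Type) [MulAction Γ N]

/-- Identification of pairs. -/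
def indSetoid : Setoid (G p n × N) where
  r x y := ∃ γ : Γ, x.1 = y.1 * (γ : G p n) ∧ y.2 = γ • x.2
  iseqv := by
    constructor
    · intro x
      exact ⟨1, by simp, by simp⟩
    · rintro x y ⟨γ, h1, h2⟩
      refine ⟨γ⁻¹, ?_, ?_⟩
      · rw [h1, Subgroup.coe_inv, mul_inv_cancel_right]
      · rw [h2, inv_smul_smul]
    · rintro x y z ⟨γ, h1, h2⟩ ⟨δ, h3, h4⟩
      refine ⟨δ * γ, ?_, ?_⟩
      · rw [h1, h3, Subgroup.coe_mul, mul_assoc]
      · rw [h4, h2, mul_smul]

/-- The induced set. -/
def IN : Type := Quotient (indSetoid Γ N)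

variable {N}

/-- The class of a pair. -/
def imk (g : G p n) (a : N) : IN Γ N := Quotient.mk (indSetoid Γ N) (g, a)

theorem imk_mul (g : G p n) (γ : Γ) (a : N) : imk Γ (g * (γ : G p n)) a = imk Γ g (γ • a) :=
  Quotient.sound (s := indSetoid Γ N) ⟨γ, rfl, rfl⟩

theorem exists_imk (z : IN Γ N) : ∃ (g : G p n) (a : N), z = imk Γ g a := by
  induction z using Quotient.inductionOn with
  | h x => exact ⟨x.1, x.2, rfl⟩

instance [Finite N] [Finite (G p n)] : Finite (IN Γ N) :=
  inferInstanceAs (Finite (Quotient (indSetoid Γ N)))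

instance : MulAction (G p n) (IN Γ N) where
  smul τ := Quotient.map (fun x => (τ * x.1, x.2)) (by
    rintro x y ⟨γ, h1, h2⟩
    exact ⟨γ, by rw [h1, mul_assoc], h2⟩)
  one_smul z := by
    induction z using Quotient.inductionOn with
    | h x => exact congrArg (Quotient.mk (indSetoid Γ N)) (Prod.ext (one_mul _) rfl)
  mul_smul τ ρ z := by
    induction z using Quotient.inductionOn with
    | h x => exact congrArg (Quotient.mk (indSetoid Γ N)) (Prod.ext (mul_assoc _ _ _) rfl)

theorem smul_imk (τ g : G p n) (a : N) : τ • imk Γ g a = imk Γ (τ * g) a := rfl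

end

variable {Rel : ℕ → Type} {p n : ℕ} (C : Circuit Rel p n) (Γ : Subgroup (G p n))
  [MulAction Γ C.N]

/-- The label of a node of the induced circuit. -/
def igate (hC : Compat C Γ) (z : IN Γ C.N) : Gate (Atom Rel (V p n)) (IN Γ C.N) :=
  Quotient.lift (s := indSetoid Γ C.N)
    (fun x => (C.gate x.2).map (x.1 : G p n) (fun a => imk Γ x.1 a)) (by
      rintro ⟨g, a⟩ ⟨g', a'⟩ ⟨γ, h1, h2⟩
      have h1' : g = g' * (γ : G p n) := h1
      have h2' : a' = γ • a := h2
      subst h1' h2'
      show (C.gate a).map (g' * (γ : G p n) : G p n) (fun a => imk Γ (g' * (γ : G p n)) a) =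
        (C.gate (γ • a)).map g' (fun a => imk Γ g' a)
      rw [hC γ a, Gate.map_map]
      congr 1
      funext b
      exact imk_mul Γ g' γ b) z

theorem igate_mk (hC : Compat C Γ) (g : G p n) (a : C.N) :
    igate C Γ hC (imk Γ g a) = (C.gate a).map g (fun b => imk Γ g b) := rfl

/-- The level of a node of the induced circuit: the least level of a member of its class. -/
noncomputable def irank (z : IN Γ C.N) : ℕ :=
  sInf {r | ∃ (g : G p n) (a : C.N), z = imk Γ g a ∧ r = C.rank a}

theorem irank_lt (hC : Compat C Γ) (z : IN Γ C.N) :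
    ∀ x ∈ (igate C Γ hC z).children, irank C Γ x.node < irank C Γ z := by
  intro x hx
  have hne : {r | ∃ (g : G p n) (a : C.N), z = imk Γ g a ∧ r = C.rank a}.Nonempty := by
    obtain ⟨g, a, h⟩ := exists_imk Γ z
    exact ⟨_, g, a, h, rfl⟩
  obtain ⟨g, a, hz, hr⟩ := Nat.sInf_mem hne
  subst hz
  rw [igate_mk] at hx
  have hr' : irank C Γ (imk Γ g a) = C.rank a := hr
  rw [hr']
  cases hg : C.gate a with
  | var v =>
    rw [hg] at hx
    exact absurd hx (Set.notMem_empty _)
  | and S =>
    rw [hg] at hx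
    obtain ⟨y, hy, rfl⟩ := hx
    refine lt_of_le_of_lt ?_ (C.rank_lt a y (by rw [hg]; exact hy))
    exact Nat.sInf_le ⟨g, y.node, rfl, rfl⟩

/-- The induced circuit. -/
noncomputable def icirc [Finite (G p n)] (hC : Compat C Γ) : Circuit Rel p n where
  N := IN Γ C.N
  gate := igate C Γ hC
  rank := irank C Γ
  rank_lt := irank_lt C Γ hC

/-- The translate of a line. -/
def iline (g : G p n) (Λ : Set (Lit C.N)) : Set (Lit (IN Γ C.N)) :=
  Lit.map (fun a => imk Γ g a) '' Λ

end Pool.Agent.H81.GL
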