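import Pool.Agent.H81.GL.EInd
import Pool.Agent.H81.GL.AGrp
import Pool.Agent.H81.GL.Act

/-!
# Symmetrisation of a refutation

MODULE ESym.

`C' = icirc C Γ hC`, nodes `[g, a] = imk Γ g a`.

`rep_ind`. Induction on `φ` for all `v x`. `falsum`, `eq`: `igate_mk`, `Lit.map` of `∅` is `∅`
(`Set.image_empty`); `tv (fun i => g (v i)) t = g (tv v t)` (`map_sum`, `map_smul`), and `g u = 0 ↔ u = 0`
(`LinearEquiv.map_eq_zero_iff`). `rel`: `Gate.map` of a variable. `imp`: the images of `y` and `z`;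
`Set.image_pair`, `Lit.map f z.neg = (Lit.map f z).neg` (`rfl`). `all`: the set `Lit.map _ '' S`; for
`b : V p n` take the `y` for `g⁻¹ b` (`g.symm b`) and its image:
`(fun i => g ((Fin.snoc v (g⁻¹ b)) i)) = Fin.snoc (fun i => g (v i)) b` (`Fin.lastCases`,
`Fin.snoc_last`, `Fin.snoc_castSucc`); conversely the image of `y`, which represents `φ` under
`Fin.snoc v b`, represents it under `Fin.snoc (g ∘ v) (g b)`.

`step_ind`. By cases on the rule. `hyp`: `rep_ind` with `v = default` (functions on `Fin 0` are equal: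
`Subsingleton.elim`). `ident`: `igate_mk`. `weak`: `Set.image_mono`. `cut`: `Set.image_insert_eq`.
`andI`: the members of `Lit.map _ '' S` are images, `Set.image_insert_eq`. `andE`: `Set.image_union`,
`Lit.neg '' (Lit.map f '' S) = Lit.map f '' (Lit.neg '' S)` (`Set.image_image`, both are
`x ↦ (Lit.map f x).neg`).

`symmetrise`. `obtain ⟨inst, hC, hl⟩ := hR`. `Finite (G p n)`: the functions `V p n → V p n` form a finite
set (`V p n` is finite: `ZMod p` is finite since `p ≠ 0`; `Finite.of_injective (fun g : G p n => (g : V p n → V p n))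
DFunLike.coe_injective`). `R'`: circuit `icirc R.C Γ hC`, lines
`{Λ' | ∃ g, ∃ Λ ∈ R.lines, Λ' = iline R.C Γ g Λ}`, order of `Λ'`:
`sInf {o | ∃ g, ∃ Λ ∈ R.lines, Λ' = iline R.C Γ g Λ ∧ o = R.order Λ}`.
- step: `Λ' ∈ lines'`; the infimum is attained (`Nat.sInf_mem`) by some `g`, `Λ ∈ R.lines`. `step_ind` for
  `R.step Λ`, and every `iline g Δ` with `Δ ∈ R.lines`, `R.order Δ < R.order Λ` lies in `lines'` and has
  order at most `R.order Δ` (`Nat.sInf_le`). Monotonicity of `Step` in `P`: by cases.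
- `∅ = iline 1 ∅`.
- Symmetry under `⊤`: the action of `(⊤ : Subgroup (G p n))` on `IN Γ R.C.N` is the restriction of that of
  `G p n` (the instance for subgroups). `gate`: for `z = [g, a]`, `igate [τ g, a] = (gate a).map (τ g)
  [τ g, ·] = ((gate a).map g [g, ·]).map τ (τ • ·)` (`Gate.map_map`, `smul_imk`). Lines:
  `Lit.map (τ • ·) '' iline g Λ = iline (τ * g) Λ` (`Set.image_image`).
- size: `IN Γ N` is the image of `(G p n ⧸ Γ) × N` under `(q, a) ↦ [q.out, a]`: `g = q.out * γ` with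
  `γ ∈ Γ`, `q = (g : G p n ⧸ Γ)`, so `[g, a] = [q.out, γ • a]` (`imk_mul`). So
  `Nat.card (IN Γ N) ≤ Γ.index * Nat.card N` (`Nat.card_le_card_of_surjective`-like,
  `Nat.card_prod`). In the same way `lines'` is the image of `(G p n ⧸ Γ) × R.lines`:
  `iline (q.out * γ) Λ = iline q.out (γ • Λ)`, where `γ • Λ = Lit.map (γ • ·) '' Λ ∈ R.lines` by `hl`.
- levels: `irank [g, a] ≤ R.C.rank a` (`Nat.sInf_le`).
-/

set_option autoImplicit false

namespace Pool.Agent.H81.GL

open scoped Pointwise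

variable {Rel : ℕ → Type} {p n : ℕ}

private theorem tv_map (g : G p n) {k : ℕ} (v : Fin k → V p n) (t : Fin k → ZMod p) :
    tv (fun i => g (v i)) t = g (tv v t) := by
  unfold tv
  rw [map_sum]
  exact Finset.sum_congr rfl fun i _ => (map_smul g (t i) (v i)).symm

private theorem snoc_map (g : G p n) {k : ℕ} (v : Fin k → V p n) (b : V p n) :
    (fun i => g ((Fin.snoc v b : Fin (k + 1) → V p n) i)) =
      Fin.snoc (fun i => g (v i)) (g b) := by
  funext i
  refine Fin.lastCases ?_ (fun j => ?_) i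
  · simp
  · simp

theorem rep_ind [Finite (G p n)] {C : Circuit Rel p n} {Γ : Subgroup (G p n)}
    [MulAction Γ C.N] (hC : Compat C Γ) (g : G p n) {k : ℕ} (φ : Fml p Rel k)
    (v : Fin k → V p n) (x : Lit C.N) (hx : C.Rep φ v x) :
    (icirc C Γ hC).Rep φ (fun i => g (v i)) (Lit.map (fun a => imk Γ g a) x) := by
  induction φ generalizing x with
  | falsum =>
    obtain ⟨h1, h2⟩ := hx
    refine ⟨h1, ?_⟩
    show igate C Γ hC (imk Γ g x.node) = Gate.and ∅
    rw [igate_mk, h2]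
    show Gate.and (Lit.map _ '' ∅) = Gate.and ∅
    rw [Set.image_empty]
  | eq t =>
    obtain ⟨h1, h2⟩ := hx
    refine ⟨?_, ?_⟩
    · rw [tv_map, LinearEquiv.map_eq_zero_iff]
      exact h1
    · show igate C Γ hC (imk Γ g x.node) = Gate.and ∅
      rw [igate_mk, h2]
      show Gate.and (Lit.map _ '' ∅) = Gate.and ∅
      rw [Set.image_empty]
  | rel R t =>
    obtain ⟨h1, h2⟩ := hx
    refine ⟨h1, ?_⟩
    show igate C Γ hC (imk Γ g x.node) = Gate.var _
    rw [igate_mk, h2]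
    show Gate.var _ = Gate.var _
    congr 1
    refine Sigma.ext rfl (heq_of_eq ?_)
    refine Prod.ext rfl ?_
    funext i
    exact (tv_map g v (t i)).symm
  | imp φ θ ih1 ih2 =>
    obtain ⟨h1, y, z, hy, hz, h2⟩ := hx
    refine ⟨h1, _, _, ih1 v y hy, ih2 v z hz, ?_⟩
    show igate C Γ hC (imk Γ g x.node) = _
    rw [igate_mk, h2]
    show Gate.and (Lit.map _ '' {y, z.neg}) = _
    rw [Set.image_pair]
    rfl
  | all φ ih =>
    obtain ⟨h1, S, h2, h3, h4⟩ := hx
    refine ⟨h1, Lit.map (fun a => imk Γ g a) '' S, ?_, ?_, ?_⟩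
    · show igate C Γ hC (imk Γ g x.node) = _
      rw [igate_mk, h2]
      rfl
    · intro b
      obtain ⟨y, hy, hr⟩ := h3 (g.symm b)
      refine ⟨_, ⟨y, hy, rfl⟩, ?_⟩
      have h5 := ih _ y hr
      rw [snoc_map, LinearEquiv.apply_symm_apply] at h5
      exact h5
    · rintro _ ⟨y, hy, rfl⟩
      obtain ⟨b, hr⟩ := h4 y hy
      refine ⟨g b, ?_⟩
      have h5 := ih _ y hr
      rw [snoc_map] at h5
      exact h5

theorem step_ind [Finite (G p n)] {C : Circuit Rel p n} {Γ : Subgroup (G p n)}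
    [MulAction Γ C.N] (hC : Compat C Γ) (g : G p n) {ψ : Fml p Rel 0}
    {P : Set (Set (Lit C.N))} {Λ : Set (Lit C.N)} (h : Step ψ C P Λ)
    {P' : Set (Set (Lit (icirc C Γ hC).N))} (hP : ∀ Δ ∈ P, iline C Γ g Δ ∈ P') :
    Step ψ (icirc C Γ hC) P' (iline C Γ g Λ) := by
  cases h with
  | @hyp x hx hm =>
    refine Step.hyp (x := Lit.map (fun a => imk Γ g a) x) ?_ ⟨x, hm, rfl⟩
    have h5 := rep_ind hC g ψ default x hx
    have e : (fun i => g ((default : Fin 0 → V p n) i)) = default := Subsingleton.elim _ _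
    rw [e] at h5
    exact h5
  | @ident a b h1 h2 h3 =>
    refine Step.ident (C := icirc C Γ hC) (a := imk Γ g a) (b := imk Γ g b) ?_ ⟨_, h2, rfl⟩
      ⟨_, h3, rfl⟩
    show igate C Γ hC (imk Γ g a) = igate C Γ hC (imk Γ g b)
    rw [igate_mk, igate_mk, h1]
  | weak h1 h2 => exact Step.weak (hP _ h1) (Set.image_mono h2)
  | @cut a h1 h2 =>
    refine Step.cut (C := icirc C Γ hC) (a := imk Γ g a) ?_ ?_
    · have h5 := hP _ h1
      rw [iline, Set.image_insert_eq] at h5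
      exact h5
    · have h5 := hP _ h2
      rw [iline, Set.image_insert_eq] at h5
      exact h5
  | @andI S a h1 h2 h3 =>
    refine Step.andI (C := icirc C Γ hC) (a := imk Γ g a)
      (S := Lit.map (fun a => imk Γ g a) '' S) ?_ ⟨_, h2, rfl⟩ ?_
    · show igate C Γ hC (imk Γ g a) = _
      rw [igate_mk, h1]
      rfl
    · rintro _ ⟨y, hy, rfl⟩
      have h5 := hP _ (h3 y hy)
      rw [iline, Set.image_insert_eq] at h5
      exact h5
  | @andE S a h1 h2 h3 =>
    refine Step.andE (C := icirc C Γ hC) (a := imk Γ g a)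
      (S := Lit.map (fun a => imk Γ g a) '' S) ?_ ⟨_, h2, rfl⟩ ?_
    · show igate C Γ hC (imk Γ g a) = _
      rw [igate_mk, h1]
      rfl
    · have h5 := hP _ h3
      rw [iline, Set.image_union, Set.image_image] at h5
      rw [Set.image_image]
      exact h5

private theorem step_mono {C : Circuit Rel p n} {ψ : Fml p Rel 0}
    {P P' : Set (Set (Lit C.N))} (hP : P ⊆ P') {Λ : Set (Lit C.N)} (h : Step ψ C P Λ) :
    Step ψ C P' Λ := by
  cases h with
  | hyp h1 h2 => exact Step.hyp h1 h2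
  | ident h1 h2 h3 => exact Step.ident h1 h2 h3
  | weak h1 h2 => exact Step.weak (hP h1) h2
  | cut h1 h2 => exact Step.cut (hP h1) (hP h2)
  | andI h1 h2 h3 => exact Step.andI h1 h2 fun x hx => hP (h3 x hx)
  | andE h1 h2 h3 => exact Step.andE h1 h2 (hP h3)

private theorem lit_finite {N : Type} [Finite N] : Finite (Lit N) :=
  Finite.of_injective (fun x : Lit N => (x.node, x.pos)) fun x y h =>
    Lit.ext (congrArg Prod.fst h) (congrArg Prod.snd h)

private noncomputable def iref [Finite (G p n)] {ψ : Fml p Rel 0} (Γ : Subgroup (G p n))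
    (R : Refutation ψ n) [MulAction Γ R.C.N] (hC : Compat R.C Γ) : Refutation ψ n where
  C := icirc R.C Γ hC
  lines := {Λ' | ∃ g : G p n, ∃ Λ ∈ R.lines, Λ' = iline R.C Γ g Λ}
  order := fun Λ' =>
    sInf {o | ∃ g : G p n, ∃ Λ ∈ R.lines, Λ' = iline R.C Γ g Λ ∧ o = R.order Λ}
  step := by
    rintro Λ' ⟨g0, Λ0, h0, hΛ0⟩
    have hne : {o | ∃ g : G p n, ∃ Λ ∈ R.lines, Λ' = iline R.C Γ g Λ ∧ o = R.order Λ}.Nonempty :=
      ⟨_, g0, Λ0, h0, hΛ0, rfl⟩
    obtain ⟨g, Λ, hΛ, he, ho⟩ := Nat.sInf_mem hne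
    rw [ho, he]
    refine step_ind hC g (R.step Λ hΛ) ?_
    rintro Δ ⟨hΔ, hlt⟩
    refine ⟨⟨g, Δ, hΔ, rfl⟩, ?_⟩
    exact lt_of_le_of_lt (Nat.sInf_le ⟨g, Δ, hΔ, rfl, rfl⟩) hlt
  empty_mem := ⟨1, ∅, R.empty_mem, (Set.image_empty _).symm⟩

theorem symmetrise [Fact p.Prime] {ψ : Fml p Rel 0} (Γ : Subgroup (G p n))
    (R : Refutation ψ n) (hR : R.SymmM Γ) : ∃ R' : Refutation ψ n, R'.SymmM ⊤ ∧
      R'.size ≤ Γ.index * R.size ∧
      ∀ d, (∀ a, R.C.rank a ≤ d) → ∀ a, R'.C.rank a ≤ d := by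
  obtain ⟨inst, hC0, hl⟩ := hR
  haveI : Finite (G p n) :=
    Finite.of_injective (fun g : G p n => (g : V p n → V p n)) DFunLike.coe_injective
  have hC : Compat R.C Γ := hC0
  refine ⟨iref Γ R hC, ?_, ?_, ?_⟩
  · refine ⟨inferInstanceAs (MulAction (⊤ : Subgroup (G p n)) (IN Γ R.C.N)), ?_, ?_⟩
    · rintro ⟨τ, hτ⟩ z
      show igate R.C Γ hC (τ • (show IN Γ R.C.N from z)) =
        (igate R.C Γ hC z).map τ (fun w : IN Γ R.C.N => τ • w)
      obtain ⟨g, a, rfl⟩ := exists_imk Γ (show IN Γ R.C.N from z)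
      rw [smul_imk, igate_mk, igate_mk, Gate.map_map]
      rfl
    · rintro ⟨τ, hτ⟩ _ ⟨g, Λ, hΛ, rfl⟩
      refine ⟨τ * g, Λ, hΛ, ?_⟩
      show Lit.map (fun w : IN Γ R.C.N => τ • w) '' (iline R.C Γ g Λ) = _
      rw [iline, Set.image_image]
      rfl
  · have h1 : Nat.card (IN Γ R.C.N) ≤ Γ.index * Nat.card R.C.N := by
      have h2 : Function.Surjective (fun qa : (G p n ⧸ Γ) × R.C.N => imk Γ qa.1.out qa.2) := by
        intro z
        obtain ⟨g, a, rfl⟩ := exists_imk Γ z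
        have hq : ((QuotientGroup.mk g : G p n ⧸ Γ).out)⁻¹ * g ∈ Γ :=
          QuotientGroup.eq.1 (QuotientGroup.out_eq' _)
        refine ⟨(QuotientGroup.mk g, (⟨_, hq⟩ : Γ) • a), ?_⟩
        show imk Γ _ ((⟨_, hq⟩ : Γ) • a) = _
        rw [← imk_mul]
        congr 1
        exact mul_inv_cancel_left _ _
      have h3 := Nat.card_le_card_of_surjective _ h2
      rw [Nat.card_prod] at h3
      exact h3
    have h4 : (iref Γ R hC).lines.ncard ≤ Γ.index * R.lines.ncard := by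
      haveI : Finite (Lit R.C.N) := lit_finite
      haveI : Finite (Lit (IN Γ R.C.N)) := lit_finite
      have h5 : (iref Γ R hC).lines ⊆ Set.range
          (fun qa : (G p n ⧸ Γ) × R.lines => iline R.C Γ qa.1.out qa.2) := by
        rintro _ ⟨g, Λ, hΛ, rfl⟩
        have hq : ((QuotientGroup.mk g : G p n ⧸ Γ).out)⁻¹ * g ∈ Γ :=
          QuotientGroup.eq.1 (QuotientGroup.out_eq' _)
        refine ⟨(QuotientGroup.mk g, ⟨_, hl ⟨_, hq⟩ Λ hΛ⟩), ?_⟩
        show iline R.C Γ _ (Lit.map ((⟨_, hq⟩ : Γ) • ·) '' Λ) = iline R.C Γ g Λ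
        rw [iline, iline, Set.image_image]
        have h6 : ∀ a : R.C.N, imk Γ ((QuotientGroup.mk g : G p n ⧸ Γ).out)
            ((⟨_, hq⟩ : Γ) • a) = imk Γ g a := by
          intro a
          rw [← imk_mul]
          congr 1
          exact mul_inv_cancel_left _ _
        refine Set.image_congr fun x _ => ?_
        exact Lit.ext (h6 x.node) rfl
      have h7 := Set.ncard_le_ncard h5 (Set.toFinite _)
      refine h7.trans ?_
      rw [← Nat.card_coe_set_eq]
      refine (Finite.card_range_le _).trans ?_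
      rw [Nat.card_prod, Nat.card_coe_set_eq]
      exact le_rfl
    show Nat.card (IN Γ R.C.N) + (iref Γ R hC).lines.ncard ≤
      Γ.index * (Nat.card R.C.N + R.lines.ncard)
    rw [mul_add]
    exact add_le_add h1 h4
  · intro d hd z
    obtain ⟨g, a, hz⟩ := exists_imk Γ (show IN Γ R.C.N from z)
    refine le_trans ?_ (hd a)
    show irank R.C Γ z ≤ R.C.rank a
    exact Nat.sInf_le ⟨g, a, hz, rfl⟩

end Pool.Agent.H81.GL
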