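import Pool.Agent.H81.GL.CLower
import Pool.Agent.H81.GL.DUpper
import Pool.Agent.H81.GL.ESym

/-!
# The gap theorem for linear symmetry
-/

set_option autoImplicit false

namespace Pool.Agent.H81.GL

theorem lower {Rel : ℕ → Type} {p : ℕ} [Fact p.Prime] (ψ : Fml p Rel 0) (M : Type)
    [AddCommGroup M] [Module (ZMod p) M] (hinf : ¬ Module.Finite (ZMod p) M)
    (I : Interp Rel M) (hψ : ψ.Real I default) {n k : ℕ}
    (hn : 2 * qd ψ + 40 + 128 * k ≤ n) (Γ : Subgroup (G p n)) (R : Refutation ψ n)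
    (hR : R.Symm Γ) : p ^ (k * n / 4) ≤ Γ.index * R.size := by
  obtain ⟨R', h1, h2, -⟩ := symmetrise Γ R (symmM_of_symm hR)
  exact (lower_sym ψ M hinf I hψ hn R' h1).trans h2

theorem gap (p : ℕ) [Fact p.Prime] (Rel : ℕ → Type) (ψ : Fml p Rel 0) : ∃ v : ℕ,
    ((∃ (M : Type) (_ : AddCommGroup M) (_ : Module (ZMod p) M) (I : Interp Rel M),
        ¬ Module.Finite (ZMod p) M ∧ ψ.Real I default) →
      ∀ n k : ℕ, v + 128 * k ≤ n → ∀ (Γ : Subgroup (G p n)) (R : Refutation ψ n),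
        R.Symm Γ → p ^ (k * n / 4) ≤ Γ.index * R.size) ∧
    ((¬ ∃ (M : Type) (_ : AddCommGroup M) (_ : Module (ZMod p) M) (I : Interp Rel M),
        ¬ Module.Finite (ZMod p) M ∧ ψ.Real I default) →
      ∀ n : ℕ, v ≤ n → ∃ R : Refutation ψ n, R.Symm ⊤ ∧ R.size ≤ (p ^ n) ^ v ∧
        ∀ a, R.C.rank a ≤ v) := by
  by_cases h : ∃ (M : Type) (_ : AddCommGroup M) (_ : Module (ZMod p) M) (I : Interp Rel M),
      ¬ Module.Finite (ZMod p) M ∧ ψ.Real I default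
  · refine ⟨2 * qd ψ + 40, fun _ n k hn Γ R hR => ?_, fun h' => absurd h h'⟩
    obtain ⟨M, i1, i2, I, h1, h2⟩ := h
    exact lower ψ M h1 I h2 hn Γ R hR
  · obtain ⟨c, hc⟩ := upper ψ (fun M _ _ I h1 h2 => h ⟨M, _, _, I, h1, h2⟩)
    refine ⟨c, fun h' => absurd h' h, fun _ n hn => ?_⟩
    obtain ⟨R, h1, h2, h3⟩ := hc n hn
    exact ⟨R, symm_of_symmM h1, h2, h3⟩

end Pool.Agent.H81.GL
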