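import Pool.Agent.H81.GL.AComb

/-!
# Pairs of a space of vectors and a space of covectors; partial isometries
-/

set_option autoImplicit false

namespace Pool.Agent.H81.GL

open Module

/-- A pair of a space of vectors and a space of covectors. -/
abbrev Sp (K E : Type) [Field K] [AddCommGroup E] [Module K E] : Type :=
  Submodule K E × Submodule K (Dual K E)

/-- Pairs of a map of vectors and a map of covectors. -/
abbrev Emb (K E F : Type) [Field K] [AddCommGroup E] [Module K E] [AddCommGroup F]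
    [Module K F] : Type := (E →ₗ[K] F) × (Dual K E →ₗ[K] Dual K F)

section

variable {K E F J : Type} [Field K] [AddCommGroup E] [Module K E] [AddCommGroup F] [Module K F]
  [AddCommGroup J] [Module K J]

/-- The dimension of a pair. -/
noncomputable def dm (S : Sp K E) : ℕ := finrank K S.1 + finrank K S.2

/-- Both spaces are finite-dimensional. -/
def Fd (S : Sp K E) : Prop := FiniteDimensional K S.1 ∧ FiniteDimensional K S.2

/-- The space is infinite-dimensional or of dimension at least `r`. -/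
def Rm (K E : Type) [Field K] [AddCommGroup E] [Module K E] (r : ℕ) : Prop :=
  ¬ Module.Finite K E ∨ r ≤ finrank K E

/-- The pair generated by one vector. -/
def vc (b : E) : Sp K E := (Submodule.span K {b}, ⊥)

/-- The pair generated by one covector. -/
def cv (c : Dual K E) : Sp K E := (⊥, Submodule.span K {c})

/-- The action of the general linear group on covectors. -/
def dl (σ : E ≃ₗ[K] E) : Dual K E ≃ₗ[K] Dual K E := σ.symm.dualMap

/-- The group generated by the transvections which fix all vectors and covectors of the pair. -/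
def T (S : Sp K E) : Subgroup (E ≃ₗ[K] E) :=
  Subgroup.closure {g | ∃ v ∈ S.2.dualCoannihilator, ∃ f ∈ S.1.dualAnnihilator,
    ∃ h : f v = 0, g = LinearEquiv.transvection h}

/-- The image of a pair. -/
def im (e : Emb K E F) (S : Sp K E) : Sp K F := (S.1.map e.1, S.2.map e.2)

/-- The pair of maps given by an element of the general linear group. -/
def act (σ : E ≃ₗ[K] E) : Emb K E E := ((σ : E →ₗ[K] E), (dl σ : Dual K E →ₗ[K] Dual K E))

/-- Composition. -/
def cmp (g : Emb K F J) (e : Emb K E F) : Emb K E J := (g.1 ∘ₗ e.1, g.2 ∘ₗ e.2)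

/-- `e ∘ σ⁻¹`. -/
def pull (e : Emb K E F) (σ : E ≃ₗ[K] E) : Emb K E F := cmp e (act σ⁻¹)

/-- The maps agree on the pair. -/
def Agr (S : Sp K E) (e f : Emb K E F) : Prop :=
  (∀ v ∈ S.1, e.1 v = f.1 v) ∧ ∀ c ∈ S.2, e.2 c = f.2 c

/-- The maps are injective on the pair and preserve the pairing. -/
def Good (S : Sp K E) (e : Emb K E F) : Prop :=
  (∀ v ∈ S.1, e.1 v = 0 → v = 0) ∧ (∀ c ∈ S.2, e.2 c = 0 → c = 0) ∧
    ∀ c ∈ S.2, ∀ v ∈ S.1, e.2 c (e.1 v) = c v

/-! ### The action on covectors -/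

theorem dl_apply (σ : E ≃ₗ[K] E) (c : Dual K E) (v : E) : dl σ c v = c (σ⁻¹ v) := rfl

theorem dl_one (c : Dual K E) : dl (1 : E ≃ₗ[K] E) c = c := rfl

theorem dl_mul (σ τ : E ≃ₗ[K] E) (c : Dual K E) : dl (σ * τ) c = dl σ (dl τ c) := rfl

theorem dl_inv_dl (σ : E ≃ₗ[K] E) (c : Dual K E) : dl σ⁻¹ (dl σ c) = c := by
  rw [← dl_mul, inv_mul_cancel, dl_one]

theorem dl_dl_inv (σ : E ≃ₗ[K] E) (c : Dual K E) : dl σ (dl σ⁻¹ c) = c := by
  rw [← dl_mul, mul_inv_cancel, dl_one]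

theorem ia (σ : E ≃ₗ[K] E) (v : E) : σ⁻¹ (σ v) = v := σ.symm_apply_apply v

theorem ai (σ : E ≃ₗ[K] E) (v : E) : σ (σ⁻¹ v) = v := σ.apply_symm_apply v

theorem dl_apply_apply (σ : E ≃ₗ[K] E) (c : Dual K E) (v : E) : dl σ c (σ v) = c v := by
  rw [dl_apply, ia]

/-! ### Agreement -/

theorem Agr.refl (S : Sp K E) (e : Emb K E F) : Agr S e e := ⟨fun _ _ => rfl, fun _ _ => rfl⟩

theorem Agr.symm {S : Sp K E} {e f : Emb K E F} (h : Agr S e f) : Agr S f e :=
  ⟨fun v hv => (h.1 v hv).symm, fun c hc => (h.2 c hc).symm⟩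

theorem Agr.trans {S : Sp K E} {e f g : Emb K E F} (h : Agr S e f) (h' : Agr S f g) :
    Agr S e g :=
  ⟨fun v hv => (h.1 v hv).trans (h'.1 v hv), fun c hc => (h.2 c hc).trans (h'.2 c hc)⟩

theorem Agr.mono {S S' : Sp K E} {e f : Emb K E F} (h : Agr S' e f) (hS : S ≤ S') : Agr S e f :=
  ⟨fun v hv => h.1 v (hS.1 hv), fun c hc => h.2 c (hS.2 hc)⟩

theorem Agr.sup {S S' : Sp K E} {e f : Emb K E F} (h : Agr S e f) (h' : Agr S' e f) :
    Agr (S ⊔ S') e f := by
  constructor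
  · intro v hv
    obtain ⟨a, ha, b, hb, rfl⟩ := Submodule.mem_sup.1 hv
    rw [map_add, map_add, h.1 a ha, h'.1 b hb]
  · intro v hv
    obtain ⟨a, ha, b, hb, rfl⟩ := Submodule.mem_sup.1 hv
    rw [map_add, map_add, h.2 a ha, h'.2 b hb]

theorem Good.mono {S S' : Sp K E} {e : Emb K E F} (h : Good S' e) (hS : S ≤ S') : Good S e :=
  ⟨fun v hv => h.1 v (hS.1 hv), fun c hc => h.2.1 c (hS.2 hc),
    fun c hc v hv => h.2.2 c (hS.2 hc) v (hS.1 hv)⟩

theorem Good.congr {S : Sp K E} {e f : Emb K E F} (h : Good S e) (hf : Agr S f e) :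
    Good S f := by
  refine ⟨fun v hv hv0 => h.1 v hv ?_, fun c hc hc0 => h.2.1 c hc ?_, fun c hc v hv => ?_⟩
  · rw [← hf.1 v hv, hv0]
  · rw [← hf.2 c hc, hc0]
  · rw [hf.1 v hv, hf.2 c hc, h.2.2 c hc v hv]

theorem Good.inj {S : Sp K E} {e : Emb K E F} (h : Good S e) {v w : E} (hv : v ∈ S.1)
    (hw : w ∈ S.1) (hvw : e.1 v = e.1 w) : v = w :=
  sub_eq_zero.1 (h.1 _ (S.1.sub_mem hv hw) (by rw [map_sub, hvw, sub_self]))

theorem Good.inj' {S : Sp K E} {e : Emb K E F} (h : Good S e) {v w : Dual K E} (hv : v ∈ S.2)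
    (hw : w ∈ S.2) (hvw : e.2 v = e.2 w) : v = w :=
  sub_eq_zero.1 (h.2.1 _ (S.2.sub_mem hv hw) (by rw [map_sub, hvw, sub_self]))

theorem good_bot (e : Emb K E F) : Good (⊥ : Sp K E) e := by
  refine ⟨fun v hv _ => (Submodule.mem_bot K).1 hv, fun c hc _ => (Submodule.mem_bot K).1 hc,
    fun c hc v hv => ?_⟩
  rw [(Submodule.mem_bot K).1 hv, (Submodule.mem_bot K).1 hc]
  simp

/-! ### Transvections -/

theorem T_le_iff {S : Sp K E} {H : Subgroup (E ≃ₗ[K] E)} :
    T S ≤ H ↔ Rect H S.2.dualCoannihilator S.1.dualAnnihilator := by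
  unfold T
  rw [Subgroup.closure_le]
  constructor
  · intro h v hv f hf hfv
    exact h ⟨v, hv, f, hf, hfv, rfl⟩
  · rintro h _ ⟨v, hv, f, hf, hfv, rfl⟩
    exact h v hv f hf hfv

theorem mem_T {S : Sp K E} {v : E} {f : Dual K E} (hv : v ∈ S.2.dualCoannihilator)
    (hf : f ∈ S.1.dualAnnihilator) (h : f v = 0) : LinearEquiv.transvection h ∈ T S :=
  Subgroup.subset_closure ⟨v, hv, f, hf, h, rfl⟩

theorem T_anti {S S' : Sp K E} (h : S ≤ S') : T S' ≤ T S := by
  rw [T_le_iff]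
  intro v hv f hf hfv
  exact mem_T (Submodule.dualCoannihilator_anti h.2 hv) (Submodule.dualAnnihilator_anti h.1 hf) hfv

theorem T_fix {S : Sp K E} {σ : E ≃ₗ[K] E} (h : σ ∈ T S) :
    (∀ v ∈ S.1, σ v = v) ∧ ∀ c ∈ S.2, dl σ c = c := by
  unfold T at h
  induction h using Subgroup.closure_induction with
  | mem g hg =>
    obtain ⟨v, hv, f, hf, hfv, rfl⟩ := hg
    constructor
    · intro w hw
      rw [LinearEquiv.transvection.apply, (Submodule.mem_dualAnnihilator f).1 hf w hw, zero_smul,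
        add_zero]
    · intro c hc
      ext w
      have h1 : c v = 0 := (Submodule.mem_dualCoannihilator v).1 hv c hc
      have h2 : ∀ u, c (LinearEquiv.transvection hfv u) = c u := by
        intro u
        rw [LinearEquiv.transvection.apply, map_add, map_smul, h1, smul_zero, add_zero]
      rw [dl_apply, ← h2, ai]
  | one => exact ⟨fun _ _ => rfl, fun _ _ => rfl⟩
  | mul g g' _ _ h1 h2 =>
    refine ⟨fun v hv => ?_, fun c hc => ?_⟩
    · rw [LinearEquiv.mul_apply, h2.1 v hv, h1.1 v hv]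
    · rw [dl_mul, h2.2 c hc, h1.2 c hc]
  | inv g _ h1 =>
    refine ⟨fun v hv => ?_, fun c hc => ?_⟩
    · conv_lhs => rw [← h1.1 v hv]
      rw [ia]
    · conv_lhs => rw [← h1.2 c hc]
      rw [dl_inv_dl]

/-! ### Composition with elements of the general linear group -/

theorem act_one : act (1 : E ≃ₗ[K] E) = (LinearMap.id, LinearMap.id) := rfl

theorem cmp_fst (g : Emb K F J) (e : Emb K E F) (v : E) : (cmp g e).1 v = g.1 (e.1 v) := rfl

theorem cmp_snd (g : Emb K F J) (e : Emb K E F) (c : Dual K E) : (cmp g e).2 c = g.2 (e.2 c) :=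
  rfl

theorem act_fst (σ : E ≃ₗ[K] E) (v : E) : (act σ).1 v = σ v := rfl

theorem act_snd (σ : E ≃ₗ[K] E) (c : Dual K E) : (act σ).2 c = dl σ c := rfl

theorem pull_fst (e : Emb K E F) (σ : E ≃ₗ[K] E) (v : E) : (pull e σ).1 v = e.1 (σ⁻¹ v) := rfl

theorem pull_snd (e : Emb K E F) (σ : E ≃ₗ[K] E) (c : Dual K E) :
    (pull e σ).2 c = e.2 (dl σ⁻¹ c) := rfl

theorem pull_pull (e : Emb K E F) (σ τ : E ≃ₗ[K] E) : pull (pull e σ) τ = pull e (τ * σ) := by
  refine Prod.ext (LinearMap.ext fun v => ?_) (LinearMap.ext fun c => ?_)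
  · rw [pull_fst, pull_fst, pull_fst, mul_inv_rev]
    rfl
  · rw [pull_snd, pull_snd, pull_snd, mul_inv_rev, dl_mul]

theorem pull_one (e : Emb K E F) : pull e 1 = e := by
  refine Prod.ext (LinearMap.ext fun v => ?_) (LinearMap.ext fun c => ?_)
  · rw [pull_fst, inv_one]
    rfl
  · rw [pull_snd, inv_one, dl_one]

theorem pull_inv_pull (e : Emb K E F) (σ : E ≃ₗ[K] E) : pull (pull e σ) σ⁻¹ = e := by
  rw [pull_pull, inv_mul_cancel, pull_one]

theorem pull_pull_inv (e : Emb K E F) (σ : E ≃ₗ[K] E) : pull (pull e σ⁻¹) σ = e := by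
  rw [pull_pull, mul_inv_cancel, pull_one]

theorem im_cmp (g : Emb K F J) (e : Emb K E F) (S : Sp K E) : im (cmp g e) S = im g (im e S) :=
  Prod.ext (Submodule.map_comp _ _ _) (Submodule.map_comp _ _ _)

theorem im_mono (e : Emb K E F) {S S' : Sp K E} (h : S ≤ S') : im e S ≤ im e S' :=
  ⟨Submodule.map_mono h.1, Submodule.map_mono h.2⟩

theorem im_sup (e : Emb K E F) (S S' : Sp K E) : im e (S ⊔ S') = im e S ⊔ im e S' :=
  Prod.ext (Submodule.map_sup _ _ _) (Submodule.map_sup _ _ _)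

theorem im_congr {e f : Emb K E F} {S : Sp K E} (h : Agr S e f) : im e S = im f S := by
  refine Prod.ext ?_ ?_
  · ext x
    constructor
    · rintro ⟨v, hv, rfl⟩
      exact ⟨v, hv, (h.1 v hv).symm⟩
    · rintro ⟨v, hv, rfl⟩
      exact ⟨v, hv, h.1 v hv⟩
  · ext x
    constructor
    · rintro ⟨v, hv, rfl⟩
      exact ⟨v, hv, (h.2 v hv).symm⟩
    · rintro ⟨v, hv, rfl⟩
      exact ⟨v, hv, h.2 v hv⟩

theorem mem_im_act_fst {σ : E ≃ₗ[K] E} {S : Sp K E} {v : E} :
    v ∈ (im (act σ) S).1 ↔ σ⁻¹ v ∈ S.1 := by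
  constructor
  · rintro ⟨w, hw, rfl⟩
    show σ⁻¹ (σ w) ∈ S.1
    rw [ia]
    exact hw
  · intro h
    exact ⟨_, h, ai σ v⟩

theorem mem_im_act_snd {σ : E ≃ₗ[K] E} {S : Sp K E} {c : Dual K E} :
    c ∈ (im (act σ) S).2 ↔ dl σ⁻¹ c ∈ S.2 := by
  constructor
  · rintro ⟨w, hw, rfl⟩
    show dl σ⁻¹ (dl σ w) ∈ S.2
    rw [dl_inv_dl]
    exact hw
  · intro h
    exact ⟨_, h, dl_dl_inv σ c⟩

theorem im_act_mul (σ τ : E ≃ₗ[K] E) (S : Sp K E) :
    im (act (σ * τ)) S = im (act σ) (im (act τ) S) :=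
  im_cmp (act σ) (act τ) S

theorem im_act_one (S : Sp K E) : im (act (1 : E ≃ₗ[K] E)) S = S :=
  Prod.ext (Submodule.map_id _) (Submodule.map_id _)

theorem im_act_inv (σ : E ≃ₗ[K] E) (S : Sp K E) : im (act σ⁻¹) (im (act σ) S) = S := by
  rw [← im_act_mul, inv_mul_cancel, im_act_one]

theorem im_act_inv' (σ : E ≃ₗ[K] E) (S : Sp K E) : im (act σ) (im (act σ⁻¹) S) = S := by
  rw [← im_act_mul, mul_inv_cancel, im_act_one]

theorem im_act_le {σ : E ≃ₗ[K] E} {S S' : Sp K E} :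
    im (act σ) S ≤ im (act σ) S' ↔ S ≤ S' := by
  refine ⟨fun h => ?_, im_mono _⟩
  rw [← im_act_inv σ S, ← im_act_inv σ S']
  exact im_mono _ h

theorem im_act_of_fix {S : Sp K E} {σ : E ≃ₗ[K] E} (h : σ ∈ T S) : im (act σ) S = S := by
  have h1 : Agr S (act σ) (act 1) :=
    ⟨fun v hv => (T_fix h).1 v hv, fun c hc => (T_fix h).2 c hc⟩
  rw [im_congr h1, im_act_one]

theorem agr_pull {S : Sp K E} {e f : Emb K E F} {σ : E ≃ₗ[K] E} :
    Agr (im (act σ) S) (pull e σ) (pull f σ) ↔ Agr S e f := by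
  constructor
  · intro h
    refine ⟨fun v hv => ?_, fun c hc => ?_⟩
    · have h1 := h.1 (σ v) ⟨v, hv, rfl⟩
      rw [pull_fst, pull_fst, ia] at h1
      exact h1
    · have h1 := h.2 (dl σ c) ⟨c, hc, rfl⟩
      rw [pull_snd, pull_snd, dl_inv_dl] at h1
      exact h1
  · intro h
    refine ⟨fun v hv => ?_, fun c hc => ?_⟩
    · rw [pull_fst, pull_fst]
      exact h.1 _ (mem_im_act_fst.1 hv)
    · rw [pull_snd, pull_snd]
      exact h.2 _ (mem_im_act_snd.1 hc)

theorem good_pull {S : Sp K E} {e : Emb K E F} {σ : E ≃ₗ[K] E} :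
    Good (im (act σ) S) (pull e σ) ↔ Good S e := by
  constructor
  · intro h
    refine ⟨fun v hv h0 => ?_, fun c hc h0 => ?_, fun c hc v hv => ?_⟩
    · have h1 := h.1 (σ v) ⟨v, hv, rfl⟩ (by rw [pull_fst, ia, h0])
      exact (LinearEquiv.map_eq_zero_iff σ).1 h1
    · have h1 := h.2.1 (dl σ c) ⟨c, hc, rfl⟩ (by rw [pull_snd, dl_inv_dl, h0])
      exact (LinearEquiv.map_eq_zero_iff (dl σ)).1 h1
    · have h1 := h.2.2 (dl σ c) ⟨c, hc, rfl⟩ (σ v) ⟨v, hv, rfl⟩
      rw [pull_snd, pull_fst, ia, dl_inv_dl, dl_apply_apply] at h1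
      exact h1
  · intro h
    refine ⟨fun v hv h0 => ?_, fun c hc h0 => ?_, fun c hc v hv => ?_⟩
    · have h1 := h.1 _ (mem_im_act_fst.1 hv) h0
      exact (LinearEquiv.map_eq_zero_iff (σ⁻¹ : E ≃ₗ[K] E)).1 h1
    · have h1 := h.2.1 _ (mem_im_act_snd.1 hc) h0
      exact (LinearEquiv.map_eq_zero_iff (dl (σ⁻¹ : E ≃ₗ[K] E))).1 h1
    · have h1 := h.2.2 _ (mem_im_act_snd.1 hc) _ (mem_im_act_fst.1 hv)
      rw [pull_snd, pull_fst, h1, dl_apply, inv_inv, ai]

/-! ### Dimensions -/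

theorem Fd.mono {S S' : Sp K E} (h : Fd S') (hS : S ≤ S') : Fd S :=
  ⟨@Submodule.finiteDimensional_of_le K E _ _ _ S.1 S'.1 h.1 hS.1,
    @Submodule.finiteDimensional_of_le K (Dual K E) _ _ _ S.2 S'.2 h.2 hS.2⟩

theorem Fd.sup {S S' : Sp K E} (h : Fd S) (h' : Fd S') : Fd (S ⊔ S') := by
  have := h.1
  have := h.2
  have := h'.1
  have := h'.2
  exact ⟨Submodule.finiteDimensional_sup _ _, Submodule.finiteDimensional_sup _ _⟩

theorem fd_of_fd [FiniteDimensional K E] (S : Sp K E) : Fd S :=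
  ⟨inferInstance, inferInstance⟩

theorem Fd.im {S : Sp K E} (h : Fd S) (e : Emb K E F) : Fd (im e S) := by
  have := h.1
  have := h.2
  exact ⟨inferInstanceAs (FiniteDimensional K (S.1.map e.1)),
    inferInstanceAs (FiniteDimensional K (S.2.map e.2))⟩

theorem fd_vc (b : E) : Fd (vc b : Sp K E) :=
  ⟨inferInstanceAs (FiniteDimensional K (Submodule.span K {b})),
    inferInstanceAs (FiniteDimensional K (⊥ : Submodule K (Dual K E)))⟩

theorem fd_cv (c : Dual K E) : Fd (cv c : Sp K E) :=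
  ⟨inferInstanceAs (FiniteDimensional K (⊥ : Submodule K E)),
    inferInstanceAs (FiniteDimensional K (Submodule.span K {c}))⟩

theorem dm_mono {S S' : Sp K E} (h : Fd S') (hS : S ≤ S') : dm S ≤ dm S' := by
  have := h.1
  have := h.2
  exact Nat.add_le_add (Submodule.finrank_mono hS.1) (Submodule.finrank_mono hS.2)

theorem dm_bot : dm (⊥ : Sp K E) = 0 := by
  show finrank K (⊥ : Submodule K E) + finrank K (⊥ : Submodule K (Dual K E)) = 0
  rw [finrank_bot, finrank_bot]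

theorem dm_im_le {S : Sp K E} (h : Fd S) (e : Emb K E F) : dm (im e S) ≤ dm S := by
  have := h.1
  have := h.2
  exact Nat.add_le_add (Submodule.finrank_map_le _ _) (Submodule.finrank_map_le _ _)

theorem dm_im_act [FiniteDimensional K E] (σ : E ≃ₗ[K] E) (S : Sp K E) :
    dm (im (act σ) S) = dm S := by
  refine le_antisymm (dm_im_le (fd_of_fd S) _) ?_
  conv_lhs => rw [← im_act_inv σ S]
  exact dm_im_le (fd_of_fd _) _

theorem dm_sup_le {S S' : Sp K E} (h : Fd S) (h' : Fd S') : dm (S ⊔ S') ≤ dm S + dm S' := by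
  have := h.1
  have := h.2
  have := h'.1
  have := h'.2
  have h1 : finrank K (S.1 ⊔ S'.1 : Submodule K E) ≤ finrank K S.1 + finrank K S'.1 :=
    Submodule.finrank_add_le_finrank_add_finrank _ _
  have h2 : finrank K (S.2 ⊔ S'.2 : Submodule K (Dual K E)) ≤ finrank K S.2 + finrank K S'.2 :=
    Submodule.finrank_add_le_finrank_add_finrank _ _
  show finrank K (S.1 ⊔ S'.1 : Submodule K E) + finrank K (S.2 ⊔ S'.2 : Submodule K (Dual K E)) ≤
    finrank K S.1 + finrank K S.2 + (finrank K S'.1 + finrank K S'.2)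
  omega

theorem dm_vc_le (b : E) : dm (vc b : Sp K E) ≤ 1 := by
  have h1 : finrank K (Submodule.span K {b}) ≤ 1 := by
    have := finrank_span_le_card (R := K) ({b} : Set E)
    simpa using this
  show finrank K (Submodule.span K {b}) + finrank K (⊥ : Submodule K (Dual K E)) ≤ 1
  rw [finrank_bot]
  omega

theorem dm_cv_le (c : Dual K E) : dm (cv c : Sp K E) ≤ 1 := by
  have h1 : finrank K (Submodule.span K {c}) ≤ 1 := by
    have := finrank_span_le_card (R := K) ({c} : Set (Dual K E))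
    simpa using this
  show finrank K (⊥ : Submodule K E) + finrank K (Submodule.span K {c}) ≤ 1
  rw [finrank_bot]
  omega

theorem Rm.mono {r r' : ℕ} (h : Rm K E r) (hr : r' ≤ r) : Rm K E r' :=
  h.imp id fun h1 => hr.trans h1

theorem le_sup_vc_fst (S : Sp K E) (b : E) : b ∈ (S ⊔ vc b).1 :=
  Submodule.mem_sup_right (Submodule.mem_span_singleton_self b)

theorem le_sup_cv_snd (S : Sp K E) (c : Dual K E) : c ∈ (S ⊔ cv c).2 :=
  Submodule.mem_sup_right (Submodule.mem_span_singleton_self c)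

end

end Pool.Agent.H81.GL
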